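import Mathlib

/-! # The uncentred maximal function with respect to a measure on the line: weak type -/

set_option autoImplicit false

open MeasureTheory Filter Topology Set
open scoped ENNReal NNReal

namespace Pool.Agent.P8H66.WT

/-- the uncentred maximal function with respect to the measure `μ` -/
noncomputable def MM (μ : Measure ℝ) (f : ℝ → ℝ≥0∞) (x : ℝ) : ℝ≥0∞ :=
  ⨆ (a : ℝ) (b : ℝ) (_ : a < x) (_ : x < b), (∫⁻ y in Ioo a b, f y ∂μ) / μ (Ioo a b)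

lemma le_MM {μ : Measure ℝ} {f : ℝ → ℝ≥0∞} {a b x : ℝ} (ha : a < x) (hb : x < b) :
    (∫⁻ y in Ioo a b, f y ∂μ) / μ (Ioo a b) ≤ MM μ f x :=
  le_iSup_of_le a (le_iSup_of_le b (le_iSup_of_le ha (le_iSup_of_le hb le_rfl)))

lemma lintegral_le_MM {μ : Measure ℝ} [IsLocallyFiniteMeasure μ] {f : ℝ → ℝ≥0∞} {a b x : ℝ}
    (ha : a < x) (hb : x < b) :
    ∫⁻ y in Ioo a b, f y ∂μ ≤ μ (Ioo a b) * MM μ f x := by
  have h1 := le_MM (μ := μ) (f := f) ha hb
  have hfin : μ (Ioo a b) ≠ ∞ := measure_Ioo_lt_top.ne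
  rcases eq_or_ne (μ (Ioo a b)) 0 with h0 | h0
  · rw [Measure.restrict_eq_zero.2 h0]; simp
  · rw [mul_comm]
    exact (ENNReal.div_le_iff h0 hfin).1 h1

/-- a finite family of intervals can be thinned out so that each point is covered at most twice -/
lemma thin (t : Finset (ℝ × ℝ)) : ∃ s ⊆ t, (⋃ i ∈ s, Ioo i.1 i.2) = (⋃ i ∈ t, Ioo i.1 i.2) ∧
    ∀ x : ℝ, (s.filter fun i => x ∈ Ioo i.1 i.2).card ≤ 2 := by
  classical
  have hne : (t.powerset.filter fun s => (⋃ i ∈ s, Ioo i.1 i.2) = (⋃ i ∈ t, Ioo i.1 i.2)).Nonempty :=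
    ⟨t, by simp⟩
  obtain ⟨s, hs, hmin⟩ := Finset.exists_min_image _ (fun s : Finset (ℝ × ℝ) => s.card) hne
  rw [Finset.mem_filter, Finset.mem_powerset] at hs
  refine ⟨s, hs.1, hs.2, fun x => ?_⟩
  by_contra hcon
  push Not at hcon
  set F := s.filter fun i => x ∈ Ioo i.1 i.2 with hF
  have hFne : F.Nonempty := Finset.card_pos.1 (by omega)
  obtain ⟨L, hL, hLmin⟩ := Finset.exists_min_image F (fun i => i.1) hFne
  obtain ⟨R, hR, hRmax⟩ := Finset.exists_max_image F (fun i => i.2) hFne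
  have hex : ∃ T ∈ F, T ∉ ({L, R} : Finset (ℝ × ℝ)) := by
    by_contra h
    push Not at h
    have h1 : F ⊆ ({L, R} : Finset (ℝ × ℝ)) := h
    have h2 := Finset.card_le_card h1
    have h3 := Finset.card_le_two (a := L) (b := R)
    omega
  obtain ⟨T, hT, hTn⟩ := hex
  rw [Finset.mem_insert, Finset.mem_singleton, not_or] at hTn
  have hTs : T ∈ s := (Finset.mem_filter.1 hT).1
  have hLs : L ∈ s.erase T := Finset.mem_erase.2 ⟨Ne.symm hTn.1, (Finset.mem_filter.1 hL).1⟩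
  have hRs : R ∈ s.erase T := Finset.mem_erase.2 ⟨Ne.symm hTn.2, (Finset.mem_filter.1 hR).1⟩
  have hun : (⋃ i ∈ s.erase T, Ioo i.1 i.2) = (⋃ i ∈ t, Ioo i.1 i.2) := by
    rw [← hs.2]
    apply subset_antisymm
    · exact biUnion_subset_biUnion_left (fun i hi => Finset.mem_of_mem_erase hi)
    · intro y hy
      rw [mem_iUnion₂] at hy ⊢
      obtain ⟨i, hi, hyi⟩ := hy
      by_cases hiT : i = T
      · subst hiT
        have hxi : x ∈ Ioo i.1 i.2 := (Finset.mem_filter.1 hT).2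
        have hxL : x ∈ Ioo L.1 L.2 := (Finset.mem_filter.1 hL).2
        have hxR : x ∈ Ioo R.1 R.2 := (Finset.mem_filter.1 hR).2
        rcases le_total y x with hyx | hyx
        · exact ⟨L, hLs, lt_of_le_of_lt (hLmin i hT) hyi.1, lt_of_le_of_lt hyx hxL.2⟩
        · exact ⟨R, hRs, lt_of_lt_of_le hxR.1 hyx, lt_of_lt_of_le hyi.2 (hRmax i hT)⟩
      · exact ⟨i, Finset.mem_erase.2 ⟨hiT, hi⟩, hyi⟩
  have h4 := hmin (s.erase T) (Finset.mem_filter.2
    ⟨Finset.mem_powerset.2 ((Finset.erase_subset _ _).trans hs.1), hun⟩)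
  have h5 := Finset.card_erase_lt_of_mem hTs
  omega

/-- the superlevel sets as unions of intervals -/
lemma superlevel (μ : Measure ℝ) [IsLocallyFiniteMeasure μ] (f : ℝ → ℝ≥0∞) (l : ℝ≥0∞) :
    {x | l < MM μ f x} = ⋃ i ∈ {i : ℝ × ℝ | l < (∫⁻ y in Ioo i.1 i.2, f y ∂μ) / μ (Ioo i.1 i.2)},
      Ioo i.1 i.2 := by
  ext x
  rw [mem_iUnion₂]
  constructor
  · intro hx
    rw [mem_ofPred_eq] at hx
    unfold MM at hx
    simp only [lt_iSup_iff] at hx
    obtain ⟨a, b, ha, hb, h⟩ := hx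
    exact ⟨(a, b), h, ha, hb⟩
  · rintro ⟨i, hi, hx⟩
    exact lt_of_lt_of_le hi (le_MM hx.1 hx.2)

lemma isOpen_superlevel (μ : Measure ℝ) [IsLocallyFiniteMeasure μ] (f : ℝ → ℝ≥0∞) (l : ℝ≥0∞) :
    IsOpen {x | l < MM μ f x} := by
  rw [superlevel]
  exact isOpen_biUnion fun i _ => isOpen_Ioo

lemma measurable_MM (μ : Measure ℝ) [IsLocallyFiniteMeasure μ] (f : ℝ → ℝ≥0∞) :
    Measurable (MM μ f) :=
  measurable_of_Ioi fun l => (isOpen_superlevel μ f l).measurableSet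

/-- **weak type (1,1)** for any locally finite measure -/
theorem weak_MM (μ : Measure ℝ) [IsLocallyFiniteMeasure μ] {f : ℝ → ℝ≥0∞} (hf : Measurable f)
    (l : ℝ≥0∞) : l * μ {x | l < MM μ f x} ≤ 2 * ∫⁻ x, f x ∂μ := by
  classical
  rw [(isOpen_superlevel μ f l).measure_eq_iSup_isCompact, ENNReal.mul_iSup]
  refine iSup_le fun K => ?_
  rw [ENNReal.mul_iSup]
  refine iSup_le fun hK => ?_
  rw [ENNReal.mul_iSup]
  refine iSup_le fun hKc => ?_
  rw [superlevel] at hK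
  obtain ⟨t, ht1, htf, ht2⟩ := hKc.elim_finite_subcover_image
    (b := {i : ℝ × ℝ | l < (∫⁻ y in Ioo i.1 i.2, f y ∂μ) / μ (Ioo i.1 i.2)})
    (c := fun i => Ioo i.1 i.2) (fun i _ => isOpen_Ioo) hK
  obtain ⟨s, hs1, hs2, hs3⟩ := thin htf.toFinset
  have hsm : ∀ i ∈ s, l * μ (Ioo i.1 i.2) ≤ ∫⁻ y in Ioo i.1 i.2, f y ∂μ := by
    intro i hi
    have h1 : l < (∫⁻ y in Ioo i.1 i.2, f y ∂μ) / μ (Ioo i.1 i.2) :=
      ht1 (htf.mem_toFinset.1 (hs1 hi))
    rcases eq_or_ne (μ (Ioo i.1 i.2)) 0 with h0 | h0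
    · rw [h0, mul_zero]
      exact zero_le
    · exact (ENNReal.le_div_iff_mul_le (Or.inl h0) (Or.inl measure_Ioo_lt_top.ne)).1 h1.le
  calc l * μ K ≤ l * μ (⋃ i ∈ s, Ioo i.1 i.2) := by
        gcongr
        rw [hs2]
        refine ht2.trans ?_
        intro x hx
        rw [mem_iUnion₂] at hx ⊢
        obtain ⟨i, hi, h⟩ := hx
        exact ⟨i, htf.mem_toFinset.2 hi, h⟩
    _ ≤ l * ∑ i ∈ s, μ (Ioo i.1 i.2) := by
        gcongr
        exact measure_biUnion_finset_le _ _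
    _ = ∑ i ∈ s, l * μ (Ioo i.1 i.2) := by rw [Finset.mul_sum]
    _ ≤ ∑ i ∈ s, ∫⁻ y in Ioo i.1 i.2, f y ∂μ := Finset.sum_le_sum hsm
    _ = ∫⁻ y, ∑ i ∈ s, (Ioo i.1 i.2).indicator f y ∂μ := by
        rw [lintegral_finsetSum _ fun i _ => hf.indicator measurableSet_Ioo]
        refine Finset.sum_congr rfl fun i _ => ?_
        rw [lintegral_indicator measurableSet_Ioo]
    _ ≤ ∫⁻ y, 2 * f y ∂μ := by
        refine lintegral_mono fun y => ?_
        have h1 : ∑ i ∈ s, (Ioo i.1 i.2).indicator f y =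
            ((s.filter fun i => y ∈ Ioo i.1 i.2).card : ℝ≥0∞) * f y := by
          simp only [indicator_apply]
          rw [← Finset.sum_filter, Finset.sum_const, nsmul_eq_mul]
        rw [h1]
        gcongr
        exact_mod_cast hs3 y
    _ = 2 * ∫⁻ x, f x ∂μ := by rw [lintegral_const_mul _ hf]

end Pool.Agent.P8H66.WT
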