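import Pool.Agent.P8H66.WT.A

/-! # Layer cake and strong type -/

set_option autoImplicit false

open MeasureTheory Filter Topology Set
open scoped ENNReal NNReal

namespace Pool.Agent.P8H66.WT

/-- the density `p t^(p-1)` -/
noncomputable def dens (p : ℝ) (t : ℝ) : ℝ≥0∞ := ENNReal.ofReal (p * t ^ (p - 1))

lemma dens_meas (p : ℝ) : Measurable (dens p) := by
  unfold dens
  fun_prop

lemma lintegral_dens {p : ℝ} (hp : 0 < p) {a : ℝ} (ha : 0 ≤ a) :
    ∫⁻ t in Ioc 0 a, dens p t = ENNReal.ofReal (a ^ p) := by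
  unfold dens
  rw [← ofReal_integral_eq_lintegral_ofReal]
  · rw [← intervalIntegral.integral_of_le ha, intervalIntegral.integral_const_mul,
      integral_rpow (Or.inl (by linarith))]
    rw [sub_add_cancel, Real.zero_rpow hp.ne', sub_zero]
    congr 1
    field_simp
  · have h1 : IntervalIntegrable (fun t : ℝ => p * t ^ (p - 1)) volume 0 a :=
      (intervalIntegral.intervalIntegrable_rpow' (by linarith)).const_mul _
    exact (intervalIntegrable_iff_integrableOn_Ioc_of_le ha).1 h1
  · rw [EventuallyLE, ae_restrict_iff' measurableSet_Ioc]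
    refine ae_of_all _ fun t ht => ?_
    have := Real.rpow_nonneg ht.1.le (p - 1)
    show 0 ≤ p * t ^ (p - 1)
    positivity

/-- `a^p` as an integral, for `a` in `[0, ∞]` -/
lemma rpow_eq {p : ℝ} (hp : 0 < p) (a : ℝ≥0∞) :
    ∫⁻ t in Ioi (0:ℝ), {t : ℝ | ENNReal.ofReal t < a}.indicator (dens p) t = a ^ p := by
  have hm : ∀ a : ℝ≥0∞, MeasurableSet {t : ℝ | ENNReal.ofReal t < a} := fun a =>
    measurableSet_lt ENNReal.measurable_ofReal measurable_const
  induction a using ENNReal.recTopCoe with
  | top =>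
    rw [ENNReal.top_rpow_of_pos hp]
    have h1 : ∀ n : ℕ, ENNReal.ofReal ((n:ℝ) ^ p) ≤
        ∫⁻ t in Ioi (0:ℝ), {t : ℝ | ENNReal.ofReal t < ∞}.indicator (dens p) t := by
      intro n
      rw [← lintegral_dens hp (Nat.cast_nonneg n)]
      have h2 : ∀ t : ℝ, {t : ℝ | ENNReal.ofReal t < ∞}.indicator (dens p) t = dens p t := by
        intro t
        rw [indicator_of_mem]
        exact ENNReal.ofReal_lt_top
      simp_rw [h2]
      exact lintegral_mono_set Ioc_subset_Ioi_self
    have h3 : Tendsto (fun n : ℕ => ENNReal.ofReal ((n:ℝ) ^ p)) atTop (𝓝 ∞) := by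
      refine ENNReal.tendsto_ofReal_nhds_top.2 ?_
      exact (tendsto_rpow_atTop hp).comp tendsto_natCast_atTop_atTop
    exact top_le_iff.1 (le_of_tendsto' h3 h1)
  | coe a =>
    have h1 : ∀ t ∈ Ioi (0:ℝ), {t : ℝ | ENNReal.ofReal t < a}.indicator (dens p) t =
        (Iio (a:ℝ)).indicator (dens p) t := by
      intro t ht
      have h2 : t ∈ {t : ℝ | ENNReal.ofReal t < a} ↔ t ∈ Iio (a:ℝ) := by
        rw [mem_ofPred_eq, mem_Iio, ← ENNReal.ofReal_coe_nnreal,
          ENNReal.ofReal_lt_ofReal_iff_of_nonneg (le_of_lt ht)]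
      by_cases h : t ∈ Iio (a:ℝ)
      · rw [indicator_of_mem h, indicator_of_mem (h2.2 h)]
      · rw [indicator_of_notMem h, indicator_of_notMem (fun h' => h (h2.1 h'))]
    rw [setLIntegral_congr_fun measurableSet_Ioi h1, setLIntegral_indicator measurableSet_Iio]
    have h3 : Iio (a:ℝ) ∩ Ioi 0 = Ioo 0 (a:ℝ) := by
      ext t; simp [and_comm]
    rw [h3, restrict_Ioo_eq_restrict_Ioc, lintegral_dens hp (NNReal.coe_nonneg a)]
    rw [← ENNReal.ofReal_rpow_of_nonneg (NNReal.coe_nonneg a) hp.le, ENNReal.ofReal_coe_nnreal]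

/-- the layer cake formula for functions with values in `[0, ∞]` -/
lemma layer {α : Type*} [MeasurableSpace α] (μ : Measure α) [SFinite μ] {g : α → ℝ≥0∞}
    (hg : Measurable g) {p : ℝ} (hp : 0 < p) :
    ∫⁻ x, g x ^ p ∂μ = ∫⁻ t in Ioi (0:ℝ), dens p t * μ {x | ENNReal.ofReal t < g x} := by
  have hms : MeasurableSet {q : α × ℝ | ENNReal.ofReal q.2 < g q.1} :=
    measurableSet_lt (ENNReal.measurable_ofReal.comp measurable_snd) (hg.comp measurable_fst)
  calc ∫⁻ x, g x ^ p ∂μ
      = ∫⁻ x, (∫⁻ t in Ioi (0:ℝ), {t : ℝ | ENNReal.ofReal t < g x}.indicator (dens p) t) ∂μ := by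
        refine lintegral_congr fun x => ?_
        rw [rpow_eq hp]
    _ = ∫⁻ t in Ioi (0:ℝ), (∫⁻ x, {t : ℝ | ENNReal.ofReal t < g x}.indicator (dens p) t ∂μ) := by
        rw [lintegral_lintegral_swap]
        have h1 : (Function.uncurry fun (x : α) (t : ℝ) =>
            {t : ℝ | ENNReal.ofReal t < g x}.indicator (dens p) t) =
            {q : α × ℝ | ENNReal.ofReal q.2 < g q.1}.indicator fun q => dens p q.2 := by
          funext q
          simp only [Function.uncurry, indicator_apply, mem_ofPred_eq]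
        rw [h1]
        exact (((dens_meas p).comp measurable_snd).indicator hms).aemeasurable
    _ = _ := by
        refine lintegral_congr fun t => ?_
        have h2 : ∀ x, {t : ℝ | ENNReal.ofReal t < g x}.indicator (dens p) t =
            {x | ENNReal.ofReal t < g x}.indicator (fun _ => dens p t) x := by
          intro x
          simp only [indicator_apply, mem_ofPred_eq]
        simp_rw [h2]
        rw [lintegral_indicator (measurableSet_lt measurable_const hg), setLIntegral_const]

/-- splitting the maximal function -/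
lemma MM_split (μ : Measure ℝ) {f : ℝ → ℝ≥0∞} (l : ℝ≥0∞) (x : ℝ) : MM μ f x ≤ MM μ ({y | l < f y}.indicator f) x + l := by
  unfold MM
  refine iSup_le fun a => iSup_le fun b => iSup_le fun ha => iSup_le fun hb => ?_
  have h1 : ∀ y, f y ≤ {y | l < f y}.indicator f y + l := by
    intro y
    by_cases h : y ∈ {y | l < f y}
    · rw [indicator_of_mem h]
      exact le_self_add
    · rw [indicator_of_notMem h, zero_add]
      exact not_lt.1 h
  calc (∫⁻ y in Ioo a b, f y ∂μ) / μ (Ioo a b)
      ≤ (∫⁻ y in Ioo a b, ({y | l < f y}.indicator f y + l) ∂μ) / μ (Ioo a b) := by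
        gcongr with y
        exact h1 y
    _ = (∫⁻ y in Ioo a b, {y | l < f y}.indicator f y ∂μ) / μ (Ioo a b) +
        l * μ (Ioo a b) / μ (Ioo a b) := by
        rw [lintegral_add_right _ measurable_const, setLIntegral_const, ENNReal.add_div]
    _ ≤ _ := by
        gcongr
        · exact le_MM (f := {y | l < f y}.indicator f) ha hb
        · exact ENNReal.div_le_of_le_mul le_rfl

/-- **strong type** for any locally finite measure -/
theorem strong_MM (q : ℝ) (hq : 1 < q) : ∃ C : ℝ≥0, ∀ (μ : Measure ℝ) [IsLocallyFiniteMeasure μ]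
    (f : ℝ → ℝ≥0∞), Measurable f → ∫⁻ x, MM μ f x ^ q ∂μ ≤ C * ∫⁻ x, f x ^ q ∂μ := by
  refine ⟨Real.toNNReal (4 * (q / (q - 1)) * 2 ^ (q - 1)), fun μ _ f hf => ?_⟩
  have hq0 : 0 < q := by linarith
  have hq1 : 0 < q - 1 := by linarith
  rw [layer μ (measurable_MM μ f) hq0]
  -- distribution estimate
  have key : ∀ t ∈ Ioi (0:ℝ), dens q t * μ {x | ENNReal.ofReal t < MM μ f x} ≤
      ∫⁻ x, {x | ENNReal.ofReal t < 2 * f x}.indicator
        (fun x => ENNReal.ofReal (4 * q * t ^ (q - 2)) * f x) x ∂μ := by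
    intro t ht
    rw [mem_Ioi] at ht
    set l : ℝ≥0∞ := ENNReal.ofReal (t / 2) with hl
    have hl2 : ENNReal.ofReal t = l + l := by
      rw [hl, ← ENNReal.ofReal_add (by positivity) (by positivity)]
      congr 1; ring
    have hl0 : l ≠ 0 := by
      rw [hl, Ne, ENNReal.ofReal_eq_zero, not_le]; positivity
    have hlt : l ≠ ∞ := ENNReal.ofReal_ne_top
    have h1 : {x | ENNReal.ofReal t < MM μ f x} ⊆
        {x | l < MM μ ({y | l < f y}.indicator f) x} := by
      intro x hx
      rw [mem_ofPred_eq] at hx ⊢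
      have h2 := lt_of_lt_of_le hx (MM_split μ l x)
      rw [hl2] at h2
      exact lt_of_add_lt_add_right h2
    have hms : MeasurableSet {y | l < f y} := measurableSet_lt measurable_const hf
    have h3 := weak_MM μ (hf.indicator hms) l
    have h4 : μ {x | ENNReal.ofReal t < MM μ f x} ≤ l⁻¹ * (2 * ∫⁻ x, {y | l < f y}.indicator f x ∂μ) := by
      refine (measure_mono h1).trans ?_
      rw [← ENNReal.div_eq_inv_mul, ENNReal.le_div_iff_mul_le (Or.inl hl0) (Or.inl hlt), mul_comm]
      exact h3
    have h5 : {x | ENNReal.ofReal t < 2 * f x} = {y | l < f y} := by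
      ext x
      rw [mem_ofPred_eq, mem_ofPred_eq, hl2, ← two_mul]
      exact ENNReal.mul_lt_mul_iff_right (by norm_num) (by norm_num)
    rw [h5]
    calc dens q t * μ {x | ENNReal.ofReal t < MM μ f x}
        ≤ dens q t * (l⁻¹ * (2 * ∫⁻ x, {y | l < f y}.indicator f x ∂μ)) := by gcongr
      _ = ENNReal.ofReal (4 * q * t ^ (q - 2)) * ∫⁻ x, {y | l < f y}.indicator f x ∂μ := by
          rw [← mul_assoc, ← mul_assoc]
          congr 1
          unfold dens
          rw [hl, ← ENNReal.ofReal_inv_of_pos (by positivity), ← ENNReal.ofReal_mul (by positivity),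
            ← ENNReal.ofReal_ofNat 2, ← ENNReal.ofReal_mul (by positivity)]
          congr 1
          have e : t ^ (q - 1) = t ^ (q - 2) * t := by
            rw [← Real.rpow_add_one ht.ne']
            congr 1; ring
          rw [e]
          field_simp
          ring
      _ = _ := by
          rw [← lintegral_const_mul _ (hf.indicator hms)]
          refine lintegral_congr fun x => ?_
          simp only [indicator_apply]
          split_ifs <;> simp
  refine (setLIntegral_mono' measurableSet_Ioi key).trans ?_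
  -- Tonelli
  have hms : MeasurableSet {r : ℝ × ℝ | ENNReal.ofReal r.1 < 2 * f r.2} :=
    measurableSet_lt (ENNReal.measurable_ofReal.comp measurable_fst)
      ((hf.comp measurable_snd).const_mul _)
  rw [lintegral_lintegral_swap]
  · rw [← lintegral_const_mul _ (hf.pow_const q)]
    refine lintegral_mono fun x => ?_
    have h1 : ∀ t ∈ Ioi (0:ℝ), {x | ENNReal.ofReal t < 2 * f x}.indicator
        (fun x => ENNReal.ofReal (4 * q * t ^ (q - 2)) * f x) x =
        ENNReal.ofReal (4 * (q / (q - 1))) * f x *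
          {t : ℝ | ENNReal.ofReal t < 2 * f x}.indicator (dens (q - 1)) t := by
      intro t ht
      rw [mem_Ioi] at ht
      simp only [indicator_apply, mem_ofPred_eq]
      split_ifs
      · unfold dens
        rw [mul_right_comm (ENNReal.ofReal (4 * (q / (q - 1)))), ← ENNReal.ofReal_mul (by positivity)]
        congr 2
        rw [show q - 1 - 1 = q - 2 by ring]
        field_simp
      · simp
    rw [setLIntegral_congr_fun measurableSet_Ioi h1, lintegral_const_mul _
      ((dens_meas _).indicator (measurableSet_lt ENNReal.measurable_ofReal measurable_const)),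
      rpow_eq hq1]
    apply le_of_eq
    rw [ENNReal.mul_rpow_of_nonneg _ _ hq1.le]
    have h2 : f x ^ q = f x * f x ^ (q - 1) := by
      rcases eq_or_ne (f x) 0 with h0 | h0
      · rw [h0, ENNReal.zero_rpow_of_pos hq0, zero_mul]
      · rcases eq_or_ne (f x) ∞ with ht | ht
        · rw [ht, ENNReal.top_rpow_of_pos hq0, ENNReal.top_rpow_of_pos hq1, ENNReal.top_mul_top]
        · conv_rhs => rw [← ENNReal.rpow_one (f x)]
          rw [← ENNReal.rpow_mul, ← ENNReal.rpow_add _ _ h0 ht]
          congr 1; ring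
    rw [h2]
    have h3 : ((Real.toNNReal (4 * (q / (q - 1)) * 2 ^ (q - 1)) : ℝ≥0) : ℝ≥0∞) =
        ENNReal.ofReal (4 * (q / (q - 1))) * 2 ^ (q - 1) := by
      rw [← ENNReal.ofReal, ENNReal.ofReal_mul (by positivity),
        ← ENNReal.ofReal_rpow_of_pos (by norm_num), ENNReal.ofReal_ofNat]
    rw [h3]
    ring
  · have h1 : (Function.uncurry fun (t : ℝ) (x : ℝ) => {x | ENNReal.ofReal t < 2 * f x}.indicator
        (fun x => ENNReal.ofReal (4 * q * t ^ (q - 2)) * f x) x) =
        {r : ℝ × ℝ | ENNReal.ofReal r.1 < 2 * f r.2}.indicator fun r =>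
          ENNReal.ofReal (4 * q * r.1 ^ (q - 2)) * f r.2 := by
      funext r
      simp only [Function.uncurry, indicator_apply, mem_ofPred_eq]
    rw [h1]
    refine (Measurable.indicator ?_ hms).aemeasurable
    refine Measurable.mul ?_ (hf.comp measurable_snd)
    exact ENNReal.measurable_ofReal.comp (measurable_const.mul (measurable_fst.pow_const _))

end Pool.Agent.P8H66.WT
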