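import Pool.Agent.P8H66.WT.B

/-! # Muckenhoupt's theorem for the maximal function -/

set_option autoImplicit false

open MeasureTheory Filter Topology Set
open scoped ENNReal NNReal

namespace Pool.Agent.P8H66.WT

/-- nondegenerate weights with an `A_p` bound -/
structure Ap (p : ℝ) (K : ℝ≥0) (w : ℝ → ℝ≥0∞) : Prop where
  meas : Measurable w
  ne0 : ∀ x, w x ≠ 0
  net : ∀ x, w x ≠ ∞
  bound : ∀ a b : ℝ, a < b → (∫⁻ x in Ioo a b, w x) *
    (∫⁻ x in Ioo a b, w x ^ (-1 / (p - 1))) ^ (p - 1) ≤ K * ENNReal.ofReal (b - a) ^ p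

variable {p : ℝ} {K : ℝ≥0} {w : ℝ → ℝ≥0∞}

/-- the dual weight -/
noncomputable def sg (p : ℝ) (w : ℝ → ℝ≥0∞) (x : ℝ) : ℝ≥0∞ := w x ^ (-1 / (p - 1))

lemma Ap.sg_meas (h : Ap p K w) : Measurable (sg p w) := h.meas.pow_const _

lemma Ap.sg_ne0 (h : Ap p K w) (x : ℝ) : sg p w x ≠ 0 := by
  unfold sg
  rw [Ne, ENNReal.rpow_eq_zero_iff]
  rintro (⟨h1, -⟩ | ⟨h1, -⟩)
  · exact h.ne0 x h1
  · exact h.net x h1

lemma Ap.sg_net (h : Ap p K w) (x : ℝ) : sg p w x ≠ ∞ := by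
  unfold sg
  rw [Ne, ENNReal.rpow_eq_top_iff]
  rintro (⟨h1, -⟩ | ⟨h1, -⟩)
  · exact h.ne0 x h1
  · exact h.net x h1

lemma lintegral_Ioo_pos {f : ℝ → ℝ≥0∞} (hf : Measurable f) (h0 : ∀ x, f x ≠ 0) {a b : ℝ}
    (hab : a < b) : ∫⁻ x in Ioo a b, f x ≠ 0 := by
  rw [Ne, lintegral_eq_zero_iff hf]
  intro h
  have h1 : volume (Ioo a b) = 0 := by
    have h2 : ∀ᵐ x ∂(volume.restrict (Ioo a b)), False := by
      filter_upwards [h] with x hx using h0 x hx
    rw [← Measure.restrict_apply_univ]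
    rw [ae_iff] at h2
    simpa using h2
  rw [Real.volume_Ioo, ENNReal.ofReal_eq_zero] at h1
  linarith

lemma Ap.w_lt (h : Ap p K w) (hp : 1 < p) (a b : ℝ) : ∫⁻ x in Ioo a b, w x < ∞ := by
  rcases lt_or_ge a b with hab | hab
  · rw [lt_top_iff_ne_top]
    intro ht
    have h1 := h.bound a b hab
    rw [ht, ENNReal.top_mul] at h1
    · have h2 : (K : ℝ≥0∞) * ENNReal.ofReal (b - a) ^ p < ∞ :=
        ENNReal.mul_lt_top ENNReal.coe_lt_top
          (ENNReal.rpow_lt_top_of_nonneg (by linarith) ENNReal.ofReal_ne_top)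
      exact absurd h1 (not_le.2 h2)
    · rw [Ne, ENNReal.rpow_eq_zero_iff]
      rintro (⟨h2, -⟩ | ⟨-, h2⟩)
      · exact lintegral_Ioo_pos h.sg_meas h.sg_ne0 hab h2
      · linarith
  · rw [Ioo_eq_empty (not_lt.2 hab)]; simp

lemma Ap.sg_lt (h : Ap p K w) (hp : 1 < p) (a b : ℝ) : ∫⁻ x in Ioo a b, sg p w x < ∞ := by
  rcases lt_or_ge a b with hab | hab
  · rw [lt_top_iff_ne_top]
    intro ht
    have h1 := h.bound a b hab
    have ht' : ∫⁻ x in Ioo a b, w x ^ (-1 / (p - 1)) = ∞ := ht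
    rw [ht', ENNReal.top_rpow_of_pos (by linarith), ENNReal.mul_top] at h1
    · have h2 : (K : ℝ≥0∞) * ENNReal.ofReal (b - a) ^ p < ∞ :=
        ENNReal.mul_lt_top ENNReal.coe_lt_top
          (ENNReal.rpow_lt_top_of_nonneg (by linarith) ENNReal.ofReal_ne_top)
      exact absurd h1 (not_le.2 h2)
    · exact lintegral_Ioo_pos h.meas h.ne0 hab
  · rw [Ioo_eq_empty (not_lt.2 hab)]; simp

lemma locFin {f : ℝ → ℝ≥0∞} (hf : ∀ a b : ℝ, ∫⁻ x in Ioo a b, f x < ∞) :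
    IsLocallyFiniteMeasure (volume.withDensity f) := by
  refine ⟨fun x => ⟨Ioo (x - 1) (x + 1), Ioo_mem_nhds (by linarith) (by linarith), ?_⟩⟩
  rw [withDensity_apply _ measurableSet_Ioo]
  exact hf _ _

lemma Ap.w_sg (h : Ap p K w) (hp : 1 < p) (x : ℝ) : sg p w x ^ (-p) * sg p w x = w x := by
  have h0 := h.ne0 x
  have ht := h.net x
  have hp1 : p - 1 ≠ 0 := by linarith
  unfold sg
  rw [← ENNReal.rpow_mul, ← ENNReal.rpow_add _ _ h0 ht]
  have : -1 / (p - 1) * -p + -1 / (p - 1) = 1 := by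
    field_simp
    ring
  rw [this, ENNReal.rpow_one]

lemma Ap.sg_w (h : Ap p K w) (hp : 1 < p) (x : ℝ) :
    (w x)⁻¹ ^ (p / (p - 1)) * w x = sg p w x := by
  have h0 := h.ne0 x
  have ht := h.net x
  have hp1 : p - 1 ≠ 0 := by linarith
  unfold sg
  rw [← ENNReal.rpow_neg_one, ← ENNReal.rpow_mul]
  nth_rewrite 2 [← ENNReal.rpow_one (w x)]
  rw [← ENNReal.rpow_add _ _ h0 ht]
  congr 1
  field_simp
  ring

/-- the pointwise bound of Lerner -/
lemma Ap.pointwise (h : Ap p K w) (hp : 1 < p) {f : ℝ → ℝ≥0∞} (hf : Measurable f) (x : ℝ) :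
    MM volume f x ^ (p - 1) ≤ K * MM (volume.withDensity w)
      (fun y => MM (volume.withDensity (sg p w)) (fun z => f z * (sg p w z)⁻¹) y ^ (p - 1) *
        (w y)⁻¹) x := by
  have hp1 : 0 < p - 1 := by linarith
  haveI := locFin (h.w_lt hp)
  haveI := locFin (h.sg_lt hp)
  set μ := volume.withDensity w with hμ
  set ν := volume.withDensity (sg p w) with hν
  set g : ℝ → ℝ≥0∞ := fun z => f z * (sg p w z)⁻¹ with hg
  set G := MM ν g with hG
  set R := K * MM μ (fun y => G y ^ (p - 1) * (w y)⁻¹) x with hR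
  have hGm : Measurable G := measurable_MM ν g
  suffices hs : MM volume f x ≤ R ^ (1 / (p - 1)) by
    calc MM volume f x ^ (p - 1) ≤ (R ^ (1 / (p - 1))) ^ (p - 1) :=
          ENNReal.rpow_le_rpow hs hp1.le
      _ = R := by
          rw [← ENNReal.rpow_mul, one_div, inv_mul_cancel₀ hp1.ne', ENNReal.rpow_one]
  unfold MM
  refine iSup_le fun a => iSup_le fun b => iSup_le fun ha => iSup_le fun hb => ?_
  have hab : a < b := ha.trans hb
  have hvol : volume (Ioo a b) = ENNReal.ofReal (b - a) := Real.volume_Ioo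
  set ℓ : ℝ≥0∞ := ENNReal.ofReal (b - a) with hℓ
  have hℓ0 : ℓ ≠ 0 := by
    rw [hℓ, Ne, ENNReal.ofReal_eq_zero]; linarith
  have hℓt : ℓ ≠ ∞ := ENNReal.ofReal_ne_top
  rw [hvol]
  have hμI : μ (Ioo a b) = ∫⁻ x in Ioo a b, w x := withDensity_apply _ measurableSet_Ioo
  have hνI : ν (Ioo a b) = ∫⁻ x in Ioo a b, sg p w x := withDensity_apply _ measurableSet_Ioo
  have hμ0 : μ (Ioo a b) ≠ 0 := by
    rw [hμI]; exact lintegral_Ioo_pos h.meas h.ne0 hab
  have hμt : μ (Ioo a b) ≠ ∞ := by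
    rw [hμI]; exact (h.w_lt hp a b).ne
  -- the integral with respect to the dual measure
  have hgm : Measurable g := hf.mul h.sg_meas.inv
  have hfg : ∫⁻ y in Ioo a b, g y ∂ν = ∫⁻ y in Ioo a b, f y := by
    rw [hν, setLIntegral_withDensity_eq_setLIntegral_mul _ h.sg_meas hgm measurableSet_Ioo]
    refine setLIntegral_congr_fun measurableSet_Ioo fun y _ => ?_
    simp only [Pi.mul_apply, hg]
    rw [mul_comm, mul_assoc, ENNReal.inv_mul_cancel (h.sg_ne0 y) (h.sg_net y), mul_one]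
  set A := ∫⁻ y in Ioo a b, f y with hA
  have h1 : ∀ y ∈ Ioo a b, μ (Ioo a b) * A ^ (p - 1) ≤ K * ℓ ^ p * G y ^ (p - 1) := by
    intro y hy
    have h2 : A ≤ ν (Ioo a b) * G y := by
      rw [← hfg]
      exact lintegral_le_MM hy.1 hy.2
    calc μ (Ioo a b) * A ^ (p - 1) ≤ μ (Ioo a b) * (ν (Ioo a b) * G y) ^ (p - 1) := by gcongr
      _ = (μ (Ioo a b) * ν (Ioo a b) ^ (p - 1)) * G y ^ (p - 1) := by
          rw [ENNReal.mul_rpow_of_nonneg _ _ hp1.le, mul_assoc]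
      _ ≤ _ := mul_le_mul' (by rw [hμI, hνI]; exact h.bound a b hab) le_rfl
  have h3 : μ (Ioo a b) * A ^ (p - 1) * ℓ ≤ K * ℓ ^ p * ∫⁻ y in Ioo a b, G y ^ (p - 1) := by
    calc μ (Ioo a b) * A ^ (p - 1) * ℓ = ∫⁻ y in Ioo a b, μ (Ioo a b) * A ^ (p - 1) := by
          rw [setLIntegral_const, hvol]
      _ ≤ ∫⁻ y in Ioo a b, K * ℓ ^ p * G y ^ (p - 1) :=
          setLIntegral_mono' measurableSet_Ioo h1
      _ = _ := by rw [lintegral_const_mul _ (hGm.pow_const _)]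
  have h4 : ∫⁻ y in Ioo a b, G y ^ (p - 1) ≤ μ (Ioo a b) *
      MM μ (fun y => G y ^ (p - 1) * (w y)⁻¹) x := by
    have h5 : ∫⁻ y in Ioo a b, G y ^ (p - 1) =
        ∫⁻ y in Ioo a b, G y ^ (p - 1) * (w y)⁻¹ ∂μ := by
      have hm : Measurable (fun y => G y ^ (p - 1) * (w y)⁻¹) :=
        (hGm.pow_const _).mul h.meas.inv
      rw [hμ, setLIntegral_withDensity_eq_setLIntegral_mul _ h.meas hm measurableSet_Ioo]
      refine setLIntegral_congr_fun measurableSet_Ioo fun y _ => ?_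
      simp only [Pi.mul_apply]
      rw [mul_comm, mul_assoc, ENNReal.inv_mul_cancel (h.ne0 y) (h.net y), mul_one]
    rw [h5]
    exact lintegral_le_MM ha hb
  have h6 : A ^ (p - 1) * ℓ ≤ ℓ ^ p * R := by
    have h7 : μ (Ioo a b) * (A ^ (p - 1) * ℓ) ≤ μ (Ioo a b) * (ℓ ^ p * R) := by
      calc μ (Ioo a b) * (A ^ (p - 1) * ℓ) = μ (Ioo a b) * A ^ (p - 1) * ℓ := by ring
        _ ≤ K * ℓ ^ p * (μ (Ioo a b) * MM μ (fun y => G y ^ (p - 1) * (w y)⁻¹) x) :=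
            h3.trans (by gcongr)
        _ = _ := by rw [hR]; ring
    exact (ENNReal.mul_le_mul_iff_right hμ0 hμt).1 h7
  have h8 : A ^ (p - 1) ≤ ℓ ^ (p - 1) * R := by
    have h9 : ℓ ^ p = ℓ ^ (p - 1) * ℓ := by
      nth_rewrite 3 [← ENNReal.rpow_one ℓ]
      rw [← ENNReal.rpow_add _ _ hℓ0 hℓt]
      congr 1; ring
    rw [h9] at h6
    have h10 : A ^ (p - 1) * ℓ ≤ ℓ ^ (p - 1) * R * ℓ := by
      refine h6.trans (le_of_eq ?_)
      ring
    exact (ENNReal.mul_le_mul_iff_left hℓ0 hℓt).1 h10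
  rw [ENNReal.div_le_iff hℓ0 hℓt]
  calc A = (A ^ (p - 1)) ^ (1 / (p - 1)) := by
        rw [← ENNReal.rpow_mul, mul_one_div_cancel hp1.ne', ENNReal.rpow_one]
    _ ≤ (ℓ ^ (p - 1) * R) ^ (1 / (p - 1)) := ENNReal.rpow_le_rpow h8 (by positivity)
    _ = R ^ (1 / (p - 1)) * ℓ := by
        rw [ENNReal.mul_rpow_of_nonneg _ _ (by positivity), ← ENNReal.rpow_mul,
          mul_one_div_cancel hp1.ne', ENNReal.rpow_one, mul_comm]

/-- **Muckenhoupt's theorem** -/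
theorem muckenhoupt (p : ℝ) (hp : 1 < p) (K : ℝ≥0) : ∃ C : ℝ≥0, ∀ w : ℝ → ℝ≥0∞, Ap p K w →
    ∀ f : ℝ → ℝ≥0∞, Measurable f →
      ∫⁻ x, MM volume f x ^ p * w x ≤ C * ∫⁻ x, f x ^ p * w x := by
  have hp1 : 0 < p - 1 := by linarith
  have hp0 : 0 < p := by linarith
  obtain ⟨C1, hC1⟩ := strong_MM (p / (p - 1)) (by rw [lt_div_iff₀ hp1]; linarith)
  obtain ⟨C2, hC2⟩ := strong_MM p hp
  refine ⟨K ^ (p / (p - 1)) * C1 * C2, fun w h f hf => ?_⟩
  haveI := locFin (h.w_lt hp)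
  haveI := locFin (h.sg_lt hp)
  set μ := volume.withDensity w with hμ
  set ν := volume.withDensity (sg p w) with hν
  set g : ℝ → ℝ≥0∞ := fun z => f z * (sg p w z)⁻¹ with hg
  set G := MM ν g with hG
  have hGm : Measurable G := measurable_MM ν g
  have hgm : Measurable g := hf.mul h.sg_meas.inv
  have hq : 0 ≤ p / (p - 1) := by positivity
  have e1 : ∀ F : ℝ → ℝ≥0∞, Measurable F → ∫⁻ x, F x ∂μ = ∫⁻ x, F x * w x := by
    intro F hF
    rw [hμ, lintegral_withDensity_eq_lintegral_mul _ h.meas hF]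
    refine lintegral_congr fun x => ?_
    simp only [Pi.mul_apply]
    rw [mul_comm]
  have e2 : ∀ F : ℝ → ℝ≥0∞, Measurable F → ∫⁻ x, F x ∂ν = ∫⁻ x, F x * sg p w x := by
    intro F hF
    rw [hν, lintegral_withDensity_eq_lintegral_mul _ h.sg_meas hF]
    refine lintegral_congr fun x => ?_
    simp only [Pi.mul_apply]
    rw [mul_comm]
  calc ∫⁻ x, MM volume f x ^ p * w x
      = ∫⁻ x, MM volume f x ^ p ∂μ := (e1 _ ((measurable_MM volume f).pow_const _)).symm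
    _ ≤ ∫⁻ x, (K : ℝ≥0∞) ^ (p / (p - 1)) *
          MM μ (fun y => G y ^ (p - 1) * (w y)⁻¹) x ^ (p / (p - 1)) ∂μ := by
        refine lintegral_mono fun x => ?_
        have h1 := ENNReal.rpow_le_rpow (h.pointwise hp hf x) hq
        rw [← ENNReal.rpow_mul, ENNReal.mul_rpow_of_nonneg _ _ hq,
          show (p - 1) * (p / (p - 1)) = p by field_simp] at h1
        exact h1
    _ = (K : ℝ≥0∞) ^ (p / (p - 1)) *
          ∫⁻ x, MM μ (fun y => G y ^ (p - 1) * (w y)⁻¹) x ^ (p / (p - 1)) ∂μ :=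
        lintegral_const_mul _ ((measurable_MM μ _).pow_const _)
    _ ≤ (K : ℝ≥0∞) ^ (p / (p - 1)) *
          (C1 * ∫⁻ x, (G x ^ (p - 1) * (w x)⁻¹) ^ (p / (p - 1)) ∂μ) := by
        gcongr
        exact hC1 μ _ ((hGm.pow_const _).mul h.meas.inv)
    _ = (K : ℝ≥0∞) ^ (p / (p - 1)) * (C1 * ∫⁻ x, G x ^ p ∂ν) := by
        congr 2
        have hm2 : Measurable (fun x => (G x ^ (p - 1) * (w x)⁻¹) ^ (p / (p - 1))) :=
          ((hGm.pow_const _).mul h.meas.inv).pow_const _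
        rw [e1 _ hm2, e2 _ (hGm.pow_const _)]
        refine lintegral_congr fun x => ?_
        rw [ENNReal.mul_rpow_of_nonneg _ _ hq, ← ENNReal.rpow_mul,
          show (p - 1) * (p / (p - 1)) = p by field_simp, mul_assoc, h.sg_w hp]
    _ ≤ (K : ℝ≥0∞) ^ (p / (p - 1)) * (C1 * (C2 * ∫⁻ x, g x ^ p ∂ν)) := by
        gcongr
        exact hC2 ν _ hgm
    _ = (K : ℝ≥0∞) ^ (p / (p - 1)) * (C1 * (C2 * ∫⁻ x, f x ^ p * w x)) := by
        congr 3
        rw [e2 _ (hgm.pow_const _)]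
        refine lintegral_congr fun x => ?_
        rw [hg]
        simp only
        rw [ENNReal.mul_rpow_of_nonneg _ _ hp0.le, ENNReal.inv_rpow, ← ENNReal.rpow_neg, mul_assoc,
          h.w_sg hp]
    _ = _ := by
        push_cast
        rw [ENNReal.coe_rpow_of_nonneg _ hq]
        ring

end Pool.Agent.P8H66.WT
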