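import Pool.Agent.P8H66.WT.C
import Pool.Agent.Helper458.Dav.P_upper
import Pool.Agent.Helper458.Dav.P_const_eq

/-! # Comparison of the kernels, and the maximal conjugate Poisson integral -/

set_option autoImplicit false

open MeasureTheory Filter Topology Set
open scoped ENNReal NNReal Real

namespace Pool.Agent.P8H66.WT

open Pool.Dav

/-- the conjugate Poisson kernel -/
noncomputable def kk (δ u : ℝ) : ℝ := π⁻¹ * (u / (u ^ 2 + δ ^ 2))

lemma kk_abs {δ : ℝ} (hδ : 0 < δ) (u : ℝ) : |kk δ u| ≤ π⁻¹ * (1 / (2 * δ)) := QQ_level_ker δ hδ u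

lemma kk_cont {δ : ℝ} (hδ : 0 < δ) : Continuous (kk δ) := by
  unfold kk
  apply continuous_const.mul
  apply Continuous.div (by fun_prop) (by fun_prop)
  intro t
  positivity

lemma ker1 {u v ℓ r : ℝ} (hr : 0 < r) (hℓ : 0 < ℓ) (huv : |u - v| ≤ ℓ) (hv : 2 * ℓ ≤ |v|) :
    |u / (u ^ 2 + r ^ 2) - v / (v ^ 2 + r ^ 2)| ≤ 2 * ℓ / v ^ 2 := by
  have hv0 : 0 < |v| := by linarith
  have hv2 : 0 < v ^ 2 := by rw [← sq_abs]; positivity
  have hu : |v| ≤ 2 * |u| := by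
    have h1 := abs_sub_abs_le_abs_sub v u
    rw [abs_sub_comm] at h1
    linarith
  have e : u / (u ^ 2 + r ^ 2) - v / (v ^ 2 + r ^ 2) =
      (u - v) * (r ^ 2 - u * v) / ((u ^ 2 + r ^ 2) * (v ^ 2 + r ^ 2)) := by
    field_simp
    ring
  rw [e, abs_div, abs_of_pos (show 0 < (u ^ 2 + r ^ 2) * (v ^ 2 + r ^ 2) by positivity),
    div_le_div_iff₀ (by positivity) hv2, abs_mul]
  have h1 : |r ^ 2 - u * v| ≤ r ^ 2 + |u| * |v| := by
    calc |r ^ 2 - u * v| ≤ |r ^ 2| + |u * v| := abs_sub _ _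
      _ = _ := by rw [abs_mul, abs_of_pos (by positivity : 0 < r ^ 2)]
  have h2 : (r ^ 2 + |u| * |v|) * v ^ 2 ≤ 2 * ((u ^ 2 + r ^ 2) * (v ^ 2 + r ^ 2)) := by
    have h3 : |u| * |v| * v ^ 2 ≤ 2 * u ^ 2 * v ^ 2 := by
      apply mul_le_mul_of_nonneg_right _ hv2.le
      calc |u| * |v| ≤ |u| * (2 * |u|) := by gcongr
        _ = 2 * u ^ 2 := by rw [← sq_abs u]; ring
    nlinarith [sq_nonneg (u * r), sq_nonneg (r * v), sq_nonneg (r ^ 2)]
  calc |u - v| * |r ^ 2 - u * v| * v ^ 2 ≤ ℓ * (r ^ 2 + |u| * |v|) * v ^ 2 := by gcongr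
    _ = ℓ * ((r ^ 2 + |u| * |v|) * v ^ 2) := by ring
    _ ≤ ℓ * (2 * ((u ^ 2 + r ^ 2) * (v ^ 2 + r ^ 2))) := by gcongr
    _ = _ := by ring

lemma ker2 {v ℓ r : ℝ} (hr : 0 < r) (hℓ : 0 < ℓ) (hv : 2 * ℓ ≤ |v|) :
    |v / (v ^ 2 + r ^ 2) - v / (v ^ 2 + (max r ℓ) ^ 2)| ≤ ℓ / v ^ 2 := by
  have hv0 : 0 < |v| := by linarith
  have hv2 : 0 < v ^ 2 := by rw [← sq_abs]; positivity
  rcases le_total ℓ r with h | h
  · rw [max_eq_left h, sub_self, abs_zero]
    positivity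
  · rw [max_eq_right h]
    have e : v / (v ^ 2 + r ^ 2) - v / (v ^ 2 + ℓ ^ 2) =
        v * (ℓ ^ 2 - r ^ 2) / ((v ^ 2 + r ^ 2) * (v ^ 2 + ℓ ^ 2)) := by
      field_simp
      ring
    rw [e, abs_div, abs_of_pos (show 0 < (v ^ 2 + r ^ 2) * (v ^ 2 + ℓ ^ 2) by positivity),
      div_le_div_iff₀ (by positivity) hv2, abs_mul, abs_of_nonneg (show 0 ≤ ℓ ^ 2 - r ^ 2 by nlinarith)]
    have h1 : |v| * (ℓ ^ 2 - r ^ 2) ≤ ℓ * v ^ 2 := by
      calc |v| * (ℓ ^ 2 - r ^ 2) ≤ |v| * ℓ ^ 2 := by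
            apply mul_le_mul_of_nonneg_left _ hv0.le
            nlinarith
        _ = ℓ * (|v| * ℓ) := by ring
        _ ≤ ℓ * (|v| * |v|) := by gcongr; linarith
        _ = ℓ * v ^ 2 := by rw [← sq_abs v]; ring
    calc |v| * (ℓ ^ 2 - r ^ 2) * v ^ 2 ≤ ℓ * v ^ 2 * v ^ 2 := by gcongr
      _ ≤ ℓ * ((v ^ 2 + r ^ 2) * (v ^ 2 + ℓ ^ 2)) := by
          rw [mul_assoc]
          gcongr <;> nlinarith

lemma ker_comp {u v ℓ r : ℝ} (hr : 0 < r) (hℓ : 0 < ℓ) (huv : |u - v| ≤ ℓ) (hv : 2 * ℓ ≤ |v|) :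
    |kk r u - kk (max r ℓ) v| ≤ ℓ / v ^ 2 := by
  have hv0 : 0 < |v| := by linarith
  have hv2 : 0 < v ^ 2 := by rw [← sq_abs]; positivity
  unfold kk
  rw [← mul_sub, abs_mul, abs_of_pos (inv_pos.2 Real.pi_pos)]
  have h1 : |u / (u ^ 2 + r ^ 2) - v / (v ^ 2 + (max r ℓ) ^ 2)| ≤ 3 * (ℓ / v ^ 2) := by
    calc _ ≤ |u / (u ^ 2 + r ^ 2) - v / (v ^ 2 + r ^ 2)| +
        |v / (v ^ 2 + r ^ 2) - v / (v ^ 2 + (max r ℓ) ^ 2)| := abs_sub_le _ _ _
      _ ≤ 2 * ℓ / v ^ 2 + ℓ / v ^ 2 := add_le_add (ker1 hr hℓ huv hv) (ker2 hr hℓ hv)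
      _ = _ := by ring
  have h2 : π⁻¹ * 3 ≤ 1 := by
    rw [inv_mul_le_iff₀ Real.pi_pos]
    linarith [Real.pi_gt_three]
  calc π⁻¹ * _ ≤ π⁻¹ * (3 * (ℓ / v ^ 2)) := by gcongr
    _ = (π⁻¹ * 3) * (ℓ / v ^ 2) := by ring
    _ ≤ 1 * (ℓ / v ^ 2) := by gcongr
    _ = _ := one_mul _

lemma lint_rpow {s c : ℝ} (hs : s < -1) (hc : 0 < c) :
    ∫⁻ t in Ioi c, ENNReal.ofReal (t ^ s) = ENNReal.ofReal (-c ^ (s + 1) / (s + 1)) := by
  rw [← ofReal_integral_eq_lintegral_ofReal (integrableOn_Ioi_rpow_of_lt hs hc),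
    integral_Ioi_rpow_of_lt hs hc]
  rw [EventuallyLE, ae_restrict_iff' measurableSet_Ioi]
  exact ae_of_all _ fun t ht => Real.rpow_nonneg (hc.trans ht).le _

lemma lint_inv3 {c : ℝ} (hc : 0 < c) :
    ∫⁻ t in Ioi c, ENNReal.ofReal (2 / t ^ 3) = ENNReal.ofReal (1 / c ^ 2) := by
  have h1 : ∀ t ∈ Ioi c, ENNReal.ofReal (2 / t ^ 3) = ENNReal.ofReal 2 * ENNReal.ofReal (t ^ (-3:ℝ)) := by
    intro t ht
    have ht0 : 0 < t := hc.trans ht
    rw [← ENNReal.ofReal_mul (by norm_num), Real.rpow_neg ht0.le]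
    norm_cast
  rw [setLIntegral_congr_fun measurableSet_Ioi h1, lintegral_const_mul _ (by fun_prop),
    lint_rpow (by norm_num) hc, ← ENNReal.ofReal_mul (by norm_num)]
  congr 1
  rw [show (-3 + 1 : ℝ) = -2 by norm_num, Real.rpow_neg hc.le]
  norm_cast
  field_simp
  norm_num

lemma lint_inv2 {c : ℝ} (hc : 0 < c) :
    ∫⁻ t in Ioi c, ENNReal.ofReal (4 / t ^ 2) = ENNReal.ofReal (4 / c) := by
  have h1 : ∀ t ∈ Ioi c, ENNReal.ofReal (4 / t ^ 2) = ENNReal.ofReal 4 * ENNReal.ofReal (t ^ (-2:ℝ)) := by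
    intro t ht
    have ht0 : 0 < t := hc.trans ht
    rw [← ENNReal.ofReal_mul (by norm_num), Real.rpow_neg ht0.le]
    norm_cast
  rw [setLIntegral_congr_fun measurableSet_Ioi h1, lintegral_const_mul _ (by fun_prop),
    lint_rpow (by norm_num) hc, ← ENNReal.ofReal_mul (by norm_num)]
  congr 1
  rw [show (-2 + 1 : ℝ) = -1 by norm_num, Real.rpow_neg_one]
  field_simp

/-- the far part -/
lemma far_tail {f : ℝ → ℝ≥0∞} (hf : Measurable f) {a ℓ ξ : ℝ} (hℓ : 0 < ℓ)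
    (hξ : ξ ∈ Ioo (a - 2 * ℓ) (a + 2 * ℓ)) :
    ∫⁻ y in (Ioo (a - 2 * ℓ) (a + 2 * ℓ))ᶜ, ENNReal.ofReal (ℓ / (a - y) ^ 2) * f y ≤
      2 * MM volume f ξ := by
  have hS : MeasurableSet (Ioo (a - 2 * ℓ) (a + 2 * ℓ))ᶜ := measurableSet_Ioo.compl
  have h1 : ∀ y ∈ (Ioo (a - 2 * ℓ) (a + 2 * ℓ))ᶜ, ENNReal.ofReal (ℓ / (a - y) ^ 2) * f y =
      ∫⁻ t in Ioi (2 * ℓ), {t : ℝ | |y - a| < t}.indicator
        (fun t => ENNReal.ofReal ℓ * ENNReal.ofReal (2 / t ^ 3) * f y) t := by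
    intro y hy
    have hya : 2 * ℓ ≤ |y - a| := by
      by_contra h
      push Not at h
      rw [abs_lt] at h
      exact hy ⟨by linarith [h.1], by linarith [h.2]⟩
    have hmS : MeasurableSet {t : ℝ | |y - a| < t} :=
      measurableSet_lt measurable_const measurable_id
    rw [setLIntegral_indicator hmS]
    have e : {t : ℝ | |y - a| < t} ∩ Ioi (2 * ℓ) = Ioi |y - a| := by
      ext t
      simp only [mem_inter_iff, mem_ofPred_eq, mem_Ioi]
      constructor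
      · exact fun h => h.1
      · exact fun h => ⟨h, lt_of_le_of_lt hya h⟩
    rw [e]
    have hm : Measurable fun t : ℝ => ENNReal.ofReal (2 / t ^ 3) := by fun_prop
    rw [lintegral_mul_const _ (hm.const_mul _), lintegral_const_mul _ hm,
      lint_inv3 (by linarith), ← ENNReal.ofReal_mul hℓ.le]
    congr 2
    rw [sq_abs]
    ring
  rw [setLIntegral_congr_fun hS h1]
  have hms : MeasurableSet {q : ℝ × ℝ | |q.1 - a| < q.2} :=
    measurableSet_lt (by fun_prop) measurable_snd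
  rw [lintegral_lintegral_swap]
  · have h2 : ∀ t ∈ Ioi (2 * ℓ), (∫⁻ y in (Ioo (a - 2 * ℓ) (a + 2 * ℓ))ᶜ,
        {t : ℝ | |y - a| < t}.indicator
        (fun t => ENNReal.ofReal ℓ * ENNReal.ofReal (2 / t ^ 3) * f y) t) ≤
        ENNReal.ofReal (4 / t ^ 2) * (ENNReal.ofReal ℓ * MM volume f ξ) := by
      intro t ht
      rw [mem_Ioi] at ht
      have ht0 : 0 < t := by linarith
      calc _ ≤ ∫⁻ y in (Ioo (a - 2 * ℓ) (a + 2 * ℓ))ᶜ, (Ioo (a - t) (a + t)).indicator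
              (fun y => ENNReal.ofReal ℓ * ENNReal.ofReal (2 / t ^ 3) * f y) y := by
            refine lintegral_mono fun y => ?_
            simp only [indicator_apply, mem_ofPred_eq, mem_Ioo]
            by_cases h : |y - a| < t
            · rw [if_pos h]
              rw [abs_lt] at h
              rw [if_pos ⟨by linarith [h.1], by linarith [h.2]⟩]
            · rw [if_neg h]
              exact zero_le
        _ ≤ ∫⁻ y, (Ioo (a - t) (a + t)).indicator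
              (fun y => ENNReal.ofReal ℓ * ENNReal.ofReal (2 / t ^ 3) * f y) y :=
            setLIntegral_le_lintegral _ _
        _ = ENNReal.ofReal ℓ * ENNReal.ofReal (2 / t ^ 3) * ∫⁻ y in Ioo (a - t) (a + t), f y := by
            rw [lintegral_indicator measurableSet_Ioo, lintegral_const_mul _ hf]
        _ ≤ ENNReal.ofReal ℓ * ENNReal.ofReal (2 / t ^ 3) * (ENNReal.ofReal (2 * t) *
              MM volume f ξ) := by
            gcongr
            have h3 := lintegral_le_MM (μ := volume) (f := f) (a := a - t) (b := a + t) (x := ξ)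
              (by linarith [hξ.1]) (by linarith [hξ.2])
            rw [Real.volume_Ioo, show a + t - (a - t) = 2 * t by ring] at h3
            exact h3
        _ = _ := by
            rw [show ENNReal.ofReal (4 / t ^ 2) =
              ENNReal.ofReal (2 / t ^ 3) * ENNReal.ofReal (2 * t) by
                rw [← ENNReal.ofReal_mul (by positivity)]
                congr 1
                field_simp
                ring]
            ring
    refine (setLIntegral_mono' measurableSet_Ioi h2).trans ?_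
    have hm : Measurable fun t : ℝ => ENNReal.ofReal (4 / t ^ 2) := by fun_prop
    rw [lintegral_mul_const _ hm, lint_inv2 (by linarith), ← mul_assoc,
      ← ENNReal.ofReal_mul (by positivity)]
    apply le_of_eq
    congr 1
    rw [← ENNReal.ofReal_ofNat 2]
    congr 1
    field_simp
    norm_num
  · have e : (Function.uncurry fun (y t : ℝ) => {t : ℝ | |y - a| < t}.indicator
        (fun t => ENNReal.ofReal ℓ * ENNReal.ofReal (2 / t ^ 3) * f y) t) =
        {q : ℝ × ℝ | |q.1 - a| < q.2}.indicator fun q =>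
          ENNReal.ofReal ℓ * ENNReal.ofReal (2 / q.2 ^ 3) * f q.1 := by
      funext q
      simp only [Function.uncurry, indicator_apply, mem_ofPred_eq]
    rw [e]
    refine (Measurable.indicator ?_ hms).aemeasurable
    have hm : Measurable fun t : ℝ => ENNReal.ofReal (2 / t ^ 3) := by fun_prop
    exact ((hm.comp measurable_snd).const_mul _).mul (hf.comp measurable_fst)

end Pool.Agent.P8H66.WT
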