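import Pool.Agent.P8H66.WT.D

/-! # The maximal conjugate Poisson integral: local comparison and weak type (1,1) -/

set_option autoImplicit false

open MeasureTheory Filter Topology Set
open scoped ENNReal NNReal Real

namespace Pool.Agent.P8H66.WT

open Pool.Dav

lemma QQ_kk (f : ℝ → ℂ) (δ x : ℝ) : QQ f δ x = ∫ t : ℝ, ((kk δ (x - t) : ℝ) : ℂ) * f t := rfl

lemma QQ_int {f : ℝ → ℂ} (hf : Integrable f) {δ : ℝ} (hδ : 0 < δ) (x : ℝ) :
    Integrable (fun t : ℝ => ((kk δ (x - t) : ℝ) : ℂ) * f t) := by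
  refine hf.bdd_mul (c := π⁻¹ * (1 / (2 * δ))) ?_ ?_
  · exact (Complex.continuous_ofReal.comp ((kk_cont hδ).comp (by fun_prop))).aestronglyMeasurable
  · refine Eventually.of_forall fun t => ?_
    rw [Complex.norm_real, Real.norm_eq_abs]
    exact kk_abs hδ _

lemma QQ_le_of {f : ℝ → ℂ} {δ x : ℝ} {c : ℝ} {S : Set ℝ} (hS : MeasurableSet S)
    (hk : ∀ t ∈ S, |kk δ (x - t)| ≤ c) :
    ‖QQ (S.indicator f) δ x‖ₑ ≤ ENNReal.ofReal c * ∫⁻ t in S, ‖f t‖ₑ := by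
  rw [QQ_kk]
  refine (enorm_integral_le_lintegral_enorm _).trans ?_
  have h1 : ∀ t, ‖((kk δ (x - t) : ℝ) : ℂ) * S.indicator f t‖ₑ ≤
      ENNReal.ofReal c * S.indicator (fun t => ‖f t‖ₑ) t := by
    intro t
    by_cases ht : t ∈ S
    · rw [indicator_of_mem ht, indicator_of_mem ht, enorm_mul]
      gcongr
      rw [← ofReal_norm, Complex.norm_real, Real.norm_eq_abs]
      exact ENNReal.ofReal_le_ofReal (hk t ht)
    · rw [indicator_of_notMem ht, indicator_of_notMem ht]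
      simp
  refine (lintegral_mono h1).trans ?_
  rw [lintegral_const_mul' _ _ ENNReal.ofReal_ne_top, lintegral_indicator hS]

lemma QQ_split {f : ℝ → ℂ} (hf : Integrable f) {δ : ℝ} (hδ : 0 < δ) (x : ℝ) {S : Set ℝ}
    (hS : MeasurableSet S) : QQ f δ x = QQ (S.indicator f) δ x + QQ (Sᶜ.indicator f) δ x := by
  rw [QQ_kk, QQ_kk, QQ_kk, ← integral_add (QQ_int (hf.indicator hS) hδ x)
    (QQ_int (hf.indicator hS.compl) hδ x)]
  congr 1
  funext t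
  rw [← mul_add]
  congr 1
  exact (congrFun (indicator_self_add_compl S f) t).symm

lemma QQ_far {f : ℝ → ℂ} (hfm : Measurable f) (hf : Integrable f) {a x ξ ℓ r : ℝ} (hr : 0 < r)
    (hℓ : 0 < ℓ) (hx : |x - a| ≤ ℓ) (hξ : ξ ∈ Ioo (a - 2 * ℓ) (a + 2 * ℓ)) :
    ‖QQ ((Ioo (a - 2 * ℓ) (a + 2 * ℓ))ᶜ.indicator f) r x -
      QQ ((Ioo (a - 2 * ℓ) (a + 2 * ℓ))ᶜ.indicator f) (max r ℓ) a‖ₑ ≤
      2 * MM volume (fun y => ‖f y‖ₑ) ξ := by
  have hs : 0 < max r ℓ := lt_max_of_lt_left hr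
  set S := (Ioo (a - 2 * ℓ) (a + 2 * ℓ))ᶜ with hSdef
  have hS : MeasurableSet S := measurableSet_Ioo.compl
  rw [QQ_kk, QQ_kk, ← integral_sub (QQ_int (hf.indicator hS) hr x)
    (QQ_int (hf.indicator hS) hs a)]
  refine (enorm_integral_le_lintegral_enorm _).trans ?_
  refine le_trans ?_ (far_tail hfm.enorm hℓ hξ)
  rw [← lintegral_indicator hS]
  refine lintegral_mono fun t => ?_
  by_cases ht : t ∈ S
  · rw [indicator_of_mem ht, indicator_of_mem ht, ← sub_mul, enorm_mul]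
    gcongr
    rw [← ofReal_norm, ← Complex.ofReal_sub, Complex.norm_real, Real.norm_eq_abs]
    apply ENNReal.ofReal_le_ofReal
    apply ker_comp hr hℓ
    · rw [show x - t - (a - t) = x - a by ring]; exact hx
    · by_contra h
      push Not at h
      rw [abs_lt] at h
      exact ht ⟨by linarith [h.2], by linarith [h.1]⟩
  · rw [indicator_of_notMem ht, indicator_of_notMem ht]
    simp

lemma QQ_near {f : ℝ → ℂ} {a ξ ℓ s : ℝ}
    (hℓ : 0 < ℓ) (hs : ℓ ≤ s) (hξ : ξ ∈ Ioo (a - 2 * ℓ) (a + 2 * ℓ)) :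
    ‖QQ ((Ioo (a - 2 * ℓ) (a + 2 * ℓ)).indicator f) s a‖ₑ ≤
      MM volume (fun y => ‖f y‖ₑ) ξ := by
  have hs0 : 0 < s := lt_of_lt_of_le hℓ hs
  have h1 := QQ_le_of (f := f) (δ := s) (x := a) (c := π⁻¹ * (1 / (2 * s)))
    (S := Ioo (a - 2 * ℓ) (a + 2 * ℓ)) measurableSet_Ioo (fun t _ => kk_abs hs0 _)
  refine h1.trans ?_
  have h2 := lintegral_le_MM (μ := volume) (f := fun y => ‖f y‖ₑ) hξ.1 hξ.2
  rw [Real.volume_Ioo, show a + 2 * ℓ - (a - 2 * ℓ) = 4 * ℓ by ring] at h2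
  calc _ ≤ ENNReal.ofReal (π⁻¹ * (1 / (2 * s))) * (ENNReal.ofReal (4 * ℓ) *
        MM volume (fun y => ‖f y‖ₑ) ξ) := by gcongr
    _ = ENNReal.ofReal (π⁻¹ * (1 / (2 * s)) * (4 * ℓ)) * MM volume (fun y => ‖f y‖ₑ) ξ := by
        rw [← mul_assoc, ENNReal.ofReal_mul (p := π⁻¹ * (1 / (2 * s))) (by positivity)]
    _ ≤ 1 * MM volume (fun y => ‖f y‖ₑ) ξ := by
        gcongr
        rw [← ENNReal.ofReal_one]
        apply ENNReal.ofReal_le_ofReal
        have h3 : (1 / (2 * s)) * (4 * ℓ) ≤ 2 := by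
          rw [div_mul_eq_mul_div, div_le_iff₀ (by positivity)]
          linarith
        calc π⁻¹ * (1 / (2 * s)) * (4 * ℓ) = π⁻¹ * ((1 / (2 * s)) * (4 * ℓ)) := by ring
          _ ≤ π⁻¹ * 2 := by gcongr
          _ ≤ 1 := by
              rw [inv_mul_le_iff₀ Real.pi_pos]
              linarith [Real.pi_gt_three]
    _ = _ := one_mul _

/-- local comparison, first form -/
lemma comp1 {f : ℝ → ℂ} (hfm : Measurable f) (hf : Integrable f) {a x ξ ℓ r : ℝ} (hr : 0 < r)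
    (hℓ : 0 < ℓ) (hx : |x - a| ≤ ℓ) (hξ : ξ ∈ Ioo (a - 2 * ℓ) (a + 2 * ℓ)) :
    ‖QQ f r x‖ₑ ≤ ‖QQ ((Ioo (a - 2 * ℓ) (a + 2 * ℓ)).indicator f) r x‖ₑ +
      ‖QQ f (max r ℓ) a‖ₑ + 3 * MM volume (fun y => ‖f y‖ₑ) ξ := by
  have hs : 0 < max r ℓ := lt_max_of_lt_left hr
  have h1 := QQ_far hfm hf hr hℓ hx hξ
  have h2 := QQ_near (f := f) hℓ (le_max_right r ℓ) hξ
  set S := Ioo (a - 2 * ℓ) (a + 2 * ℓ) with hSdef
  have hS : MeasurableSet S := measurableSet_Ioo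
  have e1 := QQ_split hf hr x hS
  have e2 := QQ_split hf hs a hS
  have e3 : QQ f r x = QQ (S.indicator f) r x + QQ f (max r ℓ) a +
      ((QQ (Sᶜ.indicator f) r x - QQ (Sᶜ.indicator f) (max r ℓ) a) -
        QQ (S.indicator f) (max r ℓ) a) := by
    rw [e1, e2]; ring
  rw [e3]
  refine (enorm_add_le _ _).trans ?_
  refine add_le_add (enorm_add_le _ _) ?_
  refine (enorm_sub_le).trans ?_
  refine (add_le_add h1 h2).trans (le_of_eq ?_)
  ring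

/-- local comparison, second form -/
lemma comp2 {f : ℝ → ℂ} (hfm : Measurable f) (hf : Integrable f) {a x ξ ℓ r : ℝ} (hr : 0 < r)
    (hℓ : 0 < ℓ) (hx : |x - a| ≤ ℓ) (hξ : ξ ∈ Ioo (a - 2 * ℓ) (a + 2 * ℓ)) :
    ‖QQ f (max r ℓ) a‖ₑ ≤ ‖QQ ((Ioo (a - 2 * ℓ) (a + 2 * ℓ)).indicator f) r x‖ₑ +
      ‖QQ f r x‖ₑ + 3 * MM volume (fun y => ‖f y‖ₑ) ξ := by
  have hs : 0 < max r ℓ := lt_max_of_lt_left hr
  have h1 := QQ_far hfm hf hr hℓ hx hξ
  have h2 := QQ_near (f := f) hℓ (le_max_right r ℓ) hξ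
  set S := Ioo (a - 2 * ℓ) (a + 2 * ℓ) with hSdef
  have hS : MeasurableSet S := measurableSet_Ioo
  have e1 := QQ_split hf hr x hS
  have e2 := QQ_split hf hs a hS
  have e3 : QQ f (max r ℓ) a = (QQ f r x - QQ (S.indicator f) r x) -
      ((QQ (Sᶜ.indicator f) r x - QQ (Sᶜ.indicator f) (max r ℓ) a) -
        QQ (S.indicator f) (max r ℓ) a) := by
    rw [e1, e2]; ring
  rw [e3]
  refine (enorm_sub_le).trans ?_
  refine add_le_add ?_ ?_
  · refine (enorm_sub_le).trans (le_of_eq (add_comm _ _))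
  refine (enorm_sub_le).trans ?_
  refine (add_le_add h1 h2).trans (le_of_eq ?_)
  ring

lemma ofReal_integral_norm {f : ℝ → ℂ} (hf : Integrable f) :
    ENNReal.ofReal (∫ x, ‖f x‖) = ∫⁻ x, ‖f x‖ₑ :=
  ofReal_integral_norm_eq_lintegral_enorm hf

/-- the weak constant -/
noncomputable def C0 : ℝ := 1 / U0

lemma C0_pos : 0 < C0 := one_div_pos.2 const_eq.1

lemma QQ_weak {f : ℝ → ℂ} (hf : Integrable f) {δ : ℝ} (hδ : 0 < δ) {l : ℝ} (hl : 0 < l) :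
    ENNReal.ofReal l * volume {x : ℝ | ENNReal.ofReal l < ‖QQ f δ x‖ₑ} ≤
      ENNReal.ofReal C0 * ∫⁻ x, ‖f x‖ₑ := by
  have hlamC : (l : ℂ) ≠ 0 := by exact_mod_cast hl.ne'
  set g : ℝ → ℂ := fun y => f y * (l : ℂ)⁻¹ with hg
  have hgi : Integrable g := hf.mul_const _
  have hQg : ∀ x, QQ g δ x = QQ f δ x * (l : ℂ)⁻¹ := by
    intro x
    rw [QQ_kk, QQ_kk, ← integral_mul_const]
    congr 1
    funext t
    rw [hg]
    ring
  have h1 := QQ_level g hgi δ hδ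
  have h2 : {x : ℝ | 1 < ‖QQ g δ x‖} = {x : ℝ | ENNReal.ofReal l < ‖QQ f δ x‖ₑ} := by
    ext x
    rw [mem_ofPred_eq, mem_ofPred_eq, hQg, norm_mul, norm_inv, Complex.norm_real,
      Real.norm_eq_abs, abs_of_pos hl, ← ofReal_norm,
      ENNReal.ofReal_lt_ofReal_iff_of_nonneg hl.le, ← div_eq_mul_inv, one_lt_div hl]
  have h3 : ∫⁻ x, ‖g x‖ₑ = (ENNReal.ofReal l)⁻¹ * ∫⁻ x, ‖f x‖ₑ := by
    rw [← lintegral_const_mul' _ _ (by
      rw [Ne, ENNReal.inv_eq_top, ENNReal.ofReal_eq_zero]; linarith)]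
    refine lintegral_congr fun x => ?_
    rw [hg]
    simp only
    rw [enorm_mul, mul_comm, enorm_inv hlamC, ← ofReal_norm (l : ℂ), Complex.norm_real,
      Real.norm_eq_abs, abs_of_pos hl]
  rw [h2, ofReal_integral_norm hgi, h3] at h1
  have hl0 : ENNReal.ofReal l ≠ 0 := by
    rw [Ne, ENNReal.ofReal_eq_zero]; linarith
  have hU : ENNReal.ofReal U0 ≠ 0 := by
    rw [Ne, ENNReal.ofReal_eq_zero, not_le]; exact const_eq.1
  have hC : ENNReal.ofReal C0 = (ENNReal.ofReal U0)⁻¹ := by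
    unfold C0
    rw [one_div, ENNReal.ofReal_inv_of_pos const_eq.1]
  rw [hC]
  set v := volume {x : ℝ | ENNReal.ofReal l < ‖QQ f δ x‖ₑ}
  calc ENNReal.ofReal l * v
      = (ENNReal.ofReal U0)⁻¹ * (ENNReal.ofReal l * (ENNReal.ofReal U0 * v)) := by
        rw [mul_left_comm (ENNReal.ofReal l), ← mul_assoc (ENNReal.ofReal U0)⁻¹,
          ENNReal.inv_mul_cancel hU ENNReal.ofReal_ne_top, one_mul]
    _ ≤ (ENNReal.ofReal U0)⁻¹ * (ENNReal.ofReal l *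
          ((ENNReal.ofReal l)⁻¹ * ∫⁻ x, ‖f x‖ₑ)) := by gcongr
    _ = _ := by
        rw [← mul_assoc (ENNReal.ofReal l), ENNReal.mul_inv_cancel hl0 ENNReal.ofReal_ne_top,
          one_mul]

/-- the maximal conjugate Poisson integral -/
noncomputable def Hs (f : ℝ → ℂ) (x : ℝ) : ℝ≥0∞ := ⨆ (δ : ℝ) (_ : 0 < δ), ‖QQ f δ x‖ₑ

lemma le_Hs (f : ℝ → ℂ) {δ : ℝ} (hδ : 0 < δ) (x : ℝ) : ‖QQ f δ x‖ₑ ≤ Hs f x :=
  le_iSup_of_le δ (le_iSup_of_le hδ le_rfl)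

lemma QQ_cont {f : ℝ → ℂ} (hf : Integrable f) {δ : ℝ} (hδ : 0 < δ) :
    Continuous (fun x => QQ f δ x) := by
  unfold QQ
  refine continuous_of_dominated (bound := fun t => π⁻¹ * (1 / (2 * δ)) * ‖f t‖) ?_ ?_ ?_ ?_
  · intro x
    exact (QQ_int hf hδ x).1
  · intro x
    refine Eventually.of_forall fun t => ?_
    rw [norm_mul, Complex.norm_real, Real.norm_eq_abs]
    gcongr
    exact kk_abs hδ _
  · exact hf.norm.const_mul _
  · refine Eventually.of_forall fun t => ?_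
    refine Continuous.mul ?_ continuous_const
    exact Complex.continuous_ofReal.comp ((kk_cont hδ).comp (by fun_prop))

lemma isOpen_Hs {f : ℝ → ℂ} (hf : Integrable f) (l : ℝ≥0∞) : IsOpen {x | l < Hs f x} := by
  have e : {x | l < Hs f x} = ⋃ (δ : ℝ) (_ : 0 < δ), {x | l < ‖QQ f δ x‖ₑ} := by
    ext x
    simp only [mem_ofPred_eq, mem_iUnion, Hs, lt_iSup_iff]
  rw [e]
  refine isOpen_iUnion fun δ => isOpen_iUnion fun hδ => ?_
  exact isOpen_lt continuous_const (QQ_cont hf hδ).enorm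

lemma measurable_Hs {f : ℝ → ℂ} (hf : Integrable f) : Measurable (Hs f) :=
  measurable_of_Ioi fun l => (isOpen_Hs hf l).measurableSet

end Pool.Agent.P8H66.WT
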