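import Pool.Agent.P8H66.WT.E

/-! # Weak type (1,1) of the maximal conjugate Poisson integral -/

set_option autoImplicit false

open MeasureTheory Filter Topology Set
open scoped ENNReal NNReal Real

namespace Pool.Agent.P8H66.WT

open Pool.Dav

/-- the constant in the weak type bound -/
noncomputable def C1 : ℝ := 3 * (6 * C0 + 2 * (4 * C0 + 3))

lemma C1_pos : 0 < C1 := by
  have := C0_pos
  unfold C1
  positivity

lemma Hs_step {f : ℝ → ℂ} (hfm : Measurable f) (hf : Integrable f) {δ : ℝ} (hδ : 0 < δ)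
    {l : ℝ} (hl : 0 < l) {g : ℝ} (hg : 0 < g) (hg1 : 3 * g ≤ 1) (hg2 : 4 * C0 * g ≤ 1)
    {a s : ℝ} (hs : δ ≤ s) (ha : ENNReal.ofReal (3 * l) < ‖QQ f s a‖ₑ)
    (hM : MM volume (fun y => ‖f y‖ₑ) a ≤ ENNReal.ofReal (g * l)) :
    3⁻¹ < MM volume ({x : ℝ | ENNReal.ofReal l < ‖QQ f δ x‖ₑ}.indicator fun _ => (1 : ℝ≥0∞)) a := by
  have hs0 : 0 < s := lt_of_lt_of_le hδ hs
  set E := {x : ℝ | ENNReal.ofReal l < ‖QQ f δ x‖ₑ} with hE
  have hEm : MeasurableSet E := (isOpen_lt continuous_const (QQ_cont hf hδ).enorm).measurableSet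
  set S := Ioo (a - 2 * s) (a + 2 * s) with hS
  have haS : a ∈ S := ⟨by linarith, by linarith⟩
  set E' := {x : ℝ | ENNReal.ofReal l < ‖QQ (S.indicator f) δ x‖ₑ} with hE'
  have hsub : Ioo (a - s) (a + s) ⊆ (E ∩ Ioo (a - s) (a + s)) ∪ E' := by
    intro x hx
    have hxa : |x - a| ≤ s := by
      rw [abs_le]; constructor <;> linarith [hx.1, hx.2]
    have h1 := comp2 hfm hf hδ hs0 hxa haS
    rw [max_eq_right hs] at h1
    by_contra hcon
    rw [mem_union, not_or] at hcon
    have h2 : ‖QQ f δ x‖ₑ ≤ ENNReal.ofReal l := by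
      by_contra h
      push Not at h
      exact hcon.1 ⟨h, hx⟩
    have h3 : ‖QQ (S.indicator f) δ x‖ₑ ≤ ENNReal.ofReal l := by
      by_contra h
      push Not at h
      exact hcon.2 h
    have h4 : ‖QQ f s a‖ₑ ≤ ENNReal.ofReal (3 * l) := by
      calc ‖QQ f s a‖ₑ ≤ _ := h1
        _ ≤ ENNReal.ofReal l + ENNReal.ofReal l + 3 * ENNReal.ofReal (g * l) := by gcongr
        _ = ENNReal.ofReal (l + l + 3 * (g * l)) := by
            rw [ENNReal.ofReal_add (by positivity) (by positivity),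
              ENNReal.ofReal_add hl.le hl.le, ENNReal.ofReal_mul (p := 3) (by norm_num),
              ENNReal.ofReal_ofNat]
        _ ≤ _ := by
            apply ENNReal.ofReal_le_ofReal
            nlinarith
    exact absurd ha (not_lt.2 h4)
  have hE'v : volume E' ≤ ENNReal.ofReal s := by
    have h1 := QQ_weak (hf.indicator (measurableSet_Ioo (a := a - 2 * s) (b := a + 2 * s))) hδ hl
    have h2 : ∫⁻ x, ‖S.indicator f x‖ₑ ≤ ENNReal.ofReal (4 * s * (g * l)) := by
      calc ∫⁻ x, ‖S.indicator f x‖ₑ = ∫⁻ x in S, ‖f x‖ₑ := by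
            rw [← lintegral_indicator measurableSet_Ioo]
            refine lintegral_congr fun x => ?_
            rw [enorm_indicator_eq_indicator_enorm]
        _ ≤ volume S * MM volume (fun y => ‖f y‖ₑ) a := lintegral_le_MM haS.1 haS.2
        _ ≤ ENNReal.ofReal (4 * s) * ENNReal.ofReal (g * l) := by
            rw [hS, Real.volume_Ioo, show a + 2 * s - (a - 2 * s) = 4 * s by ring]
            gcongr
        _ = _ := by rw [← ENNReal.ofReal_mul (by positivity)]
    have h3 : ENNReal.ofReal l * volume E' ≤ ENNReal.ofReal l * ENNReal.ofReal s := by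
      calc ENNReal.ofReal l * volume E' ≤ ENNReal.ofReal C0 * ∫⁻ x, ‖S.indicator f x‖ₑ := h1
        _ ≤ ENNReal.ofReal C0 * ENNReal.ofReal (4 * s * (g * l)) := by gcongr
        _ = ENNReal.ofReal (C0 * (4 * s * (g * l))) := by rw [← ENNReal.ofReal_mul C0_pos.le]
        _ ≤ ENNReal.ofReal (l * s) := by
            apply ENNReal.ofReal_le_ofReal
            have : 0 < l * s := by positivity
            nlinarith
        _ = _ := by rw [← ENNReal.ofReal_mul hl.le]
    have hl0 : ENNReal.ofReal l ≠ 0 := by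
      rw [Ne, ENNReal.ofReal_eq_zero]; linarith
    exact (ENNReal.mul_le_mul_iff_right hl0 ENNReal.ofReal_ne_top).1 h3
  have hv : ENNReal.ofReal s ≤ volume (E ∩ Ioo (a - s) (a + s)) := by
    have h1 : volume (Ioo (a - s) (a + s)) ≤ volume (E ∩ Ioo (a - s) (a + s)) + ENNReal.ofReal s :=
      (measure_mono hsub).trans ((measure_union_le _ _).trans (by gcongr))
    rw [Real.volume_Ioo, show a + s - (a - s) = s + s by ring, ENNReal.ofReal_add hs0.le hs0.le] at h1
    exact (ENNReal.add_le_add_iff_right ENNReal.ofReal_ne_top).1 h1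
  refine lt_of_lt_of_le ?_ (le_MM (μ := volume) (a := a - s) (b := a + s) (by linarith) (by linarith))
  rw [Real.volume_Ioo, show a + s - (a - s) = 2 * s by ring]
  have h5 : ∫⁻ y in Ioo (a - s) (a + s), E.indicator (fun _ => (1 : ℝ≥0∞)) y =
      volume (E ∩ Ioo (a - s) (a + s)) := by
    rw [lintegral_indicator hEm, Measure.restrict_restrict hEm]
    simp
  rw [h5]
  have h2s : ENNReal.ofReal (2 * s) ≠ 0 := by
    rw [Ne, ENNReal.ofReal_eq_zero]; linarith
  rw [ENNReal.lt_div_iff_mul_lt (Or.inl h2s) (Or.inl ENNReal.ofReal_ne_top)]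
  refine lt_of_lt_of_le ?_ hv
  rw [show (3:ℝ≥0∞)⁻¹ = ENNReal.ofReal (1 / 3) by
    rw [ENNReal.ofReal_div_of_pos (by norm_num)]; simp, ← ENNReal.ofReal_mul (by norm_num)]
  rw [ENNReal.ofReal_lt_ofReal_iff hs0]
  linarith

/-- **weak type (1,1)** of the maximal operator -/
theorem Hs_weak {f : ℝ → ℂ} (hfm : Measurable f) (hf : Integrable f) {l : ℝ} (hl : 0 < l) :
    ENNReal.ofReal l * volume {x : ℝ | ENNReal.ofReal l < Hs f x} ≤
      ENNReal.ofReal C1 * ∫⁻ x, ‖f x‖ₑ := by
  -- replace `l` by `3 l`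
  suffices H : ∀ l : ℝ, 0 < l → ENNReal.ofReal (3 * l) *
      volume {x : ℝ | ENNReal.ofReal (3 * l) < Hs f x} ≤ ENNReal.ofReal C1 * ∫⁻ x, ‖f x‖ₑ by
    have h1 := H (l / 3) (by positivity)
    rwa [mul_div_cancel₀ l (by norm_num : (3:ℝ) ≠ 0)] at h1
  intro l hl
  have hC0 := C0_pos
  set g : ℝ := 1 / (4 * C0 + 3) with hg
  have hg0 : 0 < g := by positivity
  have hg1 : 3 * g ≤ 1 := by
    rw [hg, mul_one_div, div_le_one (by positivity)]; linarith
  have hg2 : 4 * C0 * g ≤ 1 := by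
    rw [hg, mul_one_div, div_le_one (by positivity)]; linarith
  set F := ∫⁻ x, ‖f x‖ₑ with hF
  have hlE : ENNReal.ofReal l ≠ 0 := by
    rw [Ne, ENNReal.ofReal_eq_zero]; linarith
  have hgE : ENNReal.ofReal g ≠ 0 := by
    rw [Ne, ENNReal.ofReal_eq_zero]; linarith
  -- the sets
  set T : ℕ → Set ℝ := fun n => {x : ℝ | ∃ s : ℝ, 1 / ((n:ℝ) + 1) ≤ s ∧
    ENNReal.ofReal (3 * l) < ‖QQ f s x‖ₑ} with hT
  have hTU : {x : ℝ | ENNReal.ofReal (3 * l) < Hs f x} = ⋃ n, T n := by
    ext x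
    simp only [mem_ofPred_eq, Hs, lt_iSup_iff, mem_iUnion, hT]
    constructor
    · rintro ⟨s, hs, h⟩
      obtain ⟨n, hn⟩ := exists_nat_one_div_lt hs
      exact ⟨n, s, hn.le, h⟩
    · rintro ⟨n, s, hs, h⟩
      exact ⟨s, lt_of_lt_of_le (by positivity) hs, h⟩
  have hTm : Monotone T := by
    intro m n hmn x hx
    obtain ⟨s, hs, h⟩ := hx
    refine ⟨s, le_trans ?_ hs, h⟩
    have : (m:ℝ) ≤ n := by exact_mod_cast hmn
    gcongr
  rw [hTU, hTm.measure_iUnion, ENNReal.mul_iSup]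
  refine iSup_le fun n => ?_
  set δ : ℝ := 1 / ((n:ℝ) + 1) with hδ
  have hδ0 : 0 < δ := by positivity
  set E := {x : ℝ | ENNReal.ofReal l < ‖QQ f δ x‖ₑ} with hE
  have hEm : MeasurableSet E := (isOpen_lt continuous_const (QQ_cont hf hδ0).enorm).measurableSet
  have hsub : T n ⊆ {x | ENNReal.ofReal (g * l) < MM volume (fun y => ‖f y‖ₑ) x} ∪
      {x | 3⁻¹ < MM volume (E.indicator fun _ => (1 : ℝ≥0∞)) x} := by
    intro x hx
    obtain ⟨s, hs, h⟩ := hx
    by_cases hM : ENNReal.ofReal (g * l) < MM volume (fun y => ‖f y‖ₑ) x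
    · exact Or.inl hM
    · exact Or.inr (Hs_step hfm hf hδ0 hl hg0 hg1 hg2 hs h (not_lt.1 hM))
  have h1 := weak_MM volume hfm.enorm (ENNReal.ofReal (g * l))
  have h2 := weak_MM volume ((measurable_const (a := (1:ℝ≥0∞))).indicator hEm) 3⁻¹
  have h3 := QQ_weak hf hδ0 hl
  rw [lintegral_indicator hEm] at h2
  simp only [lintegral_const, MeasurableSet.univ, Measure.restrict_apply, univ_inter, one_mul] at h2
  set A := volume {x | ENNReal.ofReal (g * l) < MM volume (fun y => ‖f y‖ₑ) x} with hA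
  set B := volume {x | 3⁻¹ < MM volume (E.indicator fun _ => (1 : ℝ≥0∞)) x} with hB
  have h4 : ENNReal.ofReal l * A ≤ ENNReal.ofReal (2 * (4 * C0 + 3)) * F := by
    have h5 : ENNReal.ofReal g * (ENNReal.ofReal l * A) ≤
        ENNReal.ofReal g * (ENNReal.ofReal (2 * (4 * C0 + 3)) * F) := by
      calc ENNReal.ofReal g * (ENNReal.ofReal l * A) = ENNReal.ofReal (g * l) * A := by
            rw [ENNReal.ofReal_mul hg0.le, mul_assoc]
        _ ≤ 2 * F := h1
        _ = _ := by
            rw [← mul_assoc, ← ENNReal.ofReal_mul hg0.le]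
            congr 1
            rw [← ENNReal.ofReal_ofNat 2]
            congr 1
            rw [hg]
            field_simp
    exact (ENNReal.mul_le_mul_iff_right hgE ENNReal.ofReal_ne_top).1 h5
  have h6 : B ≤ 6 * volume E := by
    have h7 : 3 * (3⁻¹ * B) ≤ 3 * (2 * volume E) := by gcongr
    rw [← mul_assoc, ENNReal.mul_inv_cancel (by norm_num) (by norm_num), one_mul, ← mul_assoc] at h7
    norm_num at h7
    exact h7
  have h8 : ENNReal.ofReal l * B ≤ ENNReal.ofReal (6 * C0) * F := by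
    calc ENNReal.ofReal l * B ≤ ENNReal.ofReal l * (6 * volume E) := by gcongr
      _ = 6 * (ENNReal.ofReal l * volume E) := by ring
      _ ≤ 6 * (ENNReal.ofReal C0 * F) := by gcongr
      _ = _ := by
          rw [ENNReal.ofReal_mul (by norm_num), ENNReal.ofReal_ofNat, mul_assoc]
  calc ENNReal.ofReal (3 * l) * volume (T n)
      ≤ ENNReal.ofReal (3 * l) * (A + B) := by
        gcongr
        exact (measure_mono hsub).trans (measure_union_le _ _)
    _ = 3 * (ENNReal.ofReal l * B + ENNReal.ofReal l * A) := by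
        rw [ENNReal.ofReal_mul (by norm_num), ENNReal.ofReal_ofNat]
        ring
    _ ≤ 3 * (ENNReal.ofReal (6 * C0) * F + ENNReal.ofReal (2 * (4 * C0 + 3)) * F) := by gcongr
    _ = _ := by
        unfold C1
        rw [ENNReal.ofReal_mul (p := 3) (by norm_num), ENNReal.ofReal_ofNat,
          ENNReal.ofReal_add (by positivity) (by positivity)]
        ring

end Pool.Agent.P8H66.WT
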