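import Pool.Agent.P8H66.WT.F

/-! # The good-lambda inequality -/

set_option autoImplicit false

open MeasureTheory Filter Topology Set
open scoped ENNReal NNReal Real

namespace Pool.Agent.P8H66.WT

open Pool.Dav

lemma good_local {f : ℝ → ℂ} (hfm : Measurable f) (hf : Integrable f) {l β g a b : ℝ} (hl : 0 < l)
    (hβ : 0 < β) (hg : 0 < g) (hgβ : 6 * g ≤ β) (hab : a < b)
    (ha : ¬ ENNReal.ofReal l < Hs f a) :
    volume {x | x ∈ Ioo a b ∧ ENNReal.ofReal ((1 + β) * l) < Hs f x ∧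
      MM volume (fun y => ‖f y‖ₑ) x ≤ ENNReal.ofReal (g * l)} ≤
      ENNReal.ofReal (8 * C1 * g * (b - a) / β) := by
  rcases eq_empty_or_nonempty {x | x ∈ Ioo a b ∧ ENNReal.ofReal ((1 + β) * l) < Hs f x ∧
      MM volume (fun y => ‖f y‖ₑ) x ≤ ENNReal.ofReal (g * l)} with he | ⟨ξ, hξI, -, hξM⟩
  · rw [he]; simp
  have hC1 := C1_pos
  set ℓ := b - a with hℓdef
  have hℓ : 0 < ℓ := by linarith
  set S := Ioo (a - 2 * ℓ) (a + 2 * ℓ) with hS
  have hξS : ξ ∈ S := ⟨by linarith [hξI.1], by linarith [hξI.2]⟩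
  have hsub : {x | x ∈ Ioo a b ∧ ENNReal.ofReal ((1 + β) * l) < Hs f x ∧
      MM volume (fun y => ‖f y‖ₑ) x ≤ ENNReal.ofReal (g * l)} ⊆
      {x | ENNReal.ofReal (β / 2 * l) < Hs (S.indicator f) x} := by
    rintro x ⟨hxI, hx, -⟩
    rw [mem_ofPred_eq]
    by_contra hcon
    rw [not_lt] at hcon ha
    have h1 : Hs f x ≤ ENNReal.ofReal ((1 + β) * l) := by
      unfold Hs
      refine iSup_le fun r => iSup_le fun hr => ?_
      have hxa : |x - a| ≤ ℓ := by
        rw [abs_le]; constructor <;> linarith [hxI.1, hxI.2]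
      refine (comp1 hfm hf hr hℓ hxa hξS).trans ?_
      calc _ ≤ ENNReal.ofReal (β / 2 * l) + ENNReal.ofReal l + 3 * ENNReal.ofReal (g * l) := by
            gcongr
            · exact (le_Hs _ hr x).trans hcon
            · exact (le_Hs _ (lt_max_of_lt_left hr) a).trans ha
        _ = ENNReal.ofReal (β / 2 * l + l + 3 * (g * l)) := by
            rw [ENNReal.ofReal_add (by positivity) (by positivity),
              ENNReal.ofReal_add (by positivity) hl.le, ENNReal.ofReal_mul (p := 3) (by norm_num),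
              ENNReal.ofReal_ofNat]
        _ ≤ _ := by
            apply ENNReal.ofReal_le_ofReal
            nlinarith
    exact absurd hx (not_lt.2 h1)
  refine (measure_mono hsub).trans ?_
  have hSm : MeasurableSet S := measurableSet_Ioo
  have h1 := Hs_weak (hfm.indicator hSm) (hf.indicator hSm) (l := β / 2 * l) (by positivity)
  have h2 : ∫⁻ x, ‖S.indicator f x‖ₑ ≤ ENNReal.ofReal (4 * ℓ * (g * l)) := by
    calc ∫⁻ x, ‖S.indicator f x‖ₑ = ∫⁻ x in S, ‖f x‖ₑ := by
          rw [← lintegral_indicator measurableSet_Ioo]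
          refine lintegral_congr fun x => ?_
          rw [enorm_indicator_eq_indicator_enorm]
      _ ≤ volume S * MM volume (fun y => ‖f y‖ₑ) ξ := lintegral_le_MM hξS.1 hξS.2
      _ ≤ ENNReal.ofReal (4 * ℓ) * ENNReal.ofReal (g * l) := by
          rw [hS, Real.volume_Ioo, show a + 2 * ℓ - (a - 2 * ℓ) = 4 * ℓ by ring]
          gcongr
      _ = _ := by rw [← ENNReal.ofReal_mul (by positivity)]
  set V := volume {x | ENNReal.ofReal (β / 2 * l) < Hs (S.indicator f) x} with hV
  have h3 : ENNReal.ofReal (β / 2 * l) * V ≤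
      ENNReal.ofReal (β / 2 * l) * ENNReal.ofReal (8 * C1 * g * ℓ / β) := by
    calc ENNReal.ofReal (β / 2 * l) * V ≤ ENNReal.ofReal C1 * ∫⁻ x, ‖S.indicator f x‖ₑ := h1
      _ ≤ ENNReal.ofReal C1 * ENNReal.ofReal (4 * ℓ * (g * l)) := by gcongr
      _ = ENNReal.ofReal (C1 * (4 * ℓ * (g * l))) := by rw [← ENNReal.ofReal_mul hC1.le]
      _ = _ := by
          rw [← ENNReal.ofReal_mul (by positivity)]
          congr 1
          field_simp
          ring
  have hl0 : ENNReal.ofReal (β / 2 * l) ≠ 0 := by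
    rw [Ne, ENNReal.ofReal_eq_zero, not_le]; positivity
  exact (ENNReal.mul_le_mul_iff_right hl0 ENNReal.ofReal_ne_top).1 h3

lemma open_eq_Ioo {C : Set ℝ} (ho : IsOpen C) (hc : IsConnected C) (hb : BddBelow C)
    (ha : BddAbove C) : C = Ioo (sInf C) (sSup C) := by
  apply subset_antisymm
  · intro y hy
    obtain ⟨ε, hε, hball⟩ := Metric.isOpen_iff.1 ho y hy
    have h1 : y - ε / 2 ∈ C := hball (by
      rw [Metric.mem_ball, Real.dist_eq, abs_lt]; constructor <;> linarith)
    have h2 : y + ε / 2 ∈ C := hball (by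
      rw [Metric.mem_ball, Real.dist_eq, abs_lt]; constructor <;> linarith)
    exact ⟨by linarith [csInf_le hb h1], by linarith [le_csSup ha h2]⟩
  · exact hc.Ioo_csInf_csSup_subset hb ha

/-- summing over the components of an open set -/
lemma comp_sum {Ω : Set ℝ} (hΩ : IsOpen Ω) (hv : volume Ω ≠ ∞) (μ : Measure ℝ) {E : Set ℝ}
    {η : ℝ≥0∞}
    (h : ∀ a b : ℝ, a < b → a ∉ Ω → Ioo a b ⊆ Ω → μ (E ∩ Ioo a b) ≤ η * μ (Ioo a b)) :
    μ (E ∩ Ω) ≤ η * μ Ω := by
  classical
  set 𝒞 : Set (Set ℝ) := (fun x => connectedComponentIn Ω x) '' Ω with h𝒞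
  have hopen : ∀ C ∈ 𝒞, IsOpen C := by
    rintro _ ⟨x, -, rfl⟩
    exact hΩ.connectedComponentIn
  have hconn : ∀ C ∈ 𝒞, IsConnected C := by
    rintro _ ⟨x, hx, rfl⟩
    exact isConnected_connectedComponentIn_iff.2 hx
  have hsub : ∀ C ∈ 𝒞, C ⊆ Ω := by
    rintro _ ⟨x, hx, rfl⟩
    exact connectedComponentIn_subset Ω x
  have heq : ∀ C ∈ 𝒞, ∀ y ∈ C, C = connectedComponentIn Ω y := by
    rintro _ ⟨x, hx, rfl⟩ y hy
    exact connectedComponentIn_eq hy
  have hdisj : 𝒞.PairwiseDisjoint id := by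
    intro C hC D hD hCD
    rw [Function.onFun, id, id, Set.disjoint_left]
    intro y hyC hyD
    exact hCD ((heq C hC y hyC).trans (heq D hD y hyD).symm)
  have hcount : 𝒞.Countable :=
    hdisj.countable_of_isOpen (fun C hC => hopen C hC) (fun C hC => (hconn C hC).nonempty)
  have hU : Ω = ⋃ C ∈ 𝒞, C := by
    apply subset_antisymm
    · intro x hx
      exact mem_biUnion ⟨x, hx, rfl⟩ (mem_connectedComponentIn hx)
    · exact iUnion₂_subset hsub
  have hkey : ∀ C ∈ 𝒞, μ (E ∩ C) ≤ η * μ C := by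
    intro C hC
    have hord : C.OrdConnected := (hconn C hC).isPreconnected.ordConnected
    obtain ⟨x, hx⟩ := (hconn C hC).nonempty
    have hvC : volume C ≠ ∞ := ((measure_mono (hsub C hC)).trans_lt hv.lt_top).ne
    have hab : BddAbove C := by
      by_contra hcon
      rw [not_bddAbove_iff] at hcon
      have h1 : Ici x ⊆ C := by
        intro y hy
        obtain ⟨z, hz, hyz⟩ := hcon y
        exact hord.out hx hz ⟨hy, hyz.le⟩
      exact hvC (top_le_iff.1 (Real.volume_Ici.symm.le.trans (measure_mono h1)))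
    have hbb : BddBelow C := by
      by_contra hcon
      rw [not_bddBelow_iff] at hcon
      have h1 : Iic x ⊆ C := by
        intro y hy
        obtain ⟨z, hz, hyz⟩ := hcon y
        exact hord.out hz hx ⟨hyz.le, hy⟩
      exact hvC (top_le_iff.1 (Real.volume_Iic.symm.le.trans (measure_mono h1)))
    have e := open_eq_Ioo (hopen C hC) (hconn C hC) hbb hab
    have hnotin : sInf C ∉ Ω := by
      intro hin
      obtain ⟨ε, hε, hball⟩ := Metric.isOpen_iff.1 hΩ _ hin
      obtain ⟨c, hc, hcε⟩ := exists_lt_of_csInf_lt (hconn C hC).nonempty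
        (show sInf C < sInf C + ε by linarith)
      have hcb : c ∈ Metric.ball (sInf C) ε := by
        rw [Metric.mem_ball, Real.dist_eq, abs_lt]
        constructor <;> linarith [csInf_le hbb hc]
      have hpre : IsPreconnected (Metric.ball (sInf C) ε ∪ C) :=
        IsPreconnected.union c hcb hc (Metric.isPreconnected_ball) (hconn C hC).isPreconnected
      have h1 : Metric.ball (sInf C) ε ∪ C ⊆ connectedComponentIn Ω c :=
        hpre.subset_connectedComponentIn (Or.inl hcb) (union_subset hball (hsub C hC))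
      rw [← heq C hC c hc] at h1
      have h2 : sInf C - ε / 2 ∈ C := h1 (Or.inl (by
        rw [Metric.mem_ball, Real.dist_eq, abs_lt]; constructor <;> linarith))
      linarith [csInf_le hbb h2]
    have hlt : sInf C < sSup C := by
      rw [e] at hx
      exact hx.1.trans hx.2
    have h1 := h (sInf C) (sSup C) hlt hnotin (by rw [← e]; exact hsub C hC)
    rwa [← e] at h1
  calc μ (E ∩ Ω) = μ (⋃ C ∈ 𝒞, E ∩ C) := by
        rw [← inter_iUnion₂, ← hU]
    _ ≤ ∑' C : 𝒞, μ (E ∩ C) := measure_biUnion_le μ hcount _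
    _ ≤ ∑' C : 𝒞, η * μ C := ENNReal.tsum_le_tsum fun C => hkey C C.2
    _ = η * ∑' C : 𝒞, μ C := ENNReal.tsum_mul_left
    _ = η * μ Ω := by
        congr 1
        conv_rhs => rw [hU]
        exact (measure_biUnion hcount hdisj (fun C hC => (hopen C hC).measurableSet)).symm

/-- the defect in the `A_∞` property -/
noncomputable def ee (p : ℝ) (K : ℝ≥0) : ℝ := 1 / (2 ^ p * (K + 1))

lemma ee_pos (p : ℝ) (K : ℝ≥0) : 0 < ee p K := by unfold ee; positivity

lemma ee_lt {p : ℝ} (hp : 1 < p) (K : ℝ≥0) : ee p K < 1 := by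
  unfold ee
  rw [div_lt_one (by positivity)]
  have h1 : (2:ℝ) ≤ 2 ^ p := by
    conv_lhs => rw [← Real.rpow_one 2]
    exact Real.rpow_le_rpow_of_exponent_le (by norm_num) hp.le
  have h2 : (1:ℝ) ≤ K + 1 := by
    have := K.coe_nonneg
    linarith
  nlinarith

lemma Ap.small {p : ℝ} {K : ℝ≥0} {w : ℝ → ℝ≥0∞} (h : Ap p K w) (hp : 1 < p) {a b : ℝ} (hab : a < b)
    {E : Set ℝ} (hE : MeasurableSet E) (hv : volume (E ∩ Ioo a b) ≤ ENNReal.ofReal ((b - a) / 2)) :
    volume.withDensity w (E ∩ Ioo a b) ≤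
      ENNReal.ofReal (1 - ee p K) * volume.withDensity w (Ioo a b) := by
  have hp1 : 0 < p - 1 := by linarith
  have hp0 : 0 < p := by linarith
  set μ := volume.withDensity w with hμ
  set F := Ioo a b \ E with hF
  have hFm : MeasurableSet F := measurableSet_Ioo.diff hE
  have hsplit : μ (Ioo a b ∩ E) + μ F = μ (Ioo a b) := measure_inter_add_sdiff _ hE
  have hvsplit : volume (Ioo a b ∩ E) + volume F = volume (Ioo a b) := measure_inter_add_sdiff _ hE
  rw [inter_comm] at hsplit hvsplit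
  have hvF : ENNReal.ofReal ((b - a) / 2) ≤ volume F := by
    have h1 : ENNReal.ofReal ((b - a) / 2) + ENNReal.ofReal ((b - a) / 2) ≤
        ENNReal.ofReal ((b - a) / 2) + volume F := by
      rw [← ENNReal.ofReal_add (by linarith) (by linarith), add_halves, ← Real.volume_Ioo,
        ← hvsplit]
      gcongr
    exact (ENNReal.add_le_add_iff_left ENNReal.ofReal_ne_top).1 h1
  -- Hoelder
  have hconj : p.HolderConjugate (p / (p - 1)) := Real.HolderConjugate.conjExponent hp
  have h2 := ENNReal.lintegral_mul_le_Lp_mul_Lq (volume.restrict F) hconj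
    (f := fun x => w x ^ (1 / p)) (g := fun x => w x ^ (-(1 / p)))
    (h.meas.pow_const _).aemeasurable (h.meas.pow_const _).aemeasurable
  have e1 : ∀ x, ((fun x => w x ^ (1 / p)) * fun x => w x ^ (-(1 / p))) x = 1 := by
    intro x
    simp only [Pi.mul_apply]
    rw [← ENNReal.rpow_add _ _ (h.ne0 x) (h.net x), add_neg_cancel, ENNReal.rpow_zero]
  have e2 : ∀ x, (w x ^ (1 / p)) ^ p = w x := by
    intro x
    rw [← ENNReal.rpow_mul, one_div_mul_cancel hp0.ne', ENNReal.rpow_one]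
  have e3 : ∀ x, (w x ^ (-(1 / p))) ^ (p / (p - 1)) = sg p w x := by
    intro x
    unfold sg
    rw [← ENNReal.rpow_mul]
    congr 1
    field_simp
  simp_rw [e1, e2, e3] at h2
  rw [setLIntegral_one] at h2
  have hwF : ∫⁻ x in F, w x = μ F := (withDensity_apply _ hFm).symm
  rw [hwF] at h2
  set s := ∫⁻ x in Ioo a b, sg p w x with hs
  have h3 : ∫⁻ x in F, sg p w x ≤ s := lintegral_mono_set sdiff_subset
  have h4 : volume F ^ p ≤ μ F * s ^ (p - 1) := by
    calc volume F ^ p ≤ (μ F ^ (1 / p) * s ^ (1 / (p / (p - 1)))) ^ p := by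
          refine ENNReal.rpow_le_rpow (h2.trans ?_) hp0.le
          gcongr
      _ = μ F * s ^ (p - 1) := by
          rw [ENNReal.mul_rpow_of_nonneg _ _ hp0.le, ← ENNReal.rpow_mul, ← ENNReal.rpow_mul,
            one_div_mul_cancel hp0.ne', ENNReal.rpow_one]
          congr 2
          field_simp
  have hℓp : ENNReal.ofReal (b - a) ^ p = ENNReal.ofReal (2 ^ p) * ENNReal.ofReal ((b - a) / 2) ^ p := by
    rw [← ENNReal.ofReal_rpow_of_pos (by norm_num), ← ENNReal.mul_rpow_of_nonneg _ _ hp0.le,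
      ← ENNReal.ofReal_mul (by norm_num)]
    congr 2
    ring
  have h5 : μ (Ioo a b) * ENNReal.ofReal ((b - a) / 2) ^ p ≤
      (K * ENNReal.ofReal (2 ^ p) * μ F) * ENNReal.ofReal ((b - a) / 2) ^ p := by
    calc μ (Ioo a b) * ENNReal.ofReal ((b - a) / 2) ^ p ≤ μ (Ioo a b) * volume F ^ p := by
          gcongr
      _ ≤ μ (Ioo a b) * (μ F * s ^ (p - 1)) := by gcongr
      _ = (μ (Ioo a b) * s ^ (p - 1)) * μ F := by ring
      _ ≤ (K * ENNReal.ofReal (b - a) ^ p) * μ F := by
          refine mul_le_mul' ?_ le_rfl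
          rw [hμ, withDensity_apply _ measurableSet_Ioo]
          exact h.bound a b hab
      _ = _ := by rw [hℓp]; ring
  have hℓ0 : ENNReal.ofReal ((b - a) / 2) ^ p ≠ 0 := by
    rw [Ne, ENNReal.rpow_eq_zero_iff]
    rintro (⟨h6, -⟩ | ⟨h6, -⟩)
    · rw [ENNReal.ofReal_eq_zero] at h6
      linarith
    · exact ENNReal.ofReal_ne_top h6
  have hℓt : ENNReal.ofReal ((b - a) / 2) ^ p ≠ ∞ :=
    ENNReal.rpow_ne_top_of_nonneg hp0.le ENNReal.ofReal_ne_top
  have h6 : μ (Ioo a b) ≤ K * ENNReal.ofReal (2 ^ p) * μ F :=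
    (ENNReal.mul_le_mul_iff_left hℓ0 hℓt).1 h5
  have h7 : ENNReal.ofReal (ee p K) * μ (Ioo a b) ≤ μ F := by
    calc ENNReal.ofReal (ee p K) * μ (Ioo a b)
        ≤ ENNReal.ofReal (ee p K) * (K * ENNReal.ofReal (2 ^ p) * μ F) := by gcongr
      _ = ENNReal.ofReal (ee p K * (K * 2 ^ p)) * μ F := by
          rw [← mul_assoc, ENNReal.ofReal_mul (ee_pos p K).le, ENNReal.ofReal_mul K.coe_nonneg,
            ENNReal.ofReal_coe_nnreal]
      _ ≤ 1 * μ F := by
          gcongr
          rw [← ENNReal.ofReal_one]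
          apply ENNReal.ofReal_le_ofReal
          unfold ee
          rw [one_div_mul_eq_div, div_le_one (by positivity)]
          have : (0:ℝ) < 2 ^ p := by positivity
          nlinarith
      _ = μ F := one_mul _
  have hμt : μ (Ioo a b) ≠ ∞ := by
    rw [hμ, withDensity_apply _ measurableSet_Ioo]
    exact (h.w_lt hp a b).ne
  have hee := ee_lt hp K
  have h8 : μ (E ∩ Ioo a b) + ENNReal.ofReal (ee p K) * μ (Ioo a b) ≤
      ENNReal.ofReal (1 - ee p K) * μ (Ioo a b) + ENNReal.ofReal (ee p K) * μ (Ioo a b) := by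
    calc _ ≤ μ (E ∩ Ioo a b) + μ F := by gcongr
      _ = μ (Ioo a b) := hsplit
      _ = _ := by
          rw [← add_mul, ← ENNReal.ofReal_add (by linarith) (ee_pos p K).le, sub_add_cancel,
            ENNReal.ofReal_one, one_mul]
  exact (ENNReal.add_le_add_iff_right (ENNReal.mul_ne_top ENNReal.ofReal_ne_top hμt)).1 h8

end Pool.Agent.P8H66.WT
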