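import Pool.Agent.P8H66.WT.G

/-! # The Hunt-Muckenhoupt-Wheeden inequality -/

set_option autoImplicit false

open MeasureTheory Filter Topology Set
open scoped ENNReal NNReal Real

namespace Pool.Agent.P8H66.WT

open Pool.Dav

/-- the constant in the good-lambda inequality -/
noncomputable def gg (β : ℝ) : ℝ := β / (16 * C1 + 6)

lemma gg_pos {β : ℝ} (hβ : 0 < β) : 0 < gg β := by
  have := C1_pos
  unfold gg
  positivity

lemma good_dist {p : ℝ} {K : ℝ≥0} {w : ℝ → ℝ≥0∞} (h : Ap p K w) (hp : 1 < p) {f : ℝ → ℂ}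
    (hfm : Measurable f) (hf : Integrable f) {t β : ℝ} (ht : 0 < t) (hβ : 0 < β) :
    volume.withDensity w {x | ENNReal.ofReal ((1 + β) * t) < Hs f x} ≤
      ENNReal.ofReal (1 - ee p K) * volume.withDensity w {x | ENNReal.ofReal t < Hs f x} +
      volume.withDensity w {x | ENNReal.ofReal (gg β * t) < MM volume (fun y => ‖f y‖ₑ) x} := by
  have hC1 := C1_pos
  set μ := volume.withDensity w with hμ
  set M := MM volume (fun y => ‖f y‖ₑ) with hM
  have hMm : Measurable M := measurable_MM _ _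
  set E := {x | ENNReal.ofReal ((1 + β) * t) < Hs f x ∧ M x ≤ ENNReal.ofReal (gg β * t)} with hE
  have hEm : MeasurableSet E :=
    (measurableSet_lt measurable_const (measurable_Hs hf)).inter
      (measurableSet_le hMm measurable_const)
  set Ω := {x | ENNReal.ofReal t < Hs f x} with hΩ
  have hΩo : IsOpen Ω := isOpen_Hs hf _
  have htE : ENNReal.ofReal t ≠ 0 := by
    rw [Ne, ENNReal.ofReal_eq_zero]; linarith
  have hΩv : volume Ω ≠ ∞ := by
    intro htop
    have h1 := Hs_weak hfm hf ht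
    have h2 : volume {x : ℝ | ENNReal.ofReal t < Hs f x} = ∞ := htop
    rw [h2, ENNReal.mul_top htE] at h1
    have h3 : ENNReal.ofReal C1 * ∫⁻ x, ‖f x‖ₑ < ∞ :=
      ENNReal.mul_lt_top ENNReal.ofReal_lt_top hf.hasFiniteIntegral
    exact absurd h1 (not_le.2 h3)
  have hEΩ : E ⊆ Ω := by
    rintro x ⟨hx, -⟩
    refine lt_of_le_of_lt ?_ hx
    apply ENNReal.ofReal_le_ofReal
    nlinarith
  have hcomp : μ (E ∩ Ω) ≤ ENNReal.ofReal (1 - ee p K) * μ Ω := by
    refine comp_sum hΩo hΩv μ fun a b hab ha _ => ?_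
    refine h.small hp hab hEm ?_
    have h1 := good_local hfm hf ht hβ (gg_pos hβ) (by
      unfold gg
      rw [mul_div_assoc', div_le_iff₀ (by positivity)]
      nlinarith) hab ha
    refine le_trans (measure_mono ?_) (h1.trans ?_)
    · rintro x ⟨hxE, hxI⟩
      exact ⟨hxI, hxE.1, hxE.2⟩
    · apply ENNReal.ofReal_le_ofReal
      unfold gg
      rw [div_le_div_iff₀ hβ (by norm_num)]
      have hba : 0 < b - a := by linarith
      have e : 8 * C1 * (β / (16 * C1 + 6)) * (b - a) * 2 =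
          (16 * C1 / (16 * C1 + 6)) * ((b - a) * β) := by
        field_simp
        ring
      rw [e]
      have h2 : 16 * C1 / (16 * C1 + 6) ≤ 1 := by
        rw [div_le_one (by positivity)]; linarith
      have h3 : 0 < (b - a) * β := by positivity
      nlinarith
  have hsub : {x | ENNReal.ofReal ((1 + β) * t) < Hs f x} ⊆
      (E ∩ Ω) ∪ {x | ENNReal.ofReal (gg β * t) < M x} := by
    intro x hx
    by_cases hMx : ENNReal.ofReal (gg β * t) < M x
    · exact Or.inr hMx
    · have hxE : x ∈ E := ⟨hx, not_lt.1 hMx⟩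
      exact Or.inl ⟨hxE, hEΩ hxE⟩
  calc _ ≤ μ (E ∩ Ω) + μ {x | ENNReal.ofReal (gg β * t) < M x} :=
        (measure_mono hsub).trans (measure_union_le _ _)
    _ ≤ _ := by gcongr

/-- far from the support -/
lemma Hs_far {f : ℝ → ℂ} {R : ℝ} (hR : 0 < R) (hs : ∀ x, R < |x| → f x = 0)
    {x : ℝ} (hx : 2 * R < |x|) : Hs f x ≤ 3 * MM volume (fun y => ‖f y‖ₑ) x := by
  unfold Hs
  refine iSup_le fun δ => iSup_le fun hδ => ?_
  have hx0 : 0 < |x| := by linarith
  set S := Ioo (x - 2 * |x|) (x + 2 * |x|) with hS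
  have hfS : S.indicator f = f := by
    funext y
    by_cases hy : y ∈ S
    · rw [indicator_of_mem hy]
    · rw [indicator_of_notMem hy]
      refine (hs y ?_).symm
      by_contra hcon
      push Not at hcon
      apply hy
      rw [abs_le] at hcon
      constructor
      · linarith [le_abs_self x, hcon.1]
      · linarith [neg_abs_le x, hcon.2]
  set S' := Icc (-R) R with hS'
  have hfS' : S'.indicator f = f := by
    funext y
    by_cases hy : y ∈ S'
    · rw [indicator_of_mem hy]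
    · rw [indicator_of_notMem hy]
      refine (hs y ?_).symm
      by_contra hcon
      push Not at hcon
      exact hy (abs_le.1 hcon)
  have h1 : ‖QQ f δ x‖ₑ ≤ ENNReal.ofReal (π⁻¹ * (2 / |x|)) * ∫⁻ t in S', ‖f t‖ₑ := by
    conv_lhs => rw [← hfS']
    refine QQ_le_of measurableSet_Icc fun y hy => ?_
    unfold kk
    rw [abs_mul, abs_of_pos (inv_pos.2 Real.pi_pos)]
    gcongr
    have h2 : |x| / 2 ≤ |x - y| := by
      have h3 := abs_sub_abs_le_abs_sub x y
      have h4 : |y| ≤ R := abs_le.2 hy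
      linarith
    have h5 : 0 < |x - y| := by linarith
    have h6 : |(x - y) / ((x - y) ^ 2 + δ ^ 2)| ≤ 1 / |x - y| := by
      rw [abs_div, abs_of_pos (show 0 < (x - y) ^ 2 + δ ^ 2 by positivity),
        div_le_div_iff₀ (by positivity) h5]
      nlinarith [sq_abs (x - y), sq_nonneg δ]
    refine h6.trans ?_
    rw [div_le_div_iff₀ h5 hx0]
    linarith
  have h7 : ∫⁻ t in S', ‖f t‖ₑ ≤ ENNReal.ofReal (4 * |x|) * MM volume (fun y => ‖f y‖ₑ) x := by
    have h8 := lintegral_le_MM (μ := volume) (f := fun y => ‖f y‖ₑ)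
      (a := x - 2 * |x|) (b := x + 2 * |x|) (x := x) (by linarith) (by linarith)
    rw [Real.volume_Ioo, show x + 2 * |x| - (x - 2 * |x|) = 4 * |x| by ring] at h8
    refine le_trans ?_ h8
    have h9 : ∀ T : Set ℝ, MeasurableSet T → T.indicator f = f →
        ∫⁻ t in T, ‖f t‖ₑ = ∫⁻ t, ‖f t‖ₑ := by
      intro T hT hTf
      rw [← lintegral_indicator hT]
      refine lintegral_congr fun t => ?_
      rw [← enorm_indicator_eq_indicator_enorm, hTf]
    rw [h9 S' measurableSet_Icc hfS', h9 _ measurableSet_Ioo hfS]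
  calc ‖QQ f δ x‖ₑ ≤ ENNReal.ofReal (π⁻¹ * (2 / |x|)) * (ENNReal.ofReal (4 * |x|) *
        MM volume (fun y => ‖f y‖ₑ) x) := h1.trans (by gcongr)
    _ = ENNReal.ofReal (π⁻¹ * (2 / |x|) * (4 * |x|)) * MM volume (fun y => ‖f y‖ₑ) x := by
        rw [← mul_assoc, ENNReal.ofReal_mul (p := π⁻¹ * (2 / |x|)) (by positivity)]
    _ ≤ 3 * MM volume (fun y => ‖f y‖ₑ) x := by
        gcongr
        rw [← ENNReal.ofReal_ofNat 3]
        apply ENNReal.ofReal_le_ofReal
        have e : π⁻¹ * (2 / |x|) * (4 * |x|) = π⁻¹ * 8 := by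
          field_simp
          norm_num
        rw [e, inv_mul_le_iff₀ Real.pi_pos]
        linarith [Real.pi_gt_three]

/-- the parameter -/
noncomputable def bb (p : ℝ) (K : ℝ≥0) : ℝ := (2 / (2 - ee p K)) ^ (1 / p) - 1

lemma bb_pos {p : ℝ} (hp : 1 < p) (K : ℝ≥0) : 0 < bb p K := by
  have h1 := ee_lt hp K
  have h2 := ee_pos p K
  unfold bb
  have h3 : 1 < 2 / (2 - ee p K) := by
    rw [lt_div_iff₀ (by linarith)]; linarith
  have := Real.one_lt_rpow h3 (show 0 < 1 / p by positivity)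
  linarith

lemma bb_eq {p : ℝ} (hp : 1 < p) (K : ℝ≥0) :
    (1 / (1 + bb p K)) ^ p = 1 - ee p K / 2 := by
  have h1 := ee_lt hp K
  have h2 := ee_pos p K
  unfold bb
  have h3 : 0 < 2 / (2 - ee p K) := by
    apply div_pos <;> linarith
  rw [add_sub_cancel, one_div, Real.inv_rpow (by positivity), ← Real.rpow_mul h3.le,
    one_div_mul_cancel (by linarith), Real.rpow_one]
  field_simp

lemma absorb {X Y : ℝ≥0∞} (hX : X ≠ ∞) {e : ℝ} (he : 0 < e) (he1 : e < 1)
    (h : ENNReal.ofReal (1 - e / 2) * X ≤ ENNReal.ofReal (1 - e) * X + Y) :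
    X ≤ ENNReal.ofReal (2 / e) * Y := by
  have h1 : ENNReal.ofReal (1 - e) * X + ENNReal.ofReal (e / 2) * X ≤
      ENNReal.ofReal (1 - e) * X + Y := by
    rw [← add_mul, ← ENNReal.ofReal_add (by linarith) (by linarith)]
    rwa [show 1 - e + e / 2 = 1 - e / 2 by ring]
  have h2 : ENNReal.ofReal (e / 2) * X ≤ Y :=
    (ENNReal.add_le_add_iff_left (ENNReal.mul_ne_top ENNReal.ofReal_ne_top hX)).1 h1
  calc X = ENNReal.ofReal (2 / e) * (ENNReal.ofReal (e / 2) * X) := by
        rw [← mul_assoc, ← ENNReal.ofReal_mul (by positivity),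
          show 2 / e * (e / 2) = 1 by field_simp, ENNReal.ofReal_one, one_mul]
    _ ≤ _ := by gcongr

lemma Hs_min {p : ℝ} {K : ℝ≥0} {w : ℝ → ℝ≥0∞} (h : Ap p K w) (hp : 1 < p) {f : ℝ → ℂ}
    (hfm : Measurable f) (hf : Integrable f) {R : ℝ} (hR : 0 < R) (hs : ∀ x, R < |x| → f x = 0)
    (N : ℕ) :
    ∫⁻ x, (min (Hs f x) N) ^ p ∂(volume.withDensity w) ≤
      ENNReal.ofReal (2 / ee p K) * (ENNReal.ofReal (1 / gg (bb p K)) ^ p *
        ∫⁻ x, MM volume (fun y => ‖f y‖ₑ) x ^ p ∂(volume.withDensity w)) := by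
  have hp0 : 0 < p := by linarith
  have hβ := bb_pos hp K
  have hg := gg_pos hβ
  have hee := ee_pos p K
  have hee1 := ee_lt hp K
  have _inst := locFin (h.w_lt hp)
  set β := bb p K with hβdef
  set μ := volume.withDensity w with hμ
  set M := MM volume (fun y => ‖f y‖ₑ) with hM
  have hMm : Measurable M := measurable_MM _ _
  set G : ℝ → ℝ≥0∞ := fun x => min (Hs f x) N with hG
  have hGm : Measurable G := (measurable_Hs hf).min measurable_const
  have hgE : ENNReal.ofReal (1 / gg β) ^ p ≠ 0 := by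
    rw [Ne, ENNReal.rpow_eq_zero_iff]
    rintro (⟨h6, -⟩ | ⟨h6, -⟩)
    · rw [ENNReal.ofReal_eq_zero] at h6
      have h7 : 0 < 1 / gg β := by positivity
      linarith
    · exact ENNReal.ofReal_ne_top h6
  have heE : ENNReal.ofReal (2 / ee p K) ≠ 0 := by
    rw [Ne, ENNReal.ofReal_eq_zero, not_le]
    positivity
  rcases eq_or_ne (∫⁻ x, M x ^ p ∂μ) ∞ with htop | htop
  · rw [htop, ENNReal.mul_top hgE, ENNReal.mul_top heE]
    exact le_top
  -- finiteness
  have hfin : ∫⁻ x, G x ^ p ∂μ ≠ ∞ := by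
    have hb : ∀ x, G x ^ p ≤ (Ioo (-(2 * R + 1)) (2 * R + 1)).indicator (fun _ => (N:ℝ≥0∞) ^ p) x +
        3 ^ p * M x ^ p := by
      intro x
      by_cases hx : 2 * R < |x|
      · refine le_trans ?_ le_add_self
        rw [← ENNReal.mul_rpow_of_nonneg _ _ hp0.le]
        exact ENNReal.rpow_le_rpow ((min_le_left _ _).trans (Hs_far hR hs hx)) hp0.le
      · push Not at hx
        rw [abs_le] at hx
        have hxI : x ∈ Ioo (-(2 * R + 1)) (2 * R + 1) := ⟨by linarith [hx.1], by linarith [hx.2]⟩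
        rw [indicator_of_mem hxI]
        exact (ENNReal.rpow_le_rpow (min_le_right _ _) hp0.le).trans le_self_add
    refine ((lintegral_mono hb).trans_lt ?_).ne
    rw [lintegral_add_left (measurable_const.indicator measurableSet_Ioo),
      lintegral_indicator measurableSet_Ioo, setLIntegral_const,
      lintegral_const_mul _ (hMm.pow_const _)]
    refine ENNReal.add_lt_top.2 ⟨ENNReal.mul_lt_top ?_ measure_Ioo_lt_top,
      ENNReal.mul_lt_top ?_ htop.lt_top⟩
    · exact ENNReal.rpow_lt_top_of_nonneg hp0.le (ENNReal.natCast_ne_top N)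
    · exact ENNReal.rpow_lt_top_of_nonneg hp0.le (by norm_num)
  refine absorb hfin hee hee1 ?_
  -- the distributional inequality for the truncation
  have hdist : ∀ t : ℝ, 0 < t → μ {x | ENNReal.ofReal ((1 + β) * t) < G x} ≤
      ENNReal.ofReal (1 - ee p K) * μ {x | ENNReal.ofReal t < G x} +
      μ {x | ENNReal.ofReal (gg β * t) < M x} := by
    intro t ht
    rcases lt_or_ge (ENNReal.ofReal ((1 + β) * t)) (N:ℝ≥0∞) with hN | hN
    · have hN2 : ENNReal.ofReal t < (N:ℝ≥0∞) := by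
        refine lt_of_le_of_lt ?_ hN
        apply ENNReal.ofReal_le_ofReal
        nlinarith
      have e1 : {x | ENNReal.ofReal ((1 + β) * t) < G x} =
          {x | ENNReal.ofReal ((1 + β) * t) < Hs f x} := by
        ext x
        simp only [mem_ofPred_eq, hG, lt_min_iff]
        exact ⟨fun h => h.1, fun h => ⟨h, hN⟩⟩
      have e2 : {x | ENNReal.ofReal t < G x} = {x | ENNReal.ofReal t < Hs f x} := by
        ext x
        simp only [mem_ofPred_eq, hG, lt_min_iff]
        exact ⟨fun h => h.1, fun h => ⟨h, hN2⟩⟩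
      rw [e1, e2]
      exact good_dist h hp hfm hf ht hβ
    · have e1 : {x | ENNReal.ofReal ((1 + β) * t) < G x} = ∅ := by
        ext x
        simp only [mem_ofPred_eq, hG, lt_min_iff, mem_empty_iff_false, iff_false, not_and, not_lt]
        exact fun _ => hN
      rw [e1, measure_empty]
      exact zero_le
  -- integrate
  have hA : ENNReal.ofReal (1 - ee p K / 2) * ∫⁻ x, G x ^ p ∂μ =
      ∫⁻ t in Ioi (0:ℝ), dens p t * μ {x | ENNReal.ofReal ((1 + β) * t) < G x} := by
    have h1β : 0 < 1 + β := by linarith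
    have e0 : ENNReal.ofReal (1 - ee p K / 2) = ENNReal.ofReal (1 / (1 + β)) ^ p := by
      rw [ENNReal.ofReal_rpow_of_pos (by positivity), bb_eq hp K]
    have e1 : ENNReal.ofReal (1 - ee p K / 2) * ∫⁻ x, G x ^ p ∂μ =
        ∫⁻ x, (ENNReal.ofReal (1 / (1 + β)) * G x) ^ p ∂μ := by
      rw [e0, ← lintegral_const_mul _ (hGm.pow_const _)]
      refine lintegral_congr fun x => ?_
      rw [ENNReal.mul_rpow_of_nonneg _ _ hp0.le]
    rw [e1, layer μ (hGm.const_mul _) hp0]
    refine setLIntegral_congr_fun measurableSet_Ioi fun t ht => ?_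
    congr 2
    ext x
    rw [mem_ofPred_eq, mem_ofPred_eq, ENNReal.ofReal_mul h1β.le, one_div,
      ENNReal.ofReal_inv_of_pos h1β]
    have h0 : ENNReal.ofReal (1 + β) ≠ 0 := by
      rw [Ne, ENNReal.ofReal_eq_zero]; linarith
    rw [← ENNReal.mul_lt_mul_iff_right h0 ENNReal.ofReal_ne_top, ← mul_assoc,
      ENNReal.mul_inv_cancel h0 ENNReal.ofReal_ne_top, one_mul]
  have hB : ENNReal.ofReal (1 / gg β) ^ p * ∫⁻ x, M x ^ p ∂μ =
      ∫⁻ t in Ioi (0:ℝ), dens p t * μ {x | ENNReal.ofReal (gg β * t) < M x} := by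
    have e1 : ENNReal.ofReal (1 / gg β) ^ p * ∫⁻ x, M x ^ p ∂μ =
        ∫⁻ x, (ENNReal.ofReal (1 / gg β) * M x) ^ p ∂μ := by
      rw [← lintegral_const_mul _ (hMm.pow_const _)]
      refine lintegral_congr fun x => ?_
      rw [ENNReal.mul_rpow_of_nonneg _ _ hp0.le]
    rw [e1, layer μ (hMm.const_mul _) hp0]
    refine setLIntegral_congr_fun measurableSet_Ioi fun t ht => ?_
    congr 2
    ext x
    rw [mem_ofPred_eq, mem_ofPred_eq, ENNReal.ofReal_mul hg.le, one_div,
      ENNReal.ofReal_inv_of_pos hg]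
    have h0 : ENNReal.ofReal (gg β) ≠ 0 := by
      rw [Ne, ENNReal.ofReal_eq_zero]; linarith
    rw [← ENNReal.mul_lt_mul_iff_right h0 ENNReal.ofReal_ne_top, ← mul_assoc,
      ENNReal.mul_inv_cancel h0 ENNReal.ofReal_ne_top, one_mul]
  have hmG : Measurable fun t : ℝ => μ {x | ENNReal.ofReal t < G x} := by
    refine Antitone.measurable fun s t hst => measure_mono fun x hx => ?_
    exact lt_of_le_of_lt (ENNReal.ofReal_le_ofReal hst) hx
  rw [hA, hB, layer μ hGm hp0]
  have hmd : Measurable fun t : ℝ => dens p t * μ {x | ENNReal.ofReal t < G x} :=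
    (dens_meas p).mul hmG
  rw [← lintegral_const_mul _ hmd, ← lintegral_add_left (hmd.const_mul _)]
  refine setLIntegral_mono' measurableSet_Ioi fun t ht => ?_
  calc dens p t * μ {x | ENNReal.ofReal ((1 + β) * t) < G x}
      ≤ dens p t * (ENNReal.ofReal (1 - ee p K) * μ {x | ENNReal.ofReal t < G x} +
      μ {x | ENNReal.ofReal (gg β * t) < M x}) := by
        gcongr
        exact hdist t ht
    _ = _ := by ring

/-- **the Hunt-Muckenhoupt-Wheeden inequality** for functions of bounded support -/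
theorem hmw (p : ℝ) (hp : 1 < p) (K : ℝ≥0) : ∃ C : ℝ≥0, ∀ w : ℝ → ℝ≥0∞, Ap p K w →
    ∀ f : ℝ → ℂ, Measurable f → Integrable f → (∃ R : ℝ, ∀ x, R < |x| → f x = 0) →
      ∫⁻ x, Hs f x ^ p * w x ≤ C * ∫⁻ x, ‖f x‖ₑ ^ p * w x := by
  have hp0 : 0 < p := by linarith
  obtain ⟨C2, hC2⟩ := muckenhoupt p hp K
  set D : ℝ≥0∞ := ENNReal.ofReal (2 / ee p K) * ENNReal.ofReal (1 / gg (bb p K)) ^ p with hD
  have hDt : D ≠ ∞ := ENNReal.mul_ne_top ENNReal.ofReal_ne_top
    (ENNReal.rpow_ne_top_of_nonneg hp0.le ENNReal.ofReal_ne_top)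
  refine ⟨D.toNNReal * C2, fun w h f hfm hf hsupp => ?_⟩
  obtain ⟨R0, hR0⟩ := hsupp
  set R := max R0 1 with hRdef
  have hR : 0 < R := lt_max_of_lt_right one_pos
  have hs : ∀ x, R < |x| → f x = 0 := fun x hx => hR0 x (lt_of_le_of_lt (le_max_left _ _) hx)
  set μ := volume.withDensity w with hμ
  have e1 : ∀ F : ℝ → ℝ≥0∞, Measurable F → ∫⁻ x, F x ∂μ = ∫⁻ x, F x * w x := by
    intro F hF
    rw [hμ, lintegral_withDensity_eq_lintegral_mul _ h.meas hF]
    refine lintegral_congr fun x => ?_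
    simp only [Pi.mul_apply]
    rw [mul_comm]
  have h1 : ∫⁻ x, Hs f x ^ p ∂μ ≤ D * ∫⁻ x, MM volume (fun y => ‖f y‖ₑ) x ^ p ∂μ := by
    have hlim : ∀ x, Hs f x ^ p = liminf (fun N : ℕ => (min (Hs f x) N) ^ p) atTop := by
      intro x
      have h2 : Tendsto (fun N : ℕ => min (Hs f x) (N:ℝ≥0∞)) atTop (𝓝 (min (Hs f x) ∞)) :=
        tendsto_const_nhds.min ENNReal.tendsto_nat_nhds_top
      rw [min_eq_left le_top] at h2
      exact ((ENNReal.continuous_rpow_const.tendsto _).comp h2).liminf_eq.symm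
    simp_rw [hlim]
    refine (lintegral_liminf_le fun N =>
      ((measurable_Hs hf).min measurable_const).pow_const _).trans ?_
    refine liminf_le_of_le (by isBoundedDefault) fun b hb => ?_
    obtain ⟨N, hN⟩ := (hb.and (eventually_ge_atTop 0)).exists
    refine hN.1.trans ?_
    rw [hD, mul_assoc]
    exact Hs_min h hp hfm hf hR hs N
  calc ∫⁻ x, Hs f x ^ p * w x = ∫⁻ x, Hs f x ^ p ∂μ :=
        (e1 _ ((measurable_Hs hf).pow_const _)).symm
    _ ≤ D * ∫⁻ x, MM volume (fun y => ‖f y‖ₑ) x ^ p ∂μ := h1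
    _ = D * ∫⁻ x, MM volume (fun y => ‖f y‖ₑ) x ^ p * w x := by
        rw [e1 _ ((measurable_MM _ _).pow_const _)]
    _ ≤ D * (C2 * ∫⁻ x, ‖f x‖ₑ ^ p * w x) := by
        gcongr
        exact hC2 w h _ hfm.enorm
    _ = _ := by
        push_cast
        rw [ENNReal.coe_toNNReal hDt]
        ring

end Pool.Agent.P8H66.WT
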