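import Pool.Agent.P8H66.WT.M

/-! # Necessity: the case of an integrable dual weight -/

set_option autoImplicit false

open MeasureTheory Filter Topology Set
open scoped ENNReal NNReal Real

namespace Pool.Agent.P8H66.WT

open Pool.Dav

/-- the function `1/(x²+1)` -/
noncomputable def ex (x : ℝ) : ℝ≥0∞ := ENNReal.ofReal (1 / (x ^ 2 + 1))

lemma ex_meas : Measurable ex := by
  unfold ex
  fun_prop

lemma holder_sigma {p : ℝ} (hp : 1 < p) {u : ℝ → ℝ≥0∞} (hu : Measurable u)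
    (hut : ∀ x, u x ≠ ∞) (hfin : ∫⁻ x, u x ^ (-1 / (p - 1)) ≠ ∞) {f : ℝ → ℝ} (hfm : Measurable f) :
    (∫⁻ x, ‖f x‖ₑ) ^ p ≤ (∫⁻ x, ‖f x‖ₑ ^ p * u x) * (∫⁻ x, u x ^ (-1 / (p - 1))) ^ (p - 1) := by
  have hp0 : 0 < p := by linarith
  have hp1 : 0 < p - 1 := by linarith
  have hae : ∀ᵐ x : ℝ, u x ≠ 0 := by
    have h1 := ae_lt_top (hu.pow_const (-1 / (p - 1))) hfin
    filter_upwards [h1] with x hx h0
    rw [h0, ENNReal.zero_rpow_of_neg (by rw [neg_div]; exact neg_neg_of_pos (by positivity))] at hx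
    exact lt_irrefl _ hx
  have hconj : p.HolderConjugate (p / (p - 1)) := Real.HolderConjugate.conjExponent hp
  have h2 := ENNReal.lintegral_mul_le_Lp_mul_Lq volume hconj
    (f := fun x => ‖f x‖ₑ * u x ^ (1 / p)) (g := fun x => u x ^ (-(1 / p)))
    (hfm.enorm.mul (hu.pow_const _)).aemeasurable (hu.pow_const _).aemeasurable
  have e1 : ∫⁻ x, ((fun x => ‖f x‖ₑ * u x ^ (1 / p)) * fun x => u x ^ (-(1 / p))) x =
      ∫⁻ x, ‖f x‖ₑ := by
    refine lintegral_congr_ae ?_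
    filter_upwards [hae] with x hx
    simp only [Pi.mul_apply]
    rw [mul_assoc, ← ENNReal.rpow_add _ _ hx (hut x), add_neg_cancel, ENNReal.rpow_zero, mul_one]
  have e2 : ∀ x, (‖f x‖ₑ * u x ^ (1 / p)) ^ p = ‖f x‖ₑ ^ p * u x := by
    intro x
    rw [ENNReal.mul_rpow_of_nonneg _ _ hp0.le, ← ENNReal.rpow_mul, one_div_mul_cancel hp0.ne',
      ENNReal.rpow_one]
  have e3 : ∀ x, (u x ^ (-(1 / p))) ^ (p / (p - 1)) = u x ^ (-1 / (p - 1)) := by
    intro x
    rw [← ENNReal.rpow_mul]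
    congr 1
    field_simp
  rw [e1] at h2
  simp_rw [e2, e3] at h2
  calc (∫⁻ x, ‖f x‖ₑ) ^ p ≤ ((∫⁻ x, ‖f x‖ₑ ^ p * u x) ^ (1 / p) *
        (∫⁻ x, u x ^ (-1 / (p - 1))) ^ (1 / (p / (p - 1)))) ^ p :=
        ENNReal.rpow_le_rpow h2 hp0.le
    _ = _ := by
        rw [ENNReal.mul_rpow_of_nonneg _ _ hp0.le, ← ENNReal.rpow_mul, ← ENNReal.rpow_mul,
          one_div_mul_cancel hp0.ne', ENNReal.rpow_one]
        congr 2
        field_simp

lemma claimC_part {p : ℝ} (hp : 1 < p) {u : ℝ → ℝ≥0∞} (hu : Measurable u)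
    (hut : ∀ x, u x ≠ ∞) {C : ℝ≥0∞} (hA : AdmR p u C)
    (hfin : ∫⁻ x, u x ^ (-1 / (p - 1)) ≠ ∞) {ψ : ℝ → ℝ} (hψm : Measurable ψ) (hψi : Integrable ψ)
    (hψ1 : ∫ x, ψ x = 1) {V : Set ℝ} (hV : MeasurableSet V)
    (hVψ : ∀ x ∈ V, ∃ r : ℝ, 0 < r ∧ ∀ y, |x - y| ≤ r → ψ y = 0)
    (hVe : ∀ x ∈ V, ‖(TT ψ x : ℂ) - (1 / π) * ((x : ℂ) + Complex.I)⁻¹‖ₑ ≤ 3 * ex x)
    {a b a' b' : ℝ} (hd : Disjoint (Ioo a b) (Ioo a' b')) {f : ℝ → ℝ} (hfm : Measurable f)
    (hfi : Integrable f) (hfs : ∀ x, x ∉ Ioo a b → f x = 0) :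
    ∫⁻ x in Ioo a' b' ∩ V, ‖(TT f x : ℂ) - (1 / π) * (∫ y, f y : ℝ) *
      ((x : ℂ) + Complex.I)⁻¹‖ₑ ^ p * u x ≤
      (2 ^ p * (C * (2 ^ p * (1 + (∫⁻ x, u x ^ (-1 / (p - 1))) ^ (p - 1) *
        ∫⁻ x, ‖ψ x‖ₑ ^ p * u x)) + (∫⁻ x, u x ^ (-1 / (p - 1))) ^ (p - 1) *
        (3 ^ p * ∫⁻ x, ex x ^ p * u x))) * ∫⁻ x, ‖f x‖ₑ ^ p * u x := by
  have hp0 : 0 < p := by linarith
  set m := ∫ y, f y with hm
  set s := (∫⁻ x, u x ^ (-1 / (p - 1))) ^ (p - 1) with hs
  set J := ∫⁻ x, ‖f x‖ₑ ^ p * u x with hJ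
  set P := ∫⁻ x, ‖ψ x‖ₑ ^ p * u x with hP
  set Q := ∫⁻ x, ex x ^ p * u x with hQ
  have hmJ : ‖m‖ₑ ^ p ≤ J * s := by
    refine le_trans ?_ (holder_sigma hp hu hut hfin hfm)
    exact ENNReal.rpow_le_rpow (enorm_integral_le_lintegral_enorm _) hp0.le
  set h : ℝ → ℝ := fun y => f y - m * ψ y with hh
  have hhm : Measurable h := hfm.sub (hψm.const_mul m)
  have hhi : Integrable h := hfi.sub (hψi.const_mul m)
  have hh0 : ∫ y, h y = 0 := by
    rw [hh]
    simp only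
    rw [integral_sub hfi (hψi.const_mul m), integral_const_mul, hψ1, mul_one, sub_self]
  have hIV : MeasurableSet (Ioo a' b' ∩ V) := measurableSet_Ioo.inter hV
  have hb1 : ∫⁻ x in Ioo a' b' ∩ V, ‖TT h x‖ₑ ^ p * u x ≤ C * (2 ^ p * (J + ‖m‖ₑ ^ p * P)) := by
    calc ∫⁻ x in Ioo a' b' ∩ V, ‖TT h x‖ₑ ^ p * u x
        ≤ ∫⁻ x in Ioo a' b' ∩ V, ‖hilbert (fun y => (h y : ℂ)) x‖ₑ ^ p * u x := by
          refine setLIntegral_mono' hIV fun x hx => ?_
          obtain ⟨r, hr, hrs⟩ := sep hd hx.1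
          obtain ⟨r', hr', hrs'⟩ := hVψ x hx.2
          rw [hilbert_off (h := h) (x := x) (r := min r r') (lt_min hr hr') (fun y hy => by
            rw [hh]
            simp only
            rw [hfs y (hrs y (hy.trans (min_le_left _ _))),
              hrs' y (hy.trans (min_le_right _ _))]
            ring)]
          gcongr
          rw [← ofReal_norm, ← ofReal_norm, Complex.norm_real]
      _ ≤ ∫⁻ x, ‖hilbert (fun y => (h y : ℂ)) x‖ₑ ^ p * u x := setLIntegral_le_lintegral _ _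
      _ ≤ C * ∫⁻ x, ‖h x‖ₑ ^ p * u x := hA h hhi hh0
      _ ≤ C * ∫⁻ x, 2 ^ p * (‖f x‖ₑ ^ p * u x + ‖m‖ₑ ^ p * (‖ψ x‖ₑ ^ p * u x)) := by
          refine mul_le_mul' le_rfl (lintegral_mono fun x => ?_)
          calc ‖h x‖ₑ ^ p * u x ≤ (‖f x‖ₑ + ‖m‖ₑ * ‖ψ x‖ₑ) ^ p * u x := by
                gcongr
                rw [hh]
                simp only
                refine (enorm_sub_le).trans ?_
                rw [enorm_mul]
            _ ≤ (2 ^ p * (‖f x‖ₑ ^ p + (‖m‖ₑ * ‖ψ x‖ₑ) ^ p)) * u x := by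
                gcongr
                exact pow_sum hp _ _
            _ = _ := by
                rw [ENNReal.mul_rpow_of_nonneg _ _ hp0.le]
                ring
      _ = _ := by
          have m1 : Measurable fun x => ‖f x‖ₑ ^ p * u x := (hfm.enorm.pow_const p).mul hu
          have m2 : Measurable fun x => ‖ψ x‖ₑ ^ p * u x := (hψm.enorm.pow_const p).mul hu
          have m3 : Measurable fun x => ‖f x‖ₑ ^ p * u x + ‖m‖ₑ ^ p * (‖ψ x‖ₑ ^ p * u x) :=
            m1.add (m2.const_mul _)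
          rw [lintegral_const_mul _ m3, lintegral_add_left m1, lintegral_const_mul _ m2]
  have hpt : ∀ x ∈ Ioo a' b' ∩ V, ‖(TT f x : ℂ) - (1 / π) * (m : ℝ) *
      ((x : ℂ) + Complex.I)⁻¹‖ₑ ^ p * u x ≤
      2 ^ p * (‖TT h x‖ₑ ^ p * u x + (‖m‖ₑ ^ p * 3 ^ p) * (ex x ^ p * u x)) := by
    intro x hx
    obtain ⟨r, hr, hrs⟩ := sep hd hx.1
    obtain ⟨r', hr', hrs'⟩ := hVψ x hx.2
    have hi1 : Integrable fun y => f y / (x - y) :=
      int_off hfi hr fun y hy => hfs y (hrs y hy)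
    have hi2 : Integrable fun y => ψ y / (x - y) := int_off hψi hr' hrs'
    have e1 : (TT f x : ℂ) - (1 / π) * (m : ℝ) * ((x : ℂ) + Complex.I)⁻¹ =
        ((TT h x : ℝ) : ℂ) + (m : ℂ) * ((TT ψ x : ℂ) - (1 / π) * ((x : ℂ) + Complex.I)⁻¹) := by
      rw [hh, TT_sub hi1 hi2 m]
      push_cast
      ring
    have e2 : ‖(TT f x : ℂ) - (1 / π) * (m : ℝ) * ((x : ℂ) + Complex.I)⁻¹‖ₑ ≤
        ‖TT h x‖ₑ + ‖m‖ₑ * (3 * ex x) := by
      rw [e1]
      refine (enorm_add_le _ _).trans ?_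
      rw [enorm_mul]
      have e3 : ∀ t : ℝ, ‖(t : ℂ)‖ₑ = ‖t‖ₑ := by
        intro t
        rw [← ofReal_norm, ← ofReal_norm, Complex.norm_real]
      rw [e3, e3]
      gcongr
      exact hVe x hx.2
    calc _ ≤ (‖TT h x‖ₑ + ‖m‖ₑ * (3 * ex x)) ^ p * u x := by gcongr
      _ ≤ (2 ^ p * (‖TT h x‖ₑ ^ p + (‖m‖ₑ * (3 * ex x)) ^ p)) * u x := by
          gcongr
          exact pow_sum hp _ _
      _ = _ := by
          rw [ENNReal.mul_rpow_of_nonneg _ _ hp0.le, ENNReal.mul_rpow_of_nonneg _ _ hp0.le]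
          ring
  have m1 : Measurable fun x => ‖TT h x‖ₑ ^ p * u x := ((TT_meas hhm).enorm.pow_const p).mul hu
  have m2 : Measurable fun x => ex x ^ p * u x := (ex_meas.pow_const p).mul hu
  have m3 : Measurable fun x => ‖TT h x‖ₑ ^ p * u x + (‖m‖ₑ ^ p * 3 ^ p) * (ex x ^ p * u x) :=
    m1.add (m2.const_mul _)
  calc _ ≤ ∫⁻ x in Ioo a' b' ∩ V,
        2 ^ p * (‖TT h x‖ₑ ^ p * u x + (‖m‖ₑ ^ p * 3 ^ p) * (ex x ^ p * u x)) :=
        setLIntegral_mono' hIV hpt
    _ = 2 ^ p * ((∫⁻ x in Ioo a' b' ∩ V, ‖TT h x‖ₑ ^ p * u x) +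
          (‖m‖ₑ ^ p * 3 ^ p) * ∫⁻ x in Ioo a' b' ∩ V, ex x ^ p * u x) := by
        rw [lintegral_const_mul _ m3, lintegral_add_left m1, lintegral_const_mul _ m2]
    _ ≤ 2 ^ p * (C * (2 ^ p * (J + ‖m‖ₑ ^ p * P)) + (‖m‖ₑ ^ p * 3 ^ p) * Q) := by
        gcongr
        exact setLIntegral_le_lintegral _ _
    _ ≤ 2 ^ p * (C * (2 ^ p * (J + (J * s) * P)) + ((J * s) * 3 ^ p) * Q) := by gcongr
    _ = _ := by ring

/-- the indicator of a unit interval -/
noncomputable def un (c : ℝ) : ℝ → ℝ := (Ioo c (c + 1)).indicator fun _ => 1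

lemma un_meas (c : ℝ) : Measurable (un c) := measurable_const.indicator measurableSet_Ioo

lemma un_int (c : ℝ) : Integrable (un c) := by
  refine bdd_int (un_meas c) (M := 1) (a := c) (b := c + 1) (fun x => ?_) (fun x hx => ?_)
  · unfold un
    by_cases hx : x ∈ Ioo c (c + 1)
    · rw [indicator_of_mem hx]; simp
    · rw [indicator_of_notMem hx]; simp
  · unfold un
    rw [indicator_of_notMem hx]

lemma un_one (c : ℝ) : ∫ x, un c x = 1 := by
  unfold un
  rw [integral_indicator measurableSet_Ioo]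
  simp

lemma un_norm {p : ℝ} (hp : 0 < p) (c : ℝ) (u : ℝ → ℝ≥0∞) :
    ∫⁻ x, ‖un c x‖ₑ ^ p * u x = ∫⁻ x in Ioo c (c + 1), u x := by
  rw [← lintegral_indicator measurableSet_Ioo]
  refine lintegral_congr fun x => ?_
  unfold un
  by_cases hx : x ∈ Ioo c (c + 1)
  · rw [indicator_of_mem hx, indicator_of_mem hx]; simp
  · rw [indicator_of_notMem hx, indicator_of_notMem hx]
    simp [ENNReal.zero_rpow_of_pos hp]

lemma un_close {c x r : ℝ} (hr : 0 < r) (h0 : ∀ y, |x - y| ≤ r → un c y = 0)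
    (h : ∀ y ∈ Ioo c (c + 1), (y ^ 2 + 1) * (x ^ 2 + 1) ≤ 81 * (x - y) ^ 2) :
    ‖(TT (un c) x : ℂ) - (1 / π) * ((x : ℂ) + Complex.I)⁻¹‖ₑ ≤ 3 * ex x := by
  have hi : Integrable fun y => un c y / (x - y) := int_off (un_int c) hr h0
  have hxi : (x : ℂ) + Complex.I ≠ 0 := by
    intro h1
    have := congrArg Complex.im h1
    simp at this
  have e : (TT (un c) x : ℂ) - (1 / π) * ((x : ℂ) + Complex.I)⁻¹ =
      ∫ y, (1 / π) * ((un c y : ℂ) * (((x - y : ℝ) : ℂ)⁻¹ - ((x : ℂ) + Complex.I)⁻¹)) := by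
    rw [integral_const_mul]
    have e1 : ∀ y, (un c y : ℂ) * (((x - y : ℝ) : ℂ)⁻¹ - ((x : ℂ) + Complex.I)⁻¹) =
        ((un c y / (x - y) : ℝ) : ℂ) - (un c y : ℂ) * ((x : ℂ) + Complex.I)⁻¹ := by
      intro y
      push_cast
      ring
    simp_rw [e1]
    rw [integral_sub hi.ofReal ((un_int c).ofReal.mul_const _), integral_complex_ofReal,
      integral_mul_const, integral_complex_ofReal, un_one]
    unfold TT
    push_cast
    ring
  rw [e]
  refine (enorm_integral_le_lintegral_enorm _).trans ?_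
  have hpt : ∀ y, ‖(1 / π) * ((un c y : ℂ) * (((x - y : ℝ) : ℂ)⁻¹ - ((x : ℂ) + Complex.I)⁻¹))‖ₑ ≤
      (Ioo c (c + 1)).indicator (fun _ => 3 * ex x) y := by
    intro y
    by_cases hy : y ∈ Ioo c (c + 1)
    · rw [indicator_of_mem hy]
      have hun : un c y = 1 := by
        unfold un
        rw [indicator_of_mem hy]
      have hxy : x - y ≠ 0 := by
        intro h1
        have h2 := h0 y (by rw [h1, abs_zero]; exact hr.le)
        rw [hun] at h2
        exact one_ne_zero h2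
      have hxyC : ((x - y : ℝ) : ℂ) ≠ 0 := by
        rw [Ne, Complex.ofReal_eq_zero]; exact hxy
      rw [hun, Complex.ofReal_one, one_mul]
      have e2 : ((x - y : ℝ) : ℂ)⁻¹ - ((x : ℂ) + Complex.I)⁻¹ =
          ((y : ℂ) + Complex.I) / (((x - y : ℝ) : ℂ) * ((x : ℂ) + Complex.I)) := by
        field_simp
        push_cast
        ring
      rw [e2, ← ofReal_norm]
      unfold ex
      rw [← ENNReal.ofReal_ofNat 3, ← ENNReal.ofReal_mul (by norm_num)]
      apply ENNReal.ofReal_le_ofReal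
      simp only [norm_mul, norm_div, norm_one, Complex.norm_real, Real.norm_eq_abs]
      rw [abs_of_pos Real.pi_pos]
      have n1 : ‖(y : ℂ) + Complex.I‖ = √(y ^ 2 + 1) := by
        rw [Complex.norm_eq_sqrt_sq_add_sq]
        simp
      have n2 : ‖(x : ℂ) + Complex.I‖ = √(x ^ 2 + 1) := by
        rw [Complex.norm_eq_sqrt_sq_add_sq]
        simp
      rw [n1, n2]
      have hxp : 0 < x ^ 2 + 1 := by positivity
      have hsx : 0 < √(x ^ 2 + 1) := Real.sqrt_pos.2 hxp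
      have hsq : √(x ^ 2 + 1) * √(x ^ 2 + 1) = x ^ 2 + 1 := Real.mul_self_sqrt hxp.le
      have habs : 0 < |x - y| := abs_pos.2 hxy
      have h3 : √(y ^ 2 + 1) * √(x ^ 2 + 1) ≤ 9 * |x - y| := by
        rw [← Real.sqrt_mul (by positivity)]
        apply Real.sqrt_le_iff.2
        refine ⟨by positivity, ?_⟩
        rw [mul_pow, sq_abs]
        have := h y hy
        linarith
      have h4 : √(y ^ 2 + 1) / (|x - y| * √(x ^ 2 + 1)) ≤ 9 / (x ^ 2 + 1) := by
        rw [div_le_div_iff₀ (by positivity) hxp]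
        calc √(y ^ 2 + 1) * (x ^ 2 + 1) = (√(y ^ 2 + 1) * √(x ^ 2 + 1)) * √(x ^ 2 + 1) := by
              rw [mul_assoc, hsq]
          _ ≤ (9 * |x - y|) * √(x ^ 2 + 1) := by gcongr
          _ = _ := by ring
      calc 1 / π * (√(y ^ 2 + 1) / (|x - y| * √(x ^ 2 + 1))) ≤ 1 / π * (9 / (x ^ 2 + 1)) := by
            gcongr
        _ ≤ 1 / 3 * (9 / (x ^ 2 + 1)) := by
            gcongr
            exact Real.pi_gt_three.le
        _ = 3 * (1 / (x ^ 2 + 1)) := by ring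
    · have hun : un c y = 0 := by
        unfold un
        rw [indicator_of_notMem hy]
      rw [hun]
      simp
  refine (lintegral_mono hpt).trans ?_
  rw [lintegral_indicator measurableSet_Ioo, setLIntegral_const, Real.volume_Ioo]
  simp

/-- the weight is integrable at infinity against `x^(-2p)` -/
lemma ex_fin {p : ℝ} (hp : 1 < p) {u : ℝ → ℝ≥0∞} (hu : Measurable u)
    {C : ℝ≥0∞} (hC : C ≠ ∞) (hA : AdmR p u C)
    (hloc : ∀ a b : ℝ, ∫⁻ x in Ioo a b, u x ≠ ∞) : ∫⁻ x, ex x ^ p * u x ≠ ∞ := by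
  have hp0 : 0 < p := by linarith
  set h : ℝ → ℝ := fun y => un 0 y - 1 * un 1 y with hh
  have hhi : Integrable h := (un_int 0).sub ((un_int 1).const_mul 1)
  have hh0 : ∫ y, h y = 0 := by
    rw [hh]
    simp only
    rw [integral_sub (un_int 0) ((un_int 1).const_mul 1), integral_const_mul, un_one, un_one]
    ring
  have hadm := hA h hhi hh0
  have hJ : ∫⁻ x, ‖h x‖ₑ ^ p * u x ≠ ∞ := by
    have h1 : ∫⁻ x, ‖h x‖ₑ ^ p * u x ≤ ∫⁻ x, 2 ^ p * (‖un 0 x‖ₑ ^ p * u x + ‖un 1 x‖ₑ ^ p * u x) := by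
      refine lintegral_mono fun x => ?_
      calc ‖h x‖ₑ ^ p * u x ≤ (‖un 0 x‖ₑ + ‖un 1 x‖ₑ) ^ p * u x := by
            gcongr
            rw [hh]
            simp only
            refine (enorm_sub_le).trans ?_
            rw [one_mul]
        _ ≤ (2 ^ p * (‖un 0 x‖ₑ ^ p + ‖un 1 x‖ₑ ^ p)) * u x := by
            gcongr
            exact pow_sum hp _ _
        _ = _ := by ring
    have m1 : Measurable fun x => ‖un 0 x‖ₑ ^ p * u x := ((un_meas 0).enorm.pow_const p).mul hu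
    have m2 : Measurable fun x => ‖un 1 x‖ₑ ^ p * u x := ((un_meas 1).enorm.pow_const p).mul hu
    have m3 : Measurable fun x => ‖un 0 x‖ₑ ^ p * u x + ‖un 1 x‖ₑ ^ p * u x := m1.add m2
    rw [lintegral_const_mul _ m3, lintegral_add_left m1, un_norm hp0, un_norm hp0] at h1
    refine (h1.trans_lt ?_).ne
    refine ENNReal.mul_lt_top (ENNReal.rpow_lt_top_of_nonneg hp0.le (by norm_num)) ?_
    exact ENNReal.add_lt_top.2 ⟨(hloc _ _).lt_top, (hloc _ _).lt_top⟩
  have hfinH : ∫⁻ x, ‖hilbert (fun y => (h y : ℂ)) x‖ₑ ^ p * u x ≠ ∞ :=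
    (hadm.trans_lt (ENNReal.mul_lt_top hC.lt_top hJ.lt_top)).ne
  -- the pointwise lower bound
  have hpt : ∀ x : ℝ, 4 ≤ |x| → ex x ≤ ENNReal.ofReal (8 * π) *
      ‖hilbert (fun y => (h y : ℂ)) x‖ₑ := by
    intro x hx
    have hu0 : ∀ y, |x - y| ≤ 1 → un 0 y = 0 := by
      intro y hy
      unfold un
      rw [indicator_of_notMem]
      rintro ⟨h1, h2⟩
      have h3 : |y| ≤ 1 := by rw [abs_le]; constructor <;> linarith
      have h4 := abs_sub_abs_le_abs_sub x y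
      linarith
    have hu1 : ∀ y, |x - y| ≤ 1 → un 1 y = 0 := by
      intro y hy
      unfold un
      rw [indicator_of_notMem]
      rintro ⟨h1, h2⟩
      have h3 : |y| ≤ 2 := by rw [abs_le]; constructor <;> linarith
      have h4 := abs_sub_abs_le_abs_sub x y
      linarith
    have hi0 : Integrable fun y => un 0 y / (x - y) := int_off (un_int 0) one_pos hu0
    have hi1 : Integrable fun y => un 1 y / (x - y) := int_off (un_int 1) one_pos hu1
    rw [hilbert_off (h := h) (x := x) (r := 1) one_pos (fun y hy => by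
      rw [hh]
      simp only
      rw [hu0 y hy, hu1 y hy]
      ring)]
    rw [hh, TT_sub hi0 hi1 1, one_mul]
    rw [← ofReal_norm, Complex.norm_real, Real.norm_eq_abs]
    unfold ex
    rw [← ENNReal.ofReal_mul (by positivity)]
    apply ENNReal.ofReal_le_ofReal
    have hshift : ∫ y, un 1 y / (x - y) = ∫ y, un 0 y / (x - 1 - y) := by
      rw [← integral_sub_right_eq_self (fun y => un 0 y / (x - 1 - y)) 1]
      refine integral_congr_ae (Eventually.of_forall fun y => ?_)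
      simp only
      have e1 : un 1 y = un 0 (y - 1) := by
        unfold un
        simp only [indicator_apply, mem_Ioo]
        congr 1
        apply propext
        constructor
        · rintro ⟨h1, h2⟩; constructor <;> linarith
        · rintro ⟨h1, h2⟩; constructor <;> linarith
      rw [e1, show x - 1 - (y - 1) = x - y by ring]
    have hx2 : ∀ y ∈ Ioo (0:ℝ) 1, 0 < (x - y) * (x - 1 - y) ∧
        (x - y) * (x - 1 - y) ≤ 8 * (x ^ 2 + 1) := by
      rintro y ⟨h1, h2⟩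
      rcases le_abs.1 hx with h3 | h3
      · constructor
        · apply mul_pos <;> linarith
        · nlinarith
      · constructor
        · apply mul_pos_of_neg_of_neg <;> linarith
        · nlinarith
    have hi2 : Integrable fun y => un 0 y / (x - 1 - y) := by
      refine int_off (un_int 0) (r := 1) one_pos fun y hy => ?_
      unfold un
      rw [indicator_of_notMem]
      rintro ⟨h1, h2⟩
      have h3 : |y| ≤ 1 := by rw [abs_le]; constructor <;> linarith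
      have h4 := abs_sub_abs_le_abs_sub (x - 1) y
      have h5 := abs_sub_abs_le_abs_sub x 1
      rw [abs_one] at h5
      linarith
    have hdiff : TT (un 0) x - TT (un 1) x =
        -((1 / π) * ∫ y, un 0 y * (1 / ((x - y) * (x - 1 - y)))) := by
      unfold TT
      rw [hshift, ← mul_sub, ← integral_sub hi0 hi2, ← mul_neg, ← integral_neg]
      congr 1
      refine integral_congr_ae (Eventually.of_forall fun y => ?_)
      simp only
      by_cases hy : y ∈ Ioo (0:ℝ) (0 + 1)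
      · rw [zero_add] at hy
        have h1 := (hx2 y hy).1
        have h2 : x - y ≠ 0 := fun h => by rw [h] at h1; simp at h1
        have h3 : x - 1 - y ≠ 0 := fun h => by rw [h] at h1; simp at h1
        field_simp
        ring
      · have : un 0 y = 0 := by
          unfold un
          rw [indicator_of_notMem hy]
        rw [this]
        simp
    rw [hdiff, abs_neg, abs_mul, abs_of_pos (by positivity : 0 < 1 / π)]
    have hlow : 1 / (8 * (x ^ 2 + 1)) ≤ ∫ y, un 0 y * (1 / ((x - y) * (x - 1 - y))) := by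
      have e1 : 1 / (8 * (x ^ 2 + 1)) = ∫ y, un 0 y * (1 / (8 * (x ^ 2 + 1))) := by
        rw [integral_mul_const, un_one, one_mul]
      rw [e1]
      have hi3 : Integrable fun y => un 0 y * (1 / ((x - y) * (x - 1 - y))) := by
        refine (hi2.sub hi0).congr (Eventually.of_forall fun y => ?_)
        simp only [Pi.sub_apply]
        by_cases hy : y ∈ Ioo (0:ℝ) (0 + 1)
        · rw [zero_add] at hy
          have h1 := (hx2 y hy).1
          have h2 : x - y ≠ 0 := fun h => by rw [h] at h1; simp at h1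
          have h3 : x - 1 - y ≠ 0 := fun h => by rw [h] at h1; simp at h1
          field_simp
          ring
        · have : un 0 y = 0 := by
            unfold un
            rw [indicator_of_notMem hy]
          rw [this]
          simp
      refine integral_mono ((un_int 0).mul_const _) hi3 fun y => ?_
      by_cases hy : y ∈ Ioo (0:ℝ) (0 + 1)
      · have hun : un 0 y = 1 := by
          unfold un
          rw [indicator_of_mem hy]
        rw [zero_add] at hy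
        obtain ⟨h1, h2⟩ := hx2 y hy
        simp only
        rw [hun, one_mul, one_mul]
        exact one_div_le_one_div_of_le h1 h2
      · have : un 0 y = 0 := by
          unfold un
          rw [indicator_of_notMem hy]
        simp only
        rw [this]
        simp
    have hpos : 0 < 1 / (8 * (x ^ 2 + 1)) := by positivity
    rw [abs_of_pos (hpos.trans_le hlow)]
    calc 1 / (x ^ 2 + 1) = 8 * π * (1 / π * (1 / (8 * (x ^ 2 + 1)))) := by
          field_simp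
      _ ≤ _ := by gcongr
  -- conclusion
  have hbd : ∀ x, ex x ^ p * u x ≤ (Ioo (-4:ℝ) 4).indicator u x +
      ENNReal.ofReal (8 * π) ^ p * (‖hilbert (fun y => (h y : ℂ)) x‖ₑ ^ p * u x) := by
    intro x
    by_cases hx : 4 ≤ |x|
    · refine le_trans ?_ le_add_self
      rw [← mul_assoc, ← ENNReal.mul_rpow_of_nonneg _ _ hp0.le]
      gcongr
      exact hpt x hx
    · push Not at hx
      have hxI : x ∈ Ioo (-4:ℝ) 4 := abs_lt.1 hx
      rw [indicator_of_mem hxI]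
      refine le_trans ?_ le_self_add
      have h1 : ex x ≤ 1 := by
        unfold ex
        rw [← ENNReal.ofReal_one]
        apply ENNReal.ofReal_le_ofReal
        rw [div_le_one (by positivity)]
        nlinarith
      calc ex x ^ p * u x ≤ 1 ^ p * u x := by gcongr
        _ = u x := by rw [ENNReal.one_rpow, one_mul]
  refine ((lintegral_mono hbd).trans_lt ?_).ne
  rw [lintegral_add_left (hu.indicator measurableSet_Ioo), lintegral_indicator measurableSet_Ioo,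
    lintegral_const_mul' _ _ (ENNReal.rpow_ne_top_of_nonneg hp0.le ENNReal.ofReal_ne_top)]
  exact ENNReal.add_lt_top.2 ⟨(hloc _ _).lt_top, ENNReal.mul_lt_top
    (ENNReal.rpow_lt_top_of_nonneg hp0.le ENNReal.ofReal_ne_top) hfinH.lt_top⟩

/-- integrable dual weight -/
theorem claimC {p : ℝ} (hp : 1 < p) {u : ℝ → ℝ≥0∞} (hu : Measurable u)
    (hut : ∀ x, u x ≠ ∞) {C : ℝ≥0∞} (hC : C ≠ ∞) (hA : AdmR p u C)
    (hloc : ∀ a b : ℝ, ∫⁻ x in Ioo a b, u x ≠ ∞)
    (hfin : ∫⁻ x, u x ^ (-1 / (p - 1)) ≠ ∞) :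
    ∃ D : ℝ≥0∞, D ≠ ∞ ∧ Claim p u (fun x => ((x : ℂ) + Complex.I)⁻¹) D := by
  have hp0 : 0 < p := by linarith
  have hp1 : 0 < p - 1 := by linarith
  set V : Set ℝ := Icc (-1) 2 with hV
  set B : ℝ → ℝ≥0∞ := fun c => (2 ^ p * (C * (2 ^ p * (1 + (∫⁻ x, u x ^ (-1 / (p - 1))) ^ (p - 1) *
        ∫⁻ x, ‖un c x‖ₑ ^ p * u x)) + (∫⁻ x, u x ^ (-1 / (p - 1))) ^ (p - 1) *
        (3 ^ p * ∫⁻ x, ex x ^ p * u x))) with hB
  have hBt : ∀ c, B c ≠ ∞ := by
    intro c
    have h2p : (2:ℝ≥0∞) ^ p ≠ ∞ := ENNReal.rpow_ne_top_of_nonneg hp0.le (by norm_num)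
    have h3p : (3:ℝ≥0∞) ^ p ≠ ∞ := ENNReal.rpow_ne_top_of_nonneg hp0.le (by norm_num)
    have hs : (∫⁻ x, u x ^ (-1 / (p - 1))) ^ (p - 1) ≠ ∞ :=
      ENNReal.rpow_ne_top_of_nonneg hp1.le hfin
    have hun : ∫⁻ x, ‖un c x‖ₑ ^ p * u x ≠ ∞ := by
      rw [un_norm hp0]
      exact hloc _ _
    have hex := ex_fin hp hu hC hA hloc
    rw [hB]
    simp only
    refine ENNReal.mul_ne_top h2p (ENNReal.add_ne_top.2 ⟨?_, ?_⟩)
    · refine ENNReal.mul_ne_top hC (ENNReal.mul_ne_top h2p (ENNReal.add_ne_top.2 ⟨by norm_num, ?_⟩))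
      exact ENNReal.mul_ne_top hs hun
    · exact ENNReal.mul_ne_top hs (ENNReal.mul_ne_top h3p hex)
  refine ⟨B 0 + B 10, ENNReal.add_ne_top.2 ⟨hBt 0, hBt 10⟩, ?_⟩
  intro a b a' b' hd f hfm hfi hfs
  -- away from the origin
  have hV1 : ∀ x ∈ Vᶜ, ∃ r : ℝ, 0 < r ∧ ∀ y, |x - y| ≤ r → un 0 y = 0 := by
    intro x hx
    refine ⟨1 / 2, by norm_num, fun y hy => ?_⟩
    unfold un
    rw [indicator_of_notMem]
    rintro ⟨h1, h2⟩
    rw [abs_le] at hy
    apply hx
    constructor <;> linarith [hy.1, hy.2]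
  have hV2 : ∀ x ∈ V, ∃ r : ℝ, 0 < r ∧ ∀ y, |x - y| ≤ r → un 10 y = 0 := by
    intro x hx
    refine ⟨1, by norm_num, fun y hy => ?_⟩
    unfold un
    rw [indicator_of_notMem]
    rintro ⟨h1, h2⟩
    rw [abs_le] at hy
    linarith [hx.1, hx.2, hy.1, hy.2]
  have h1 := claimC_part hp hu hut hA hfin (un_meas 0) (un_int 0) (un_one 0)
    (V := Vᶜ) measurableSet_Icc.compl hV1 (fun x hx => by
      obtain ⟨r, hr, hrs⟩ := hV1 x hx
      refine un_close hr hrs fun y hy => ?_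
      rw [zero_add] at hy
      have hx' : x < -1 ∨ 2 < x := by
        by_contra hcon
        push Not at hcon
        exact hx hcon
      have hy1 : y ^ 2 + 1 ≤ 2 := by nlinarith [hy.1, hy.2]
      rcases hx' with h | h
      · have h3 : x ^ 2 ≤ (x - y) ^ 2 := by nlinarith [hy.1, hy.2]
        nlinarith [hy.1, hy.2]
      · have h3 : (x - 1) ^ 2 ≤ (x - y) ^ 2 := by nlinarith [hy.1, hy.2]
        nlinarith [hy.1, hy.2]) hd hfm hfi hfs
  have h2 := claimC_part hp hu hut hA hfin (un_meas 10) (un_int 10) (un_one 10)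
    (V := V) measurableSet_Icc hV2 (fun x hx => by
      obtain ⟨r, hr, hrs⟩ := hV2 x hx
      refine un_close hr hrs fun y hy => ?_
      obtain ⟨hx1, hx2⟩ := hx
      obtain ⟨hy1, hy2⟩ := hy
      have h3 : x ^ 2 + 1 ≤ 5 := by nlinarith
      have h4 : y ^ 2 + 1 ≤ 122 := by nlinarith
      have h5 : 64 ≤ (x - y) ^ 2 := by nlinarith
      calc (y ^ 2 + 1) * (x ^ 2 + 1) ≤ 122 * 5 := by gcongr
        _ ≤ 81 * 64 := by norm_num
        _ ≤ _ := by gcongr) hd hfm hfi hfs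
  have hsplit := lintegral_inter_add_sdiff (μ := volume) (fun x => ‖(TT f x : ℂ) - (1 / π) *
    (∫ y, f y : ℝ) * ((x : ℂ) + Complex.I)⁻¹‖ₑ ^ p * u x) (Ioo a' b')
    (measurableSet_Icc (a := (-1:ℝ)) (b := 2))
  rw [← hsplit, sdiff_eq]
  refine (add_le_add h2 h1).trans (le_of_eq ?_)
  ring

end Pool.Agent.P8H66.WT
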