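import Pool.Agent.P8H66.WT.N

/-! # Necessity: concentrating functions -/

set_option autoImplicit false

open MeasureTheory Filter Topology Set
open scoped ENNReal NNReal Real

namespace Pool.Agent.P8H66.WT

open Pool.Dav

/-- the inequality for real functions of mean zero -/
def AdmR (p : ℝ) (u : ℝ → ℝ≥0∞) (C : ℝ≥0∞) : Prop :=
  ∀ f : ℝ → ℝ, Integrable f → ∫ y, f y = 0 →
    ∫⁻ x, ‖hilbert (fun y => (f y : ℂ)) x‖ₑ ^ p * u x ≤ C * ∫⁻ x, ‖f x‖ₑ ^ p * u x

lemma TT_sub {f g : ℝ → ℝ} {x : ℝ} (hf : Integrable fun y => f y / (x - y))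
    (hg : Integrable fun y => g y / (x - y)) (m : ℝ) :
    TT (fun y => f y - m * g y) x = TT f x - m * TT g x := by
  unfold TT
  have e : ∀ y, (f y - m * g y) / (x - y) = f y / (x - y) - m * (g y / (x - y)) := by
    intro y; ring
  simp_rw [e]
  rw [integral_sub hf (hg.const_mul m), integral_const_mul]
  ring

lemma claim_of_moll {p : ℝ} (hp : 1 < p) {u : ℝ → ℝ≥0∞} (hu : Measurable u)
    (hut : ∀ x, u x ≠ ∞) {C : ℝ≥0∞} (hC : C ≠ ∞) (hA : AdmR p u C) {φ : ℕ → ℝ → ℝ}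
    (hφm : ∀ n, Measurable (φ n)) (hφi : ∀ n, Integrable (φ n)) (hφ1 : ∀ n, ∫ y, φ n y = 1)
    {V : ℕ → Set ℝ} (hV : ∀ n, MeasurableSet (V n))
    (hVφ : ∀ n, ∀ x ∈ V n, ∃ r : ℝ, 0 < r ∧ ∀ y, |x - y| ≤ r → φ n y = 0)
    (hVe : ∀ᵐ x : ℝ, ∀ᶠ n in atTop, x ∈ V n) {κ : ℝ → ℂ}
    (hκ : ∀ᵐ x : ℝ, Tendsto (fun n => ((∫ y, φ n y / (x - y) : ℝ) : ℂ)) atTop (𝓝 (κ x)))
    (hφ0 : Tendsto (fun n => ∫⁻ x, ‖φ n x‖ₑ ^ p * u x) atTop (𝓝 0)) :
    Claim p u κ (2 ^ p * C) := by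
  have hp0 : 0 < p := by linarith
  intro a b a' b' hd f hfm hfi hfs
  set m := ∫ y, f y with hm
  set h : ℕ → ℝ → ℝ := fun n y => f y - m * φ n y with hh
  have hhm : ∀ n, Measurable (h n) := fun n => hfm.sub ((hφm n).const_mul m)
  have hhi : ∀ n, Integrable (h n) := fun n => hfi.sub ((hφi n).const_mul m)
  have hh0 : ∀ n, ∫ y, h n y = 0 := by
    intro n
    rw [hh]
    simp only
    rw [integral_sub hfi ((hφi n).const_mul m), integral_const_mul, hφ1 n, mul_one, sub_self]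
  set G : ℕ → ℝ → ℝ≥0∞ := fun n => (V n).indicator fun x => ‖TT (h n) x‖ₑ ^ p * u x with hG
  have hGm : ∀ n, Measurable (G n) := fun n =>
    (((TT_meas (hhm n)).enorm.pow_const p).mul hu).indicator (hV n)
  have hlim : ∀ᵐ x ∂(volume.restrict (Ioo a' b')),
      ‖(TT f x : ℂ) - (1 / π) * (∫ y, f y : ℝ) * κ x‖ₑ ^ p * u x = liminf (fun n => G n x) atTop := by
    filter_upwards [ae_restrict_mem measurableSet_Ioo, ae_restrict_of_ae hVe,
      ae_restrict_of_ae hκ] with x hx hxV hxκ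
    obtain ⟨r, hr, hrs⟩ := sep hd hx
    have hi1 : Integrable fun y => f y / (x - y) :=
      int_off hfi hr fun y hy => hfs y (hrs y hy)
    have h1 : Tendsto (fun n => (TT f x : ℂ) - (1 / π) * (m : ℝ) *
        ((∫ y, φ n y / (x - y) : ℝ) : ℂ)) atTop (𝓝 ((TT f x : ℂ) - (1 / π) * (m : ℝ) * κ x)) :=
      (hxκ.const_mul _).const_sub _
    have h2 : Tendsto (fun n => ‖(TT f x : ℂ) - (1 / π) * (m : ℝ) *
        ((∫ y, φ n y / (x - y) : ℝ) : ℂ)‖ₑ ^ p * u x) atTop
        (𝓝 (‖(TT f x : ℂ) - (1 / π) * (m : ℝ) * κ x‖ₑ ^ p * u x)) :=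
      ENNReal.Tendsto.mul_const ((ENNReal.continuous_rpow_const.tendsto _).comp h1.enorm)
        (Or.inr (hut x))
    rw [← hm, ← h2.liminf_eq]
    refine liminf_congr ?_
    filter_upwards [hxV] with n hn
    rw [hG]
    simp only
    rw [indicator_of_mem hn]
    obtain ⟨r', hr', hrs'⟩ := hVφ n x hn
    have hi2 : Integrable fun y => φ n y / (x - y) := int_off (hφi n) hr' hrs'
    rw [hh]
    simp only
    rw [TT_sub hi1 hi2 m]
    congr 2
    have e1 : (TT f x : ℂ) - (1 / π) * (m : ℝ) * ((∫ y, φ n y / (x - y) : ℝ) : ℂ) =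
        ((TT f x - m * TT (φ n) x : ℝ) : ℂ) := by
      unfold TT
      push_cast
      ring
    rw [e1, ← ofReal_norm, ← ofReal_norm, Complex.norm_real]
  have hGle : ∀ n, ∫⁻ x in Ioo a' b', G n x ≤
      C * (2 ^ p * ((∫⁻ x, ‖f x‖ₑ ^ p * u x) + ‖m‖ₑ ^ p * ∫⁻ x, ‖φ n x‖ₑ ^ p * u x)) := by
    intro n
    calc ∫⁻ x in Ioo a' b', G n x
        ≤ ∫⁻ x in Ioo a' b', ‖hilbert (fun y => (h n y : ℂ)) x‖ₑ ^ p * u x := by
          refine setLIntegral_mono' measurableSet_Ioo fun x hx => ?_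
          by_cases hn : x ∈ V n
          · obtain ⟨r, hr, hrs⟩ := sep hd hx
            obtain ⟨r', hr', hrs'⟩ := hVφ n x hn
            rw [hilbert_off (h := h n) (x := x) (r := min r r') (lt_min hr hr') (fun y hy => by
              rw [hh]
              simp only
              rw [hfs y (hrs y (hy.trans (min_le_left _ _))),
                hrs' y (hy.trans (min_le_right _ _))]
              ring)]
            rw [hG]
            simp only
            rw [indicator_of_mem hn]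
            gcongr
            rw [← ofReal_norm, ← ofReal_norm, Complex.norm_real]
          · rw [hG]
            simp only
            rw [indicator_of_notMem hn]
            exact zero_le
      _ ≤ ∫⁻ x, ‖hilbert (fun y => (h n y : ℂ)) x‖ₑ ^ p * u x := setLIntegral_le_lintegral _ _
      _ ≤ C * ∫⁻ x, ‖h n x‖ₑ ^ p * u x := hA (h n) (hhi n) (hh0 n)
      _ ≤ C * ∫⁻ x, 2 ^ p * (‖f x‖ₑ ^ p * u x + ‖m‖ₑ ^ p * (‖φ n x‖ₑ ^ p * u x)) := by
          refine mul_le_mul' le_rfl (lintegral_mono fun x => ?_)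
          calc ‖h n x‖ₑ ^ p * u x ≤ (‖f x‖ₑ + ‖m‖ₑ * ‖φ n x‖ₑ) ^ p * u x := by
                gcongr
                rw [hh]
                simp only
                refine (enorm_sub_le).trans ?_
                rw [enorm_mul]
            _ ≤ (2 ^ p * (‖f x‖ₑ ^ p + (‖m‖ₑ * ‖φ n x‖ₑ) ^ p)) * u x := by
                gcongr
                exact pow_sum hp _ _
            _ = _ := by
                rw [ENNReal.mul_rpow_of_nonneg _ _ hp0.le]
                ring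
      _ = _ := by
          have m1 : Measurable fun x => ‖f x‖ₑ ^ p * u x := (hfm.enorm.pow_const p).mul hu
          have m2 : Measurable fun x => ‖φ n x‖ₑ ^ p * u x := ((hφm n).enorm.pow_const p).mul hu
          have m3 : Measurable fun x => ‖f x‖ₑ ^ p * u x + ‖m‖ₑ ^ p * (‖φ n x‖ₑ ^ p * u x) :=
            m1.add (m2.const_mul _)
          rw [lintegral_const_mul _ m3, lintegral_add_left m1, lintegral_const_mul _ m2]
  have hRlim : Tendsto (fun n => C * (2 ^ p * ((∫⁻ x, ‖f x‖ₑ ^ p * u x) +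
      ‖m‖ₑ ^ p * ∫⁻ x, ‖φ n x‖ₑ ^ p * u x))) atTop
      (𝓝 (C * (2 ^ p * ((∫⁻ x, ‖f x‖ₑ ^ p * u x) + ‖m‖ₑ ^ p * 0)))) := by
    refine ENNReal.Tendsto.const_mul ?_ (Or.inr hC)
    refine ENNReal.Tendsto.const_mul ?_
      (Or.inr (ENNReal.rpow_ne_top_of_nonneg hp0.le (by norm_num)))
    refine tendsto_const_nhds.add (ENNReal.Tendsto.const_mul hφ0 (Or.inr ?_))
    exact ENNReal.rpow_ne_top_of_nonneg hp0.le enorm_ne_top
  calc _ = ∫⁻ x in Ioo a' b', liminf (fun n => G n x) atTop := lintegral_congr_ae hlim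
    _ ≤ liminf (fun n => ∫⁻ x in Ioo a' b', G n x) atTop := lintegral_liminf_le hGm
    _ ≤ liminf (fun n => C * (2 ^ p * ((∫⁻ x, ‖f x‖ₑ ^ p * u x) +
          ‖m‖ₑ ^ p * ∫⁻ x, ‖φ n x‖ₑ ^ p * u x))) atTop :=
        liminf_le_liminf (Eventually.of_forall hGle)
    _ = _ := hRlim.liminf_eq
    _ = _ := by
        rw [mul_zero, add_zero]
        ring

lemma min_bound {p : ℝ} (hp : 1 < p) (w k : ℝ≥0∞) (hk : k ≠ ∞) :
    min (w ^ (-1 / (p - 1))) k ^ p * w ≤ min (w ^ (-1 / (p - 1))) k := by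
  have hp0 : 0 < p := by linarith
  have hp1 : 0 < p - 1 := by linarith
  set s := w ^ (-1 / (p - 1)) with hs
  have h8 : min s k ^ p = min s k * min s k ^ (p - 1) := by
    have hnt : min s k ≠ ∞ := ((min_le_right _ _).trans_lt hk.lt_top).ne
    rcases eq_or_ne (min s k) 0 with h0 | h0
    · rw [h0, ENNReal.zero_rpow_of_pos hp0, zero_mul]
    · conv_rhs => rw [← ENNReal.rpow_one (min s k)]
      rw [← ENNReal.rpow_mul, ← ENNReal.rpow_add _ _ h0 hnt]
      congr 1; ring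
  have h9 : s ^ (p - 1) = w⁻¹ := by
    rw [hs, ← ENNReal.rpow_mul, div_mul_cancel₀ _ hp1.ne', ENNReal.rpow_neg_one]
  calc min s k ^ p * w = min s k * (min s k ^ (p - 1) * w) := by rw [h8, mul_assoc]
    _ ≤ min s k * (s ^ (p - 1) * w) := by
        gcongr
        exact min_le_left _ _
    _ ≤ min s k * 1 := by
        gcongr
        rw [h9]
        exact ENNReal.inv_mul_le_one _
    _ = _ := mul_one _

/-- functions of mass one with small norm -/
lemma moll {p : ℝ} (hp : 1 < p) {u : ℝ → ℝ≥0∞} (hu : Measurable u) {S : Set ℝ}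
    (hS : MeasurableSet S) (hSv : volume S ≠ ∞) {M : ℝ≥0∞}
    (hM : M < ∫⁻ x in S, u x ^ (-1 / (p - 1))) :
    ∃ φ : ℝ → ℝ, Measurable φ ∧ Integrable φ ∧ (∀ x, 0 ≤ φ x) ∧ (∀ x, x ∉ S → φ x = 0) ∧
      ∫ x, φ x = 1 ∧ ∫⁻ x, ‖φ x‖ₑ ^ p * u x ≤ (M ^ (p - 1))⁻¹ := by
  have hp0 : 0 < p := by linarith
  have hp1 : 0 < p - 1 := by linarith
  set σ : ℝ → ℝ≥0∞ := fun x => u x ^ (-1 / (p - 1)) with hσ
  have hσm : Measurable σ := hu.pow_const _
  have hlim : Tendsto (fun k : ℕ => ∫⁻ x in S, min (σ x) (k:ℝ≥0∞)) atTop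
      (𝓝 (∫⁻ x in S, σ x)) := by
    refine lintegral_tendsto_of_tendsto_of_monotone
      (fun k => (hσm.min measurable_const).aemeasurable) ?_ ?_
    · refine Eventually.of_forall fun x => ?_
      intro m n hmn
      exact min_le_min le_rfl (by exact_mod_cast hmn)
    · refine Eventually.of_forall fun x => ?_
      have h1 : Tendsto (fun k : ℕ => min (σ x) (k:ℝ≥0∞)) atTop (𝓝 (min (σ x) ∞)) :=
        tendsto_const_nhds.min ENNReal.tendsto_nat_nhds_top
      rwa [min_eq_left le_top] at h1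
  obtain ⟨k, hk⟩ := (hlim.eventually (lt_mem_nhds hM)).exists
  set m := ∫⁻ x in S, min (σ x) (k:ℝ≥0∞) with hm
  have hm0 : m ≠ 0 := (lt_of_le_of_lt (zero_le) hk).ne'
  have hmt : m ≠ ∞ := by
    have h5 : m ≤ ∫⁻ x in S, (k:ℝ≥0∞) := lintegral_mono fun x => min_le_right _ _
    rw [setLIntegral_const] at h5
    exact (h5.trans_lt (ENNReal.mul_lt_top (ENNReal.natCast_lt_top k) hSv.lt_top)).ne
  set ψ : ℝ → ℝ≥0∞ := fun x => S.indicator (fun x => min (σ x) (k:ℝ≥0∞)) x / m with hψ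
  have hψm : Measurable ψ := ((hσm.min measurable_const).indicator hS).div_const _
  have hψt : ∀ x, ψ x ≠ ∞ := by
    intro x
    have h1 : S.indicator (fun x => min (σ x) (k:ℝ≥0∞)) x ≤ k := by
      by_cases hx : x ∈ S
      · rw [indicator_of_mem hx]; exact min_le_right _ _
      · rw [indicator_of_notMem hx]; exact zero_le
    exact ENNReal.div_ne_top (h1.trans_lt (ENNReal.natCast_lt_top k)).ne hm0
  have hψ1 : ∫⁻ x, ψ x = 1 := by
    have e : ∫⁻ x, ψ x = (∫⁻ x, S.indicator (fun x => min (σ x) (k:ℝ≥0∞)) x) / m := by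
      rw [hψ]
      simp_rw [div_eq_mul_inv]
      rw [lintegral_mul_const _ ((hσm.min measurable_const).indicator hS)]
    rw [e, lintegral_indicator hS, ← hm, ENNReal.div_self hm0 hmt]
  have hen : ∀ x, ‖(ψ x).toReal‖ₑ = ψ x := by
    intro x
    rw [← ofReal_norm, Real.norm_eq_abs, abs_of_nonneg ENNReal.toReal_nonneg,
      ENNReal.ofReal_toReal (hψt x)]
  have hint : Integrable fun x => (ψ x).toReal := by
    refine ⟨hψm.ennreal_toReal.aestronglyMeasurable, ?_⟩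
    unfold HasFiniteIntegral
    simp_rw [hen]
    rw [hψ1]
    exact ENNReal.one_lt_top
  refine ⟨fun x => (ψ x).toReal, hψm.ennreal_toReal, hint, fun x => ENNReal.toReal_nonneg,
    fun x hx => ?_, ?_, ?_⟩
  · rw [hψ]
    simp only
    rw [indicator_of_notMem hx]
    simp
  · rw [integral_toReal hψm.aemeasurable (Eventually.of_forall fun x => (hψt x).lt_top), hψ1]
    simp
  · have h1 : ∀ x, ‖(ψ x).toReal‖ₑ ^ p * u x ≤
        (m ^ p)⁻¹ * S.indicator (fun x => min (σ x) (k:ℝ≥0∞)) x := by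
      intro x
      rw [hen x]
      rw [hψ]
      simp only
      rw [ENNReal.div_rpow_of_nonneg _ _ hp0.le, ENNReal.div_eq_inv_mul, mul_assoc]
      gcongr
      by_cases hx : x ∈ S
      · rw [indicator_of_mem hx]
        exact min_bound hp (u x) k (ENNReal.natCast_ne_top k)
      · rw [indicator_of_notMem hx, ENNReal.zero_rpow_of_pos hp0, zero_mul]
    calc ∫⁻ x, ‖(ψ x).toReal‖ₑ ^ p * u x
        ≤ ∫⁻ x, (m ^ p)⁻¹ * S.indicator (fun x => min (σ x) (k:ℝ≥0∞)) x := lintegral_mono h1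
      _ = (m ^ p)⁻¹ * m := by
          rw [lintegral_const_mul _ ((hσm.min measurable_const).indicator hS),
            lintegral_indicator hS]
      _ = (m ^ (p - 1))⁻¹ := by
          rw [← ENNReal.rpow_neg, ← ENNReal.rpow_neg]
          nth_rewrite 2 [← ENNReal.rpow_one m]
          rw [← ENNReal.rpow_add _ _ hm0 hmt]
          congr 1; ring
      _ ≤ (M ^ (p - 1))⁻¹ := by
          apply ENNReal.inv_le_inv.2
          exact ENNReal.rpow_le_rpow hk.le hp1.le

/-- the mean of the kernel against a function of mass one -/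
lemma mean_close {φ : ℝ → ℝ} (hφi : Integrable φ) (hφ0 : ∀ x, 0 ≤ φ x) (hφ1 : ∫ x, φ x = 1)
    {x κ ε : ℝ} (hi : Integrable fun y => φ y / (x - y))
    (h : ∀ y, φ y ≠ 0 → |1 / (x - y) - κ| ≤ ε) : |(∫ y, φ y / (x - y)) - κ| ≤ ε := by
  have e : (∫ y, φ y / (x - y)) - κ = ∫ y, φ y * (1 / (x - y) - κ) := by
    have e1 : ∀ y, φ y * (1 / (x - y) - κ) = φ y / (x - y) - φ y * κ := by
      intro y; ring
    simp_rw [e1]
    rw [integral_sub hi (hφi.mul_const κ), integral_mul_const, hφ1, one_mul]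
  rw [e, ← Real.norm_eq_abs]
  have h1 : ‖∫ y, φ y * (1 / (x - y) - κ)‖ ≤ ∫ y, φ y * ε := by
    refine norm_integral_le_of_norm_le (hφi.mul_const ε) (Eventually.of_forall fun y => ?_)
    rw [norm_mul, Real.norm_eq_abs, Real.norm_eq_abs, abs_of_nonneg (hφ0 y)]
    rcases eq_or_ne (φ y) 0 with h0 | h0
    · rw [h0]; simp
    · have := hφ0 y
      gcongr
      exact h y h0
  rwa [integral_mul_const, hφ1, one_mul] at h1

lemma inv_pow_lim {p : ℝ} (hp : 1 < p) :
    Tendsto (fun n : ℕ => (((n:ℝ≥0∞)) ^ (p - 1))⁻¹) atTop (𝓝 0) := by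
  have hp1 : 0 < p - 1 := by linarith
  rw [← ENNReal.inv_top]
  refine tendsto_inv_iff.2 ?_
  have h1 := (ENNReal.continuous_rpow_const (y := p - 1)).tendsto ∞
  rw [ENNReal.top_rpow_of_pos hp1] at h1
  exact h1.comp ENNReal.tendsto_nat_nhds_top

/-- mass at infinity -/
theorem claimA {p : ℝ} (hp : 1 < p) {u : ℝ → ℝ≥0∞} (hu : Measurable u)
    (hut : ∀ x, u x ≠ ∞) {C : ℝ≥0∞} (hC : C ≠ ∞) (hA : AdmR p u C)
    (hloc : ∀ a b : ℝ, ∫⁻ x in Ioo a b, u x ^ (-1 / (p - 1)) ≠ ∞)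
    (hinf : ∫⁻ x, u x ^ (-1 / (p - 1)) = ∞) : Claim p u (fun _ => 0) (2 ^ p * C) := by
  have hp1 : 0 < p - 1 := by linarith
  set σ : ℝ → ℝ≥0∞ := fun x => u x ^ (-1 / (p - 1)) with hσ
  have hσm : Measurable σ := hu.pow_const _
  -- the sets
  have hex : ∀ n : ℕ, ∃ R : ℕ, (n:ℝ≥0∞) <
      ∫⁻ x in Ioo (-(R:ℝ)) R \ Ioo (-((n:ℝ) + 1)) (n + 1), σ x := by
    intro n
    have hcompl : ∫⁻ x in (Ioo (-((n:ℝ) + 1)) (n + 1))ᶜ, σ x = ∞ := by
      have h1 := lintegral_add_compl (μ := volume) σ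
        (measurableSet_Ioo (a := -((n:ℝ) + 1)) (b := n + 1))
      rw [hinf] at h1
      by_contra hcon
      exact ENNReal.add_ne_top.2 ⟨hloc _ _, hcon⟩ h1
    have hmono : Monotone fun R : ℕ => Ioo (-(R:ℝ)) R \ Ioo (-((n:ℝ) + 1)) (n + 1) := by
      intro r s hrs
      have : (r:ℝ) ≤ s := by exact_mod_cast hrs
      exact sdiff_subset_sdiff_left (Ioo_subset_Ioo (by linarith) this)
    have hU : (⋃ R : ℕ, Ioo (-(R:ℝ)) R \ Ioo (-((n:ℝ) + 1)) (n + 1)) =
        (Ioo (-((n:ℝ) + 1)) (n + 1))ᶜ := by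
      ext x
      simp only [mem_iUnion, Set.mem_sdiff, mem_compl_iff]
      constructor
      · rintro ⟨R, -, h⟩; exact h
      · intro h
        obtain ⟨R, hR⟩ := exists_nat_gt |x|
        exact ⟨R, abs_lt.1 hR, h⟩
    have h2 : (volume.withDensity σ) (⋃ R : ℕ, Ioo (-(R:ℝ)) R \ Ioo (-((n:ℝ) + 1)) (n + 1)) =
        ⨆ R : ℕ, (volume.withDensity σ) (Ioo (-(R:ℝ)) R \ Ioo (-((n:ℝ) + 1)) (n + 1)) :=
      hmono.measure_iUnion
    rw [hU, withDensity_apply _ measurableSet_Ioo.compl, hcompl] at h2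
    have h3 : (n:ℝ≥0∞) < ⨆ R : ℕ,
        (volume.withDensity σ) (Ioo (-(R:ℝ)) R \ Ioo (-((n:ℝ) + 1)) (n + 1)) := by
      rw [← h2]; exact ENNReal.natCast_lt_top n
    obtain ⟨R, hR⟩ := lt_iSup_iff.1 h3
    refine ⟨R, ?_⟩
    rwa [withDensity_apply _ (measurableSet_Ioo.diff measurableSet_Ioo)] at hR
  choose R hR using hex
  have hφ := fun n => moll hp hu (S := Ioo (-(R n:ℝ)) (R n) \ Ioo (-((n:ℝ) + 1)) (n + 1))
    (measurableSet_Ioo.diff measurableSet_Ioo)
    ((measure_mono sdiff_subset).trans_lt measure_Ioo_lt_top).ne (hR n)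
  choose φ hφm hφi hφ0 hφs hφ1 hφn using hφ
  have hfar : ∀ n, ∀ y, φ n y ≠ 0 → (n:ℝ) + 1 ≤ |y| := by
    intro n y hy
    by_contra hcon
    push Not at hcon
    apply hy
    apply hφs n y
    intro h
    exact h.2 (abs_lt.1 hcon)
  have hVφ : ∀ n : ℕ, ∀ x ∈ Ioo (-(n:ℝ)) n, ∃ r : ℝ, 0 < r ∧ ∀ y, |x - y| ≤ r → φ n y = 0 := by
    intro n x hx
    refine ⟨1 / 2, by norm_num, fun y hy => ?_⟩
    by_contra hcon
    have h1 := hfar n y hcon
    have h2 : |x| < n := abs_lt.2 hx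
    have h3 := abs_sub_abs_le_abs_sub y x
    rw [abs_sub_comm] at h3
    linarith
  refine claim_of_moll hp hu hut hC hA hφm hφi hφ1 (V := fun n => Ioo (-(n:ℝ)) n)
    (fun n => measurableSet_Ioo) hVφ ?_ ?_ ?_
  · refine Eventually.of_forall fun x => ?_
    obtain ⟨N, hN⟩ := exists_nat_gt |x|
    filter_upwards [eventually_ge_atTop N] with n hn
    have : (N:ℝ) ≤ n := by exact_mod_cast hn
    exact abs_lt.1 (by linarith)
  · refine Eventually.of_forall fun x => ?_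
    have h1 : Tendsto (fun n => ∫ y, φ n y / (x - y)) atTop (𝓝 0) := by
      obtain ⟨N, hN⟩ := exists_nat_gt |x|
      have h2 : Tendsto (fun n : ℕ => 1 / ((n:ℝ) + 1 - |x|)) atTop (𝓝 0) := by
        simp_rw [one_div]
        refine tendsto_inv_atTop_zero.comp ?_
        have h3 : Tendsto (fun n : ℕ => (n:ℝ)) atTop atTop := tendsto_natCast_atTop_atTop
        have h4 := tendsto_atTop_add_const_right _ (1 - |x|) h3
        refine h4.congr fun n => ?_
        ring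
      refine squeeze_zero_norm' ?_ h2
      filter_upwards [eventually_ge_atTop N] with n hn
      have hNn : (N:ℝ) ≤ n := by exact_mod_cast hn
      have hxV : x ∈ Ioo (-(n:ℝ)) n := abs_lt.1 (by linarith)
      obtain ⟨r, hr, hrs⟩ := hVφ n x hxV
      have h5 := mean_close (hφi n) (hφ0 n) (hφ1 n) (x := x) (κ := 0)
        (ε := 1 / ((n:ℝ) + 1 - |x|)) (int_off (hφi n) hr hrs) (fun y hy => by
          rw [sub_zero, abs_div, abs_one]
          have h6 := hfar n y hy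
          have h7 := abs_sub_abs_le_abs_sub y x
          rw [abs_sub_comm] at h7
          apply one_div_le_one_div_of_le
          · linarith
          · linarith)
      rwa [sub_zero] at h5
    have := (Complex.continuous_ofReal.tendsto 0).comp h1
    rw [Complex.ofReal_zero] at this
    exact this
  · exact tendsto_of_tendsto_of_tendsto_of_le_of_le tendsto_const_nhds (inv_pow_lim hp)
      (fun n => zero_le) hφn

/-- mass near a point -/
theorem claimB {p : ℝ} (hp : 1 < p) {u : ℝ → ℝ≥0∞} (hu : Measurable u)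
    (hut : ∀ x, u x ≠ ∞) {C : ℝ≥0∞} (hC : C ≠ ∞) (hA : AdmR p u C) {c : ℝ}
    (hinf : ∀ ε : ℝ, 0 < ε → ∫⁻ x in Ioo (c - ε) (c + ε), u x ^ (-1 / (p - 1)) = ∞) :
    Claim p u (fun x => (((x - c : ℝ) : ℂ))⁻¹) (2 ^ p * C) := by
  have hp1 : 0 < p - 1 := by linarith
  have hεp : ∀ n : ℕ, (0:ℝ) < 1 / ((n:ℝ) + 1) := fun n => by positivity
  have hφ := fun n : ℕ => moll hp hu (S := Ioo (c - 1 / ((n:ℝ) + 1)) (c + 1 / ((n:ℝ) + 1)))
    measurableSet_Ioo measure_Ioo_lt_top.ne (M := n) (by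
      rw [hinf _ (hεp n)]; exact ENNReal.natCast_lt_top n)
  choose φ hφm hφi hφ0 hφs hφ1 hφn using hφ
  have hnear : ∀ n, ∀ y, φ n y ≠ 0 → |y - c| < 1 / ((n:ℝ) + 1) := by
    intro n y hy
    by_contra hcon
    push Not at hcon
    apply hy
    apply hφs n y
    intro h
    have h1 : |y - c| < 1 / ((n:ℝ) + 1) := by
      rw [abs_lt]; constructor <;> linarith [h.1, h.2]
    linarith
  have hVφ : ∀ n : ℕ, ∀ x ∈ {x : ℝ | 1 / ((n:ℝ) + 1) < |x - c|},
      ∃ r : ℝ, 0 < r ∧ ∀ y, |x - y| ≤ r → φ n y = 0 := by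
    intro n x hx
    rw [mem_ofPred_eq] at hx
    refine ⟨(|x - c| - 1 / ((n:ℝ) + 1)) / 2, by linarith, fun y hy => ?_⟩
    by_contra hcon
    have h1 := hnear n y hcon
    have h2 := abs_sub_le x y c
    linarith
  refine claim_of_moll hp hu hut hC hA hφm hφi hφ1 (V := fun n => {x : ℝ | 1 / ((n:ℝ) + 1) < |x - c|})
    (fun n => measurableSet_lt measurable_const (by fun_prop)) hVφ ?_ ?_ ?_
  · have hne : ∀ᵐ x : ℝ, x ≠ c := by
      rw [ae_iff]; simp
    filter_upwards [hne] with x hx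
    obtain ⟨N, hN⟩ := exists_nat_one_div_lt (abs_pos.2 (sub_ne_zero.2 hx))
    filter_upwards [eventually_ge_atTop N] with n hn
    refine lt_of_le_of_lt ?_ hN
    have : (N:ℝ) ≤ n := by exact_mod_cast hn
    gcongr
  · have hne : ∀ᵐ x : ℝ, x ≠ c := by
      rw [ae_iff]; simp
    filter_upwards [hne] with x hx
    have hxc : 0 < |x - c| := abs_pos.2 (sub_ne_zero.2 hx)
    have h1 : Tendsto (fun n => ∫ y, φ n y / (x - y)) atTop (𝓝 (1 / (x - c))) := by
      obtain ⟨N, hN⟩ := exists_nat_one_div_lt hxc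
      have h0 : Tendsto (fun n : ℕ => 1 / ((n:ℝ) + 1)) atTop (𝓝 0) := tendsto_one_div_add_atTop_nhds_zero_nat
      have h2 : Tendsto (fun n : ℕ => (1 / ((n:ℝ) + 1)) / ((|x - c| - 1 / ((n:ℝ) + 1)) * |x - c|))
          atTop (𝓝 0) := by
        have h3 : Tendsto (fun n : ℕ => (|x - c| - 1 / ((n:ℝ) + 1)) * |x - c|) atTop
            (𝓝 ((|x - c| - 0) * |x - c|)) := (h0.const_sub _).mul_const _
        have h4 := h0.div h3 (by
          rw [sub_zero]
          positivity)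
        rwa [zero_div] at h4
      rw [tendsto_iff_norm_sub_tendsto_zero]
      refine squeeze_zero' (Eventually.of_forall fun n => norm_nonneg _) ?_ h2
      filter_upwards [eventually_ge_atTop N] with n hn
      have hNn : (N:ℝ) ≤ n := by exact_mod_cast hn
      have hxV : x ∈ {x : ℝ | 1 / ((n:ℝ) + 1) < |x - c|} := by
        rw [mem_ofPred_eq]
        refine lt_of_le_of_lt ?_ hN
        gcongr
      obtain ⟨r, hr, hrs⟩ := hVφ n x hxV
      rw [mem_ofPred_eq] at hxV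
      rw [Real.norm_eq_abs]
      refine mean_close (hφi n) (hφ0 n) (hφ1 n) (int_off (hφi n) hr hrs) (fun y hy => ?_)
      have h6 := hnear n y hy
      have h7 := abs_sub_le x y c
      have h8 : |x - c| - 1 / ((n:ℝ) + 1) ≤ |x - y| := by linarith
      have h9 : 0 < |x - c| - 1 / ((n:ℝ) + 1) := by linarith
      have h10 : 0 < |x - y| := by linarith
      have hxy : x - y ≠ 0 := abs_pos.1 h10
      have hxc' : x - c ≠ 0 := abs_pos.1 hxc
      have e : 1 / (x - y) - 1 / (x - c) = (y - c) / ((x - y) * (x - c)) := by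
        field_simp
        ring
      rw [e, abs_div, abs_mul]
      exact div_le_div₀ (hεp n).le h6.le (by positivity) (by gcongr)
    have h11 := (Complex.continuous_ofReal.tendsto _).comp h1
    rw [one_div, Complex.ofReal_inv] at h11
    exact h11
  · exact tendsto_of_tendsto_of_tendsto_of_le_of_le tendsto_const_nhds (inv_pow_lim hp)
      (fun n => zero_le) hφn

end Pool.Agent.P8H66.WT
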