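import Pool.Agent.P8H66.WT.T

/-! # Necessity: from the testing inequality to the `A_p` bound -/

set_option autoImplicit false

open MeasureTheory Filter Topology Set
open scoped ENNReal NNReal Real

namespace Pool.Agent.P8H66.WT

open Pool.Dav

/-- the testing constant -/
noncomputable def DD (p : ℝ) (C : ℝ≥0∞) : ℝ≥0∞ := 2 * 2 ^ p * ENNReal.ofReal (2 * π) ^ p * C

lemma DD_net {p : ℝ} (hp : 1 < p) {C : ℝ≥0∞} (hC : C ≠ ∞) : DD p C ≠ ∞ := by
  have hp0 : 0 ≤ p := by linarith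
  unfold DD
  refine ENNReal.mul_ne_top (ENNReal.mul_ne_top (ENNReal.mul_ne_top (by norm_num) ?_) ?_) hC
  · exact ENNReal.rpow_ne_top_of_nonneg hp0 (by norm_num)
  · exact ENNReal.rpow_ne_top_of_nonneg hp0 ENNReal.ofReal_ne_top

lemma limit_le {A B : ℝ≥0∞} {s : ℕ → ℝ≥0∞} {S : ℝ≥0∞} (hs : Tendsto s atTop (𝓝 S)) {q : ℝ}
    (hq : 0 < q) (h : ∀ k, A * s k ^ q ≤ B) : A * S ^ q ≤ B := by
  rcases eq_or_ne S 0 with h0 | h0
  · rw [h0, ENNReal.zero_rpow_of_pos hq, mul_zero]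
    exact zero_le
  · have h1 : Tendsto (fun k => s k ^ q) atTop (𝓝 (S ^ q)) :=
      (ENNReal.continuous_rpow_const.tendsto _).comp hs
    have h2 : Tendsto (fun k => A * s k ^ q) atTop (𝓝 (A * S ^ q)) := by
      refine ENNReal.Tendsto.const_mul h1 (Or.inl ?_)
      rw [Ne, ENNReal.rpow_eq_zero_iff]
      rintro (⟨h3, -⟩ | ⟨-, h3⟩)
      · exact h0 h3
      · linarith
    exact le_of_tendsto' h2 h

/-- the testing lemma for all functions -/
lemma test2 {p : ℝ} (hp : 1 < p) {u : ℝ → ℝ≥0∞} (hu : Measurable u) {κ θ : ℝ → ℂ}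
    (hθm : Measurable θ) (hκm : Measurable κ)
    (hθ : ∀ x y : ℝ, x ≠ y → θ x ≠ 0 → ((x - y : ℝ) : ℂ)⁻¹ - κ x = θ y / (θ x * ((x - y : ℝ) : ℂ)))
    (hθ0 : ∀ᵐ x : ℝ, θ x ≠ 0) {C : ℝ≥0∞} (hC : Claim p u κ C) {a b a' b' ℓ : ℝ} (hℓ : 0 < ℓ)
    (hd : Disjoint (Ioo a b) (Ioo a' b'))
    (hxy : (∀ x ∈ Ioo a' b', ∀ y ∈ Ioo a b, 0 < x - y ∧ x - y ≤ 2 * ℓ) ∨
      (∀ x ∈ Ioo a' b', ∀ y ∈ Ioo a b, 0 < y - x ∧ y - x ≤ 2 * ℓ))
    {g : ℝ → ℝ≥0∞} (hgm : Measurable g) :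
    (∫⁻ x in Ioo a' b', u x / ‖θ x‖ₑ ^ p) * (∫⁻ x in Ioo a b, g x) ^ p ≤
      DD p C * ENNReal.ofReal ℓ ^ p * ∫⁻ x in Ioo a b, g x ^ p * (u x / ‖θ x‖ₑ ^ p) := by
  have hp0 : 0 < p := by linarith
  set S : ℕ → Set ℝ := fun k => Ioo a b ∩ {x | 1 / ((k:ℝ) + 1) ≤ ‖θ x‖} with hS
  have hSm : ∀ k, MeasurableSet (S k) := fun k =>
    measurableSet_Ioo.inter (measurableSet_le measurable_const hθm.norm)
  set G : ℕ → ℝ → ℝ≥0∞ := fun k => (S k).indicator fun x => min (g x) k with hG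
  have hGm : ∀ k, Measurable (G k) := fun k => (hgm.min measurable_const).indicator (hSm k)
  have hGt : ∀ k x, G k x ≤ k := by
    intro k x
    rw [hG]; simp only
    by_cases hx : x ∈ S k
    · rw [indicator_of_mem hx]; exact min_le_right _ _
    · rw [indicator_of_notMem hx]; exact zero_le
  have hGt' : ∀ k x, G k x ≠ ∞ := fun k x => ((hGt k x).trans_lt (ENNReal.natCast_lt_top k)).ne
  have hGg : ∀ k x, G k x ≤ (Ioo a b).indicator g x := by
    intro k x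
    rw [hG]; simp only
    by_cases hx : x ∈ S k
    · rw [indicator_of_mem hx, indicator_of_mem hx.1]; exact min_le_left _ _
    · rw [indicator_of_notMem hx]; exact zero_le
  have hlim : Tendsto (fun k => ∫⁻ x, G k x) atTop (𝓝 (∫⁻ x, (Ioo a b).indicator g x)) := by
    refine lintegral_tendsto_of_tendsto_of_monotone (fun k => (hGm k).aemeasurable) ?_ ?_
    · refine Eventually.of_forall fun x => ?_
      intro m n hmn
      rw [hG]; simp only
      by_cases hx : x ∈ S m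
      · have hx' : x ∈ S n := by
          have h5 : 1 / ((m:ℝ) + 1) ≤ ‖θ x‖ := hx.2
          have h6 : 1 / ((n:ℝ) + 1) ≤ ‖θ x‖ := by
            refine le_trans ?_ h5
            have : (m:ℝ) ≤ n := by exact_mod_cast hmn
            gcongr
          exact ⟨hx.1, h6⟩
        rw [indicator_of_mem hx, indicator_of_mem hx']
        exact min_le_min le_rfl (by exact_mod_cast hmn)
      · rw [indicator_of_notMem hx]; exact zero_le
    · filter_upwards [hθ0] with x hx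
      by_cases hxI : x ∈ Ioo a b
      · rw [indicator_of_mem hxI]
        have h1 : Tendsto (fun k : ℕ => min (g x) (k:ℝ≥0∞)) atTop (𝓝 (min (g x) ∞)) :=
          tendsto_const_nhds.min ENNReal.tendsto_nat_nhds_top
        rw [min_eq_left le_top] at h1
        refine h1.congr' ?_
        obtain ⟨N, hN⟩ := exists_nat_one_div_lt (norm_pos_iff.2 hx)
        filter_upwards [eventually_ge_atTop N] with k hk
        rw [hG]; simp only
        have h6 : 1 / ((k:ℝ) + 1) ≤ ‖θ x‖ := by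
          refine le_trans ?_ hN.le
          have : (N:ℝ) ≤ k := by exact_mod_cast hk
          gcongr
        have h7 : x ∈ S k := ⟨hxI, h6⟩
        rw [indicator_of_mem h7]
      · rw [indicator_of_notMem hxI]
        refine tendsto_const_nhds.congr fun k => ?_
        rw [hG]; simp only
        rw [indicator_of_notMem fun h => hxI h.1]
  rw [lintegral_indicator measurableSet_Ioo] at hlim
  refine limit_le hlim hp0 fun k => ?_
  have h1 := test1 hp hu hθm hκm hθ hθ0 hC hℓ hd hxy (g := fun x => (G k x).toReal)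
    (hGm k).ennreal_toReal (fun x => ENNReal.toReal_nonneg) (M := k)
    (fun x => by
      have := ENNReal.toReal_mono (ENNReal.natCast_ne_top k) (hGt k x)
      simpa using this) (e := 1 / ((k:ℝ) + 1)) (by positivity)
    (fun x hx => by
      have h5 : G k x = 0 := by
        have hx' : x ∉ S k := hx
        rw [hG]; simp only
        rw [indicator_of_notMem hx']
      rw [h5]
      simp)
  have h2 : ∀ x, ENNReal.ofReal ((G k x).toReal) = G k x := fun x => ENNReal.ofReal_toReal (hGt' k x)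
  simp_rw [h2] at h1
  refine h1.trans ?_
  unfold DD
  refine mul_le_mul' le_rfl ?_
  rw [← lintegral_indicator measurableSet_Ioo]
  refine lintegral_mono fun x => ?_
  by_cases hxI : x ∈ Ioo a b
  · rw [indicator_of_mem hxI]
    have h3 := hGg k x
    rw [indicator_of_mem hxI] at h3
    gcongr
  · rw [indicator_of_notMem hxI]
    have h3 := hGg k x
    rw [indicator_of_notMem hxI] at h3
    rw [nonpos_iff_eq_zero.1 h3, ENNReal.zero_rpow_of_pos hp0, zero_mul]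

/-- the `A_p` bound -/
theorem ap_bound {p : ℝ} (hp : 1 < p) {u : ℝ → ℝ≥0∞} (hu : Measurable u) {κ θ : ℝ → ℂ}
    (hθm : Measurable θ) (hκm : Measurable κ)
    (hθ : ∀ x y : ℝ, x ≠ y → θ x ≠ 0 → ((x - y : ℝ) : ℂ)⁻¹ - κ x = θ y / (θ x * ((x - y : ℝ) : ℂ)))
    (hθ0 : ∀ᵐ x : ℝ, θ x ≠ 0) {C : ℝ≥0∞} (hC : Claim p u κ C) {a b : ℝ} (hab : a < b) :
    (∫⁻ x in Ioo a b, u x / ‖θ x‖ₑ ^ p) *
      (∫⁻ x in Ioo a b, (u x / ‖θ x‖ₑ ^ p) ^ (-1 / (p - 1))) ^ (p - 1) ≤
      DD p C * DD p C * ENNReal.ofReal (b - a) ^ p := by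
  have hp0 : 0 < p := by linarith
  have hp1 : 0 < p - 1 := by linarith
  set w : ℝ → ℝ≥0∞ := fun x => u x / ‖θ x‖ₑ ^ p with hw
  have hwm : Measurable w := hu.div (hθm.enorm.pow_const _)
  set ℓ := b - a with hℓdef
  have hℓ : 0 < ℓ := by linarith
  set b' := b + ℓ with hb'
  have hd : Disjoint (Ioo a b) (Ioo b b') := by
    rw [Set.disjoint_left]
    intro x h1 h2
    linarith [h1.2, h2.1]
  have hxy1 : (∀ x ∈ Ioo b b', ∀ y ∈ Ioo a b, 0 < x - y ∧ x - y ≤ 2 * ℓ) ∨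
      (∀ x ∈ Ioo b b', ∀ y ∈ Ioo a b, 0 < y - x ∧ y - x ≤ 2 * ℓ) := by
    left
    intro x hx y hy
    constructor <;> linarith [hx.1, hx.2, hy.1, hy.2]
  have hxy2 : (∀ x ∈ Ioo a b, ∀ y ∈ Ioo b b', 0 < x - y ∧ x - y ≤ 2 * ℓ) ∨
      (∀ x ∈ Ioo a b, ∀ y ∈ Ioo b b', 0 < y - x ∧ y - x ≤ 2 * ℓ) := by
    right
    intro x hx y hy
    constructor <;> linarith [hx.1, hx.2, hy.1, hy.2]
  have hℓE : ENNReal.ofReal ℓ ^ p ≠ 0 := by
    rw [Ne, ENNReal.rpow_eq_zero_iff]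
    rintro (⟨h6, -⟩ | ⟨h6, -⟩)
    · rw [ENNReal.ofReal_eq_zero] at h6; linarith
    · exact ENNReal.ofReal_ne_top h6
  have hℓt : ENNReal.ofReal ℓ ^ p ≠ ∞ := ENNReal.rpow_ne_top_of_nonneg hp0.le ENNReal.ofReal_ne_top
  -- doubling from I' to I
  have h1 : ∫⁻ x in Ioo a b, w x ≤ DD p C * ∫⁻ x in Ioo b b', w x := by
    have h2 := test2 hp hu hθm hκm hθ hθ0 hC hℓ hd.symm hxy2 (g := fun _ => 1) measurable_const
    rw [setLIntegral_one, Real.volume_Ioo, show b' - b = ℓ by rw [hb']; ring] at h2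
    simp only [ENNReal.one_rpow, one_mul] at h2
    have h3 : (∫⁻ x in Ioo a b, w x) * ENNReal.ofReal ℓ ^ p ≤
        (DD p C * ∫⁻ x in Ioo b b', w x) * ENNReal.ofReal ℓ ^ p := by
      refine h2.trans (le_of_eq ?_)
      ring
    exact (ENNReal.mul_le_mul_iff_left hℓE hℓt).1 h3
  -- the dual bound
  have h4 : (∫⁻ x in Ioo b b', w x) * (∫⁻ x in Ioo a b, w x ^ (-1 / (p - 1))) ^ (p - 1) ≤
      DD p C * ENNReal.ofReal ℓ ^ p := by
    set σ : ℝ → ℝ≥0∞ := fun x => w x ^ (-1 / (p - 1)) with hσ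
    have hσm : Measurable σ := hwm.pow_const _
    have hlim : Tendsto (fun k : ℕ => ∫⁻ x in Ioo a b, min (σ x) (k:ℝ≥0∞)) atTop
        (𝓝 (∫⁻ x in Ioo a b, σ x)) := by
      refine lintegral_tendsto_of_tendsto_of_monotone
        (fun k => (hσm.min measurable_const).aemeasurable) ?_ ?_
      · refine Eventually.of_forall fun x => ?_
        intro m n hmn
        exact min_le_min le_rfl (by exact_mod_cast hmn)
      · refine Eventually.of_forall fun x => ?_
        have h1 : Tendsto (fun k : ℕ => min (σ x) (k:ℝ≥0∞)) atTop (𝓝 (min (σ x) ∞)) :=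
          tendsto_const_nhds.min ENNReal.tendsto_nat_nhds_top
        rwa [min_eq_left le_top] at h1
    refine limit_le hlim hp1 fun k => ?_
    set s := ∫⁻ x in Ioo a b, min (σ x) (k:ℝ≥0∞) with hs
    have hst : s ≠ ∞ := by
      have h5 : s ≤ ∫⁻ x in Ioo a b, (k:ℝ≥0∞) := lintegral_mono fun x => min_le_right _ _
      rw [setLIntegral_const, Real.volume_Ioo] at h5
      exact (h5.trans_lt (ENNReal.mul_lt_top (ENNReal.natCast_lt_top k) ENNReal.ofReal_lt_top)).ne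
    rcases eq_or_ne s 0 with hs0 | hs0
    · rw [hs0, ENNReal.zero_rpow_of_pos hp1, mul_zero]
      exact zero_le
    have h6 := test2 hp hu hθm hκm hθ hθ0 hC hℓ hd hxy1 (g := fun x => min (σ x) (k:ℝ≥0∞))
      (hσm.min measurable_const)
    have h7 : ∀ x, min (σ x) (k:ℝ≥0∞) ^ p * w x ≤ min (σ x) (k:ℝ≥0∞) := by
      intro x
      have h8 : min (σ x) (k:ℝ≥0∞) ^ p =
          min (σ x) (k:ℝ≥0∞) * min (σ x) (k:ℝ≥0∞) ^ (p - 1) := by
        have hnt : min (σ x) (k:ℝ≥0∞) ≠ ∞ :=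
          ((min_le_right _ _).trans_lt (ENNReal.natCast_lt_top k)).ne
        rcases eq_or_ne (min (σ x) (k:ℝ≥0∞)) 0 with h0 | h0
        · rw [h0, ENNReal.zero_rpow_of_pos hp0, zero_mul]
        · conv_rhs => rw [← ENNReal.rpow_one (min (σ x) (k:ℝ≥0∞))]
          rw [← ENNReal.rpow_mul, ← ENNReal.rpow_add _ _ h0 hnt]
          congr 1; ring
      have h9 : σ x ^ (p - 1) = (w x)⁻¹ := by
        rw [hσ]; simp only
        rw [← ENNReal.rpow_mul, div_mul_cancel₀ _ hp1.ne', ENNReal.rpow_neg_one]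
      calc min (σ x) (k:ℝ≥0∞) ^ p * w x
          = min (σ x) (k:ℝ≥0∞) * (min (σ x) (k:ℝ≥0∞) ^ (p - 1) * w x) := by rw [h8, mul_assoc]
        _ ≤ min (σ x) (k:ℝ≥0∞) * (σ x ^ (p - 1) * w x) := by
            gcongr
            exact min_le_left _ _
        _ ≤ min (σ x) (k:ℝ≥0∞) * 1 := by
            gcongr
            rw [h9]
            exact ENNReal.inv_mul_le_one _
        _ = _ := mul_one _
    have h10 : (∫⁻ x in Ioo b b', w x) * s ^ p ≤ DD p C * ENNReal.ofReal ℓ ^ p * s := by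
      refine h6.trans (mul_le_mul' le_rfl ?_)
      exact lintegral_mono fun x => h7 x
    have h11 : (∫⁻ x in Ioo b b', w x) * s ^ (p - 1) * s ≤ DD p C * ENNReal.ofReal ℓ ^ p * s := by
      refine le_trans (le_of_eq ?_) h10
      rw [mul_assoc]
      congr 1
      nth_rewrite 2 [← ENNReal.rpow_one s]
      rw [← ENNReal.rpow_add _ _ hs0 hst]
      congr 1; ring
    exact (ENNReal.mul_le_mul_iff_left hs0 hst).1 h11
  calc (∫⁻ x in Ioo a b, w x) * (∫⁻ x in Ioo a b, w x ^ (-1 / (p - 1))) ^ (p - 1)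
      ≤ (DD p C * ∫⁻ x in Ioo b b', w x) *
          (∫⁻ x in Ioo a b, w x ^ (-1 / (p - 1))) ^ (p - 1) := by gcongr
    _ = DD p C * ((∫⁻ x in Ioo b b', w x) *
          (∫⁻ x in Ioo a b, w x ^ (-1 / (p - 1))) ^ (p - 1)) := by ring
    _ ≤ DD p C * (DD p C * ENNReal.ofReal ℓ ^ p) := by gcongr
    _ = _ := by ring

end Pool.Agent.P8H66.WT
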