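import Pool.Agent.P8H66.WT.H

/-! # Sufficiency -/

set_option autoImplicit false

open MeasureTheory Filter Topology Set
open scoped ENNReal NNReal Real

namespace Pool.Agent.P8H66.WT

open Pool.Dav

lemma hilbert_eq {f : ℝ → ℂ} {x : ℝ} {v : ℂ} (h : HasHilbert f x v) : hilbert f x = v := by
  unfold hilbert
  rw [dif_pos ⟨v, h⟩]
  exact tendsto_nhds_unique (Exists.choose_spec (⟨v, h⟩ : ∃ v, HasHilbert f x v)) h

lemma hilbert_le_Hs {f : ℝ → ℂ} (hf : Integrable f) : ∀ᵐ x : ℝ, ‖hilbert f x‖ₑ ≤ Hs f x := by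
  filter_upwards [trunc_ae f hf] with x hx
  by_cases h : ∃ v, HasHilbert f x v
  · obtain ⟨v, hv⟩ := h
    rw [hilbert_eq hv]
    have h1 : Tendsto (fun δ : ℝ => QQ f δ x) (𝓝[>] (0 : ℝ)) (𝓝 v) := by
      have := hx.add hv
      simpa using this
    refine le_of_tendsto h1.enorm ?_
    filter_upwards [self_mem_nhdsWithin] with δ hδ
    exact le_Hs f hδ x
  · unfold hilbert
    rw [dif_neg h]
    simp

lemma trunc_int {f : ℝ → ℂ} (hf : Integrable f) {ε : ℝ} (hε : 0 < ε) (x : ℝ) :
    IntegrableOn (fun y => f y / ((x : ℂ) - (y : ℂ))) {y : ℝ | ε < |x - y|} := by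
  have hm : MeasurableSet {y : ℝ | ε < |x - y|} := measurableSet_lt measurable_const (by fun_prop)
  have h1 : Integrable (fun y => (fun y : ℝ => if ε < |x - y| then ((x : ℂ) - (y : ℂ))⁻¹ else 0) y *
      f y) := by
    refine hf.bdd_mul (c := ε⁻¹) ?_ ?_
    · refine (Measurable.ite hm ?_ measurable_const).aestronglyMeasurable
      fun_prop
    · refine Eventually.of_forall fun y => ?_
      split_ifs with h
      · rw [norm_inv, ← Complex.ofReal_sub, Complex.norm_real, Real.norm_eq_abs]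
        gcongr
      · rw [norm_zero]; positivity
  refine (h1.integrableOn (s := {y : ℝ | ε < |x - y|})).congr_fun ?_ hm
  intro y hy
  rw [mem_ofPred_eq] at hy
  simp only [if_pos hy]
  rw [div_eq_mul_inv, mul_comm]

/-- multiplication by an affine function, at a point where the principal value exists -/
lemma hasHilbert_mul {f : ℝ → ℂ} (hf : Integrable f) {α β : ℂ}
    (hθ : Integrable fun y : ℝ => (α * y + β) * f y) {x : ℝ} {v : ℂ} (h : HasHilbert f x v) :
    HasHilbert (fun y : ℝ => (α * y + β) * f y) x ((α * x + β) * v - α / π * ∫ y, f y) := by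
  unfold HasHilbert at h ⊢
  have hm : ∀ ε : ℝ, MeasurableSet {y : ℝ | ε < |x - y|} := fun ε =>
    measurableSet_lt measurable_const (by fun_prop)
  have h1 : Tendsto (fun ε : ℝ => ∫ y in {y : ℝ | ε < |x - y|}, f y) (𝓝[>] (0 : ℝ))
      (𝓝 (∫ y, f y)) := by
    have h2 : ∀ ε : ℝ, ∫ y in {y : ℝ | ε < |x - y|}, f y =
        ∫ y, {y : ℝ | ε < |x - y|}.indicator f y := fun ε => (integral_indicator (hm ε)).symm
    simp_rw [h2]
    refine tendsto_integral_filter_of_dominated_convergence (fun y => ‖f y‖) ?_ ?_ hf.norm ?_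
    · exact Eventually.of_forall fun ε => hf.1.indicator (hm ε)
    · exact Eventually.of_forall fun ε => Eventually.of_forall fun y =>
        norm_indicator_le_norm_self _ _
    · have hne : ∀ᵐ y : ℝ, y ≠ x := by
        rw [ae_iff]
        simp
      filter_upwards [hne] with y hy
      refine tendsto_const_nhds.congr' ?_
      have h3 : 0 < |x - y| := abs_pos.2 (sub_ne_zero.2 (Ne.symm hy))
      filter_upwards [nhdsWithin_le_nhds (Iio_mem_nhds h3)] with ε hε
      rw [indicator_of_mem]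
      exact hε
  refine Tendsto.congr' ?_ ((h.const_mul (α * x + β)).sub (h1.const_mul (α / π)))
  filter_upwards [self_mem_nhdsWithin] with ε hε
  rw [mem_Ioi] at hε
  unfold truncH
  have h4 : ∫ y in {y : ℝ | ε < |x - y|}, (α * y + β) * f y / ((x : ℂ) - (y : ℂ)) =
      (α * x + β) * (∫ y in {y : ℝ | ε < |x - y|}, f y / ((x : ℂ) - (y : ℂ))) -
        α * ∫ y in {y : ℝ | ε < |x - y|}, f y := by
    rw [← integral_const_mul, ← integral_const_mul, ← integral_sub
      ((trunc_int hf hε x).const_mul _) (hf.integrableOn.const_mul _)]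
    refine setIntegral_congr_fun (hm ε) fun y hy => ?_
    have h5 : (x : ℂ) - (y : ℂ) ≠ 0 := by
      rw [← Complex.ofReal_sub, Ne, Complex.ofReal_eq_zero]
      intro h6
      rw [mem_ofPred_eq, h6, abs_zero] at hy
      linarith
    field_simp
    ring
  rw [h4]
  ring

/-- truncation of the function far away -/
lemma hasHilbert_trunc {f : ℝ → ℂ} (hf : Integrable f) {x : ℝ} {v : ℂ} (h : HasHilbert f x v)
    {n : ℝ} (hn : |x| < n) :
    HasHilbert ((Ioo (-n) n).indicator f) x
      (v - 1 / π * ∫ y in (Ioo (-n) n)ᶜ, f y / ((x : ℂ) - (y : ℂ))) := by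
  unfold HasHilbert at h ⊢
  refine Tendsto.congr' ?_ (h.sub tendsto_const_nhds)
  have h1 : 0 < n - |x| := by linarith
  filter_upwards [self_mem_nhdsWithin, nhdsWithin_le_nhds (Iio_mem_nhds h1)] with ε hε hε2
  rw [mem_Ioi] at hε
  rw [mem_Iio] at hε2
  unfold truncH
  rw [← mul_sub]
  congr 1
  have hm : MeasurableSet {y : ℝ | ε < |x - y|} := measurableSet_lt measurable_const (by fun_prop)
  have hsub : (Ioo (-n) n)ᶜ ⊆ {y : ℝ | ε < |x - y|} := by
    intro y hy
    rw [mem_ofPred_eq]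
    by_contra hcon
    push Not at hcon
    apply hy
    have h2 : |y| < n := by
      have h3 := abs_sub_abs_le_abs_sub y x
      rw [abs_sub_comm] at h3
      linarith
    exact abs_lt.1 h2
  have h3 : ∫ y in {y : ℝ | ε < |x - y|}, f y / ((x : ℂ) - (y : ℂ)) =
      (∫ y in {y : ℝ | ε < |x - y|} ∩ (Ioo (-n) n), f y / ((x : ℂ) - (y : ℂ))) +
      ∫ y in {y : ℝ | ε < |x - y|} \ (Ioo (-n) n), f y / ((x : ℂ) - (y : ℂ)) :=
    (integral_inter_add_sdiff measurableSet_Ioo (trunc_int hf hε x)).symm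
  have h4 : {y : ℝ | ε < |x - y|} \ (Ioo (-n) n) = (Ioo (-n) n)ᶜ := by
    rw [sdiff_eq]
    exact inter_eq_right.2 hsub
  rw [h3, h4, add_sub_cancel_right]
  have h5 : ∀ y, (Ioo (-n) n).indicator f y / ((x : ℂ) - (y : ℂ)) =
      (Ioo (-n) n).indicator (fun y => f y / ((x : ℂ) - (y : ℂ))) y := by
    intro y
    by_cases hy : y ∈ Ioo (-n) n
    · rw [indicator_of_mem hy, indicator_of_mem hy]
    · rw [indicator_of_notMem hy, indicator_of_notMem hy, zero_div]
  simp_rw [h5]
  rw [setIntegral_indicator measurableSet_Ioo]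

lemma tail_lim {f : ℝ → ℂ} (hf : Integrable f) (x : ℝ) :
    Tendsto (fun n : ℕ => ∫ y in (Ioo (-(n:ℝ)) n)ᶜ, f y / ((x : ℂ) - (y : ℂ))) atTop (𝓝 0) := by
  have hm : ∀ n : ℕ, MeasurableSet (Ioo (-(n:ℝ)) n)ᶜ := fun n => measurableSet_Ioo.compl
  have h1 : ∀ n : ℕ, ∫ y in (Ioo (-(n:ℝ)) n)ᶜ, f y / ((x : ℂ) - (y : ℂ)) =
      ∫ y, (Ioo (-(n:ℝ)) n)ᶜ.indicator (fun y => f y / ((x : ℂ) - (y : ℂ))) y := fun n =>
    (integral_indicator (hm n)).symm
  simp_rw [h1]
  have h0 : ∫ _y : ℝ, (0:ℂ) = 0 := by simp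
  rw [← h0]
  have hdm : Measurable fun y : ℝ => ((x : ℂ) - (y : ℂ)) := by fun_prop
  refine tendsto_integral_filter_of_dominated_convergence (fun y => ‖f y‖) ?_ ?_ hf.norm ?_
  · exact Eventually.of_forall fun n =>
      (hf.1.aemeasurable.div hdm.aemeasurable).aestronglyMeasurable.indicator (hm n)
  · obtain ⟨N, hN⟩ := exists_nat_ge (|x| + 1)
    filter_upwards [eventually_ge_atTop N] with n hn
    refine Eventually.of_forall fun y => ?_
    by_cases hy : y ∈ (Ioo (-(n:ℝ)) n)ᶜ
    · rw [indicator_of_mem hy, norm_div]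
      have h2 : 1 ≤ ‖(x : ℂ) - (y : ℂ)‖ := by
        rw [← Complex.ofReal_sub, Complex.norm_real, Real.norm_eq_abs]
        have h3 : (n:ℝ) ≤ |y| := by
          by_contra hcon
          push Not at hcon
          exact hy (abs_lt.1 hcon)
        have h4 : (N:ℝ) ≤ n := by exact_mod_cast hn
        have h5 := abs_sub_abs_le_abs_sub y x
        rw [abs_sub_comm] at h5
        linarith
      exact div_le_self (norm_nonneg _) h2
    · rw [indicator_of_notMem hy, norm_zero]
      exact norm_nonneg _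
  · refine Eventually.of_forall fun y => ?_
    refine tendsto_const_nhds.congr' ?_
    obtain ⟨N, hN⟩ := exists_nat_gt |y|
    filter_upwards [eventually_ge_atTop N] with n hn
    rw [indicator_of_notMem]
    rw [notMem_compl_iff]
    have h4 : (N:ℝ) ≤ n := by exact_mod_cast hn
    exact abs_lt.1 (by linarith)

/-- pointwise limit of the truncated problem -/
lemma hilbert_lim {f : ℝ → ℂ} (hf : Integrable f) (hf0 : ∫ y, f y = 0) {α β : ℂ} {x : ℝ} {v : ℂ}
    (h : HasHilbert f x v) :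
    Tendsto (fun n : ℕ => hilbert (fun y : ℝ => (α * y + β) * (Ioo (-(n:ℝ)) n).indicator f y) x)
      atTop (𝓝 ((α * x + β) * v)) := by
  have hint : ∀ n : ℕ, Integrable ((Ioo (-(n:ℝ)) n).indicator f) := fun n =>
    hf.indicator measurableSet_Ioo
  have hθ : ∀ n : ℕ, Integrable fun y : ℝ => (α * y + β) * (Ioo (-(n:ℝ)) n).indicator f y := by
    intro n
    have h1 : Integrable (fun y : ℝ => (Ioo (-(n:ℝ)) n).indicator (fun y : ℝ => α * y + β) y *
        (Ioo (-(n:ℝ)) n).indicator f y) := by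
      refine (hint n).bdd_mul (c := ‖α‖ * n + ‖β‖) ?_ ?_
      · refine (Measurable.indicator ?_ measurableSet_Ioo).aestronglyMeasurable
        fun_prop
      · refine Eventually.of_forall fun y => ?_
        by_cases hy : y ∈ Ioo (-(n:ℝ)) n
        · rw [indicator_of_mem hy]
          refine (norm_add_le _ _).trans ?_
          rw [norm_mul, Complex.norm_real, Real.norm_eq_abs]
          have h2 : |y| ≤ n := (abs_lt.2 hy).le
          gcongr
        · rw [indicator_of_notMem hy, norm_zero]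
          positivity
    refine h1.congr (Eventually.of_forall fun y => ?_)
    by_cases hy : y ∈ Ioo (-(n:ℝ)) n
    · simp only [indicator_of_mem hy]
    · simp only [indicator_of_notMem hy, mul_zero]
  have hI : Tendsto (fun n : ℕ => ∫ y, (Ioo (-(n:ℝ)) n).indicator f y) atTop (𝓝 (∫ y, f y)) := by
    refine tendsto_integral_filter_of_dominated_convergence (fun y => ‖f y‖) ?_ ?_ hf.norm ?_
    · exact Eventually.of_forall fun n => (hint n).1
    · exact Eventually.of_forall fun n => Eventually.of_forall fun y =>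
        norm_indicator_le_norm_self _ _
    · refine Eventually.of_forall fun y => ?_
      refine tendsto_const_nhds.congr' ?_
      obtain ⟨N, hN⟩ := exists_nat_gt |y|
      filter_upwards [eventually_ge_atTop N] with n hn
      rw [indicator_of_mem]
      have h4 : (N:ℝ) ≤ n := by exact_mod_cast hn
      exact abs_lt.1 (by linarith)
  have h2 := (((tail_lim hf x).const_mul (1 / (π:ℂ))).const_sub v).const_mul (α * x + β)
  have h3 := h2.sub (hI.const_mul (α / π))
  rw [hf0, mul_zero, mul_zero, sub_zero, sub_zero] at h3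
  refine h3.congr' ?_
  obtain ⟨N, hN⟩ := exists_nat_gt |x|
  filter_upwards [eventually_ge_atTop N] with n hn
  have h4 : (N:ℝ) ≤ n := by exact_mod_cast hn
  exact (hilbert_eq (hasHilbert_mul (hint n) (hθ n)
    (hasHilbert_trunc hf h (lt_of_lt_of_le hN h4)))).symm

lemma affine_integrable {f : ℝ → ℂ} (hf : Integrable f) (α β : ℂ) (n : ℕ) :
    Integrable fun y : ℝ => (α * y + β) * (Ioo (-(n:ℝ)) n).indicator f y := by
  have h1 : Integrable (fun y : ℝ => (Ioo (-(n:ℝ)) n).indicator (fun y : ℝ => α * y + β) y *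
      (Ioo (-(n:ℝ)) n).indicator f y) := by
    refine (hf.indicator measurableSet_Ioo).bdd_mul (c := ‖α‖ * n + ‖β‖) ?_ ?_
    · refine (Measurable.indicator ?_ measurableSet_Ioo).aestronglyMeasurable
      fun_prop
    · refine Eventually.of_forall fun y => ?_
      by_cases hy : y ∈ Ioo (-(n:ℝ)) n
      · rw [indicator_of_mem hy]
        refine (norm_add_le _ _).trans ?_
        rw [norm_mul, Complex.norm_real, Real.norm_eq_abs]
        have h2 : |y| ≤ n := (abs_lt.2 hy).le
        gcongr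
      · rw [indicator_of_notMem hy, norm_zero]
        positivity
  refine h1.congr (Eventually.of_forall fun y => ?_)
  by_cases hy : y ∈ Ioo (-(n:ℝ)) n
  · simp only [indicator_of_mem hy]
  · simp only [indicator_of_notMem hy, mul_zero]

lemma hilbert_congr {f g : ℝ → ℂ} (h : f =ᵐ[volume] g) (x : ℝ) : hilbert f x = hilbert g x := by
  have h1 : ∀ ε, truncH f ε x = truncH g ε x := by
    intro ε
    unfold truncH
    congr 1
    refine integral_congr_ae (ae_restrict_of_ae ?_)
    filter_upwards [h] with y hy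
    rw [hy]
  have h2 : ∀ v, HasHilbert f x v ↔ HasHilbert g x v := by
    intro v
    unfold HasHilbert
    simp_rw [h1]
  unfold hilbert
  have h3 : (fun v => HasHilbert f x v) = fun v => HasHilbert g x v := funext fun v => propext (h2 v)
  by_cases h4 : ∃ v, HasHilbert f x v
  · obtain ⟨v, hv⟩ := h4
    rw [dif_pos ⟨v, hv⟩, dif_pos ⟨v, (h2 v).1 hv⟩]
    have e1 := tendsto_nhds_unique (Exists.choose_spec (⟨v, hv⟩ : ∃ v, HasHilbert f x v)) hv
    have hg : HasHilbert g x v := (h2 v).1 hv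
    have e2 := tendsto_nhds_unique (Exists.choose_spec (⟨v, hg⟩ : ∃ v, HasHilbert g x v)) hg
    rw [e1, e2]
  · rw [dif_neg h4, dif_neg]
    rintro ⟨v, hv⟩
    exact h4 ⟨v, (h2 v).2 hv⟩

/-- **sufficiency** -/
theorem suff (p : ℝ) (hp : 1 < p) (K : ℝ≥0) : ∃ C : ℝ≥0, ∀ w : ℝ → ℝ≥0∞, Ap p K w →
    ∀ α β : ℂ, ∀ u : ℝ → ℝ≥0∞, (∀ᵐ x : ℝ, u x = ‖α * x + β‖ₑ ^ p * w x) →
    ∀ f : ℝ → ℂ, Integrable f → ∫ y, f y = 0 →
      ∫⁻ x, ‖hilbert f x‖ₑ ^ p * u x ≤ C * ∫⁻ x, ‖f x‖ₑ ^ p * u x := by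
  have hp0 : 0 < p := by linarith
  obtain ⟨C, hC⟩ := hmw p hp K
  refine ⟨C, fun w h α β u hu f0 hf0 hf00 => ?_⟩
  -- a measurable representative
  obtain ⟨f, hfm, hff⟩ := hf0.1.aemeasurable
  have hf : Integrable f := hf0.congr hff
  have hfz : ∫ y, f y = 0 := by
    rw [← hf00]
    exact (integral_congr_ae hff).symm
  have e1 : ∫⁻ x, ‖f0 x‖ₑ ^ p * u x = ∫⁻ x, ‖f x‖ₑ ^ p * u x := by
    refine lintegral_congr_ae ?_
    filter_upwards [hff] with x hx
    rw [hx]
  have e2 : ∀ x, hilbert f0 x = hilbert f x := hilbert_congr hff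
  simp_rw [e2]
  rw [e1]
  set F : ℕ → ℝ → ℂ := fun n y => (α * y + β) * (Ioo (-(n:ℝ)) n).indicator f y with hF
  have hFi : ∀ n, Integrable (F n) := affine_integrable hf α β
  have hFm : ∀ n, Measurable (F n) := by
    intro n
    refine Measurable.mul (by fun_prop) (hfm.indicator measurableSet_Ioo)
  have hFs : ∀ n, ∃ R : ℝ, ∀ x, R < |x| → F n x = 0 := by
    intro n
    refine ⟨n, fun x hx => ?_⟩
    rw [hF]
    simp only
    rw [indicator_of_notMem, mul_zero]
    intro h1
    exact absurd (abs_lt.2 h1) (not_lt.2 hx.le)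
  have hae : ∀ᵐ x : ℝ, ∀ n, ‖hilbert (F n) x‖ₑ ≤ Hs (F n) x := by
    rw [ae_all_iff]
    exact fun n => hilbert_le_Hs (hFi n)
  have hpt : ∀ᵐ x : ℝ, ‖hilbert f x‖ₑ ^ p * u x ≤
      liminf (fun n => Hs (F n) x ^ p * w x) atTop := by
    filter_upwards [hae, hu] with x hx hux
    by_cases h1 : ∃ v, HasHilbert f x v
    · obtain ⟨v, hv⟩ := h1
      have h2 := hilbert_lim hf hfz (α := α) (β := β) hv
      have h3 : Tendsto (fun n => ‖hilbert (F n) x‖ₑ ^ p * w x) atTop
          (𝓝 (‖(α * x + β) * v‖ₑ ^ p * w x)) :=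
        ENNReal.Tendsto.mul_const ((ENNReal.continuous_rpow_const.tendsto _).comp h2.enorm)
          (Or.inr (h.net x))
      rw [hilbert_eq hv, hux]
      have h4 : ‖v‖ₑ ^ p * (‖α * x + β‖ₑ ^ p * w x) = ‖(α * x + β) * v‖ₑ ^ p * w x := by
        rw [enorm_mul, ENNReal.mul_rpow_of_nonneg _ _ hp0.le]
        ring
      rw [h4, ← h3.liminf_eq]
      refine liminf_le_liminf (Eventually.of_forall fun n => ?_)
      gcongr
      exact hx n
    · have h2 : hilbert f x = 0 := by
        unfold hilbert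
        rw [dif_neg h1]
      rw [h2, enorm_zero, ENNReal.zero_rpow_of_pos hp0, zero_mul]
      exact zero_le
  calc ∫⁻ x, ‖hilbert f x‖ₑ ^ p * u x
      ≤ ∫⁻ x, liminf (fun n => Hs (F n) x ^ p * w x) atTop := lintegral_mono_ae hpt
    _ ≤ liminf (fun n => ∫⁻ x, Hs (F n) x ^ p * w x) atTop :=
        lintegral_liminf_le fun n => ((measurable_Hs (hFi n)).pow_const _).mul h.meas
    _ ≤ C * ∫⁻ x, ‖f x‖ₑ ^ p * u x := by
        refine liminf_le_of_le (by isBoundedDefault) fun b hb => ?_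
        obtain ⟨n, hn⟩ := hb.exists
        refine hn.trans ((hC w h (F n) (hFm n) (hFi n) (hFs n)).trans ?_)
        refine mul_le_mul' le_rfl (lintegral_mono_ae ?_)
        filter_upwards [hu] with x hux
        rw [hux, hF]
        simp only
        rw [enorm_mul, ENNReal.mul_rpow_of_nonneg _ _ hp0.le]
        have h5 : ‖(Ioo (-(n:ℝ)) n).indicator f x‖ₑ ≤ ‖f x‖ₑ := by
          rw [enorm_indicator_eq_indicator_enorm]
          exact indicator_le_self _ _ _
        calc ‖α * x + β‖ₑ ^ p * ‖(Ioo (-(n:ℝ)) n).indicator f x‖ₑ ^ p * w x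
            ≤ ‖α * x + β‖ₑ ^ p * ‖f x‖ₑ ^ p * w x := by gcongr
          _ = _ := by ring

end Pool.Agent.P8H66.WT
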