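import Pool.Agent.P8H66.WT.S

/-! # Necessity: the operator off the support, and the testing lemma -/

set_option autoImplicit false

open MeasureTheory Filter Topology Set
open scoped ENNReal NNReal Real

namespace Pool.Agent.P8H66.WT

open Pool.Dav

/-- the Hilbert transform off the support -/
noncomputable def TT (h : ℝ → ℝ) (x : ℝ) : ℝ := (1 / π) * ∫ y, h y / (x - y)

lemma int_off {h : ℝ → ℝ} (hi : Integrable h) {x r : ℝ} (hr : 0 < r)
    (h0 : ∀ y, |x - y| ≤ r → h y = 0) : Integrable fun y => h y / (x - y) := by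
  have hm : MeasurableSet {y : ℝ | r < |x - y|} := measurableSet_lt measurable_const (by fun_prop)
  have h1 : Integrable (fun y => (fun y : ℝ => if r < |x - y| then (x - y)⁻¹ else 0) y * h y) := by
    refine hi.bdd_mul (c := r⁻¹) ?_ ?_
    · refine (Measurable.ite hm ?_ measurable_const).aestronglyMeasurable
      fun_prop
    · refine Eventually.of_forall fun y => ?_
      split_ifs with h
      · rw [norm_inv, Real.norm_eq_abs]
        gcongr
      · rw [norm_zero]; positivity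
  refine h1.congr (Eventually.of_forall fun y => ?_)
  simp only
  by_cases h : r < |x - y|
  · rw [if_pos h, div_eq_mul_inv, mul_comm]
  · rw [if_neg h, h0 y (not_lt.1 h)]
    simp

lemma hilbert_off {h : ℝ → ℝ} {x r : ℝ} (hr : 0 < r)
    (h0 : ∀ y, |x - y| ≤ r → h y = 0) : hilbert (fun y => (h y : ℂ)) x = (TT h x : ℂ) := by
  apply hilbert_eq
  unfold HasHilbert
  refine tendsto_const_nhds.congr' ?_
  filter_upwards [nhdsWithin_le_nhds (Iio_mem_nhds hr)] with ε hε
  rw [mem_Iio] at hε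
  unfold truncH TT
  have h1 : ∫ y in {y : ℝ | ε < |x - y|}, (h y : ℂ) / ((x : ℂ) - (y : ℂ)) =
      ∫ y, (h y : ℂ) / ((x : ℂ) - (y : ℂ)) := by
    apply setIntegral_eq_integral_of_forall_compl_eq_zero
    intro y hy
    rw [mem_ofPred_eq, not_lt] at hy
    rw [h0 y (by linarith)]
    simp
  rw [h1]
  push_cast
  congr 1
  rw [← integral_complex_ofReal]
  congr 1
  funext y
  push_cast
  rfl

lemma TT_meas {h : ℝ → ℝ} (hm : Measurable h) : Measurable (TT h) := by
  unfold TT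
  refine Measurable.const_mul ?_ _
  have h1 : StronglyMeasurable (Function.uncurry fun (x y : ℝ) => h y / (x - y)) := by
    apply Measurable.stronglyMeasurable
    exact (hm.comp measurable_snd).div (measurable_fst.sub measurable_snd)
  exact h1.integral_prod_right.measurable

/-- the testing inequality -/
def Claim (p : ℝ) (u : ℝ → ℝ≥0∞) (κ : ℝ → ℂ) (C : ℝ≥0∞) : Prop :=
  ∀ a b a' b' : ℝ, Disjoint (Ioo a b) (Ioo a' b') → ∀ f : ℝ → ℝ, Measurable f → Integrable f →
    (∀ x, x ∉ Ioo a b → f x = 0) →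
    ∫⁻ x in Ioo a' b', ‖(TT f x : ℂ) - (1 / π) * (∫ y, f y : ℝ) * κ x‖ₑ ^ p * u x ≤
      C * ∫⁻ x, ‖f x‖ₑ ^ p * u x

/-- a point of an open interval is at positive distance from a disjoint open interval -/
lemma sep {a b a' b' : ℝ} (hd : Disjoint (Ioo a b) (Ioo a' b')) {x : ℝ} (hx : x ∈ Ioo a' b') :
    ∃ r : ℝ, 0 < r ∧ ∀ y, |x - y| ≤ r → y ∉ Ioo a b := by
  refine ⟨min (x - a') (b' - x) / 2, ?_, fun y hy hyI => ?_⟩
  · have h1 : 0 < min (x - a') (b' - x) := lt_min (by linarith [hx.1]) (by linarith [hx.2])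
    linarith
  · have h1 : 0 < min (x - a') (b' - x) := lt_min (by linarith [hx.1]) (by linarith [hx.2])
    have h2 := min_le_left (x - a') (b' - x)
    have h3 := min_le_right (x - a') (b' - x)
    rw [abs_le] at hy
    exact Set.disjoint_left.1 hd hyI ⟨by linarith [hy.2], by linarith [hy.1]⟩

lemma bdd_int {f : ℝ → ℝ} (hm : Measurable f) {M : ℝ} (hM : ∀ x, |f x| ≤ M) {a b : ℝ}
    (h0 : ∀ x, x ∉ Ioo a b → f x = 0) : Integrable f := by
  have h0' : IntegrableOn (fun _ : ℝ => M) (Icc a b) := continuous_const.integrableOn_Icc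
  have h1 : IntegrableOn (fun _ : ℝ => M) (Ioo a b) := h0'.mono_set Ioo_subset_Icc_self
  have h2 : Integrable ((Ioo a b).indicator fun _ : ℝ => M) := by
    rwa [integrable_indicator_iff measurableSet_Ioo]
  refine h2.mono' hm.aestronglyMeasurable (Eventually.of_forall fun x => ?_)
  by_cases hx : x ∈ Ioo a b
  · rw [indicator_of_mem hx]
    exact hM x
  · rw [h0 x hx, norm_zero, indicator_of_notMem hx]

lemma pow_sum {p : ℝ} (hp : 1 < p) (a b : ℝ≥0∞) : (a + b) ^ p ≤ 2 ^ p * (a ^ p + b ^ p) := by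
  refine (ENNReal.rpow_add_le_mul_rpow_add_rpow a b hp.le).trans ?_
  gcongr
  · norm_num
  · linarith

/-- the testing lemma for bounded functions -/
lemma test1 {p : ℝ} (hp : 1 < p) {u : ℝ → ℝ≥0∞} (hu : Measurable u) {κ θ : ℝ → ℂ}
    (hθm : Measurable θ) (hκm : Measurable κ)
    (hθ : ∀ x y : ℝ, x ≠ y → θ x ≠ 0 → ((x - y : ℝ) : ℂ)⁻¹ - κ x = θ y / (θ x * ((x - y : ℝ) : ℂ)))
    (hθ0 : ∀ᵐ x : ℝ, θ x ≠ 0) {C : ℝ≥0∞} (hC : Claim p u κ C) {a b a' b' ℓ : ℝ} (hℓ : 0 < ℓ)
    (hd : Disjoint (Ioo a b) (Ioo a' b'))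
    (hxy : (∀ x ∈ Ioo a' b', ∀ y ∈ Ioo a b, 0 < x - y ∧ x - y ≤ 2 * ℓ) ∨
      (∀ x ∈ Ioo a' b', ∀ y ∈ Ioo a b, 0 < y - x ∧ y - x ≤ 2 * ℓ))
    {g : ℝ → ℝ} (hgm : Measurable g) (hg0 : ∀ x, 0 ≤ g x) {M : ℝ} (hgM : ∀ x, g x ≤ M)
    {e : ℝ} (he : 0 < e) (hgs : ∀ x, ¬ (x ∈ Ioo a b ∧ e ≤ ‖θ x‖) → g x = 0) :
    (∫⁻ x in Ioo a' b', u x / ‖θ x‖ₑ ^ p) * (∫⁻ x, ENNReal.ofReal (g x)) ^ p ≤
      (2 * 2 ^ p * ENNReal.ofReal (2 * π) ^ p * C) * ENNReal.ofReal ℓ ^ p *
        ∫⁻ x, ENNReal.ofReal (g x) ^ p * (u x / ‖θ x‖ₑ ^ p) := by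
  have hp0 : 0 < p := by linarith
  have hgI : ∀ x, x ∉ Ioo a b → g x = 0 := fun x hx => hgs x fun h => hx h.1
  set q : ℝ → ℂ := fun x => (g x : ℂ) / θ x with hq
  have hqm : Measurable q := (Complex.measurable_ofReal.comp hgm).div hθm
  have hq0 : ∀ x, x ∉ Ioo a b → q x = 0 := by
    intro x hx
    rw [hq]; simp only
    rw [hgI x hx]; simp
  have hM0 : 0 ≤ M := (hg0 0).trans (hgM 0)
  have hqb : ∀ x, ‖q x‖ ≤ M / e := by
    intro x
    by_cases hx : x ∈ Ioo a b ∧ e ≤ ‖θ x‖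
    · rw [hq]; simp only
      rw [norm_div, Complex.norm_real, Real.norm_eq_abs, abs_of_nonneg (hg0 x)]
      have := hx.2
      exact div_le_div₀ hM0 (hgM x) he this
    · rw [hq]; simp only
      rw [hgs x hx]
      simp
      positivity
  set f1 : ℝ → ℝ := fun x => (q x).re with hf1
  set f2 : ℝ → ℝ := fun x => (q x).im with hf2
  have hf1m : Measurable f1 := Complex.measurable_re.comp hqm
  have hf2m : Measurable f2 := Complex.measurable_im.comp hqm
  have hf1s : ∀ x, x ∉ Ioo a b → f1 x = 0 := by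
    intro x hx
    rw [hf1]; simp only
    rw [hq0 x hx]; simp
  have hf2s : ∀ x, x ∉ Ioo a b → f2 x = 0 := by
    intro x hx
    rw [hf2]; simp only
    rw [hq0 x hx]; simp
  have hf1i : Integrable f1 := bdd_int hf1m (M := M / e)
    (fun x => (Complex.abs_re_le_norm _).trans (hqb x)) hf1s
  have hf2i : Integrable f2 := bdd_int hf2m (M := M / e)
    (fun x => (Complex.abs_im_le_norm _).trans (hqb x)) hf2s
  have hgi : Integrable g := bdd_int hgm (M := M)
    (fun x => by rw [abs_of_nonneg (hg0 x)]; exact hgM x) hgI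
  set F1 : ℝ → ℂ := fun x => (TT f1 x : ℂ) - (1 / π) * (∫ y, f1 y : ℝ) * κ x with hF1
  set F2 : ℝ → ℂ := fun x => (TT f2 x : ℂ) - (1 / π) * (∫ y, f2 y : ℝ) * κ x with hF2
  have hF1m : Measurable F1 := by
    have := Complex.measurable_ofReal.comp (TT_meas hf1m)
    exact this.sub (hκm.const_mul _)
  have hF2m : Measurable F2 := by
    have := Complex.measurable_ofReal.comp (TT_meas hf2m)
    exact this.sub (hκm.const_mul _)
  have hc1 := hC a b a' b' hd f1 hf1m hf1i hf1s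
  have hc2 := hC a b a' b' hd f2 hf2m hf2i hf2s
  -- the bound for the components
  have hcomp : ∀ f : ℝ → ℝ, (∀ x, |f x| ≤ ‖q x‖) → ∫⁻ x, ‖f x‖ₑ ^ p * u x ≤
      ∫⁻ x, ENNReal.ofReal (g x) ^ p * (u x / ‖θ x‖ₑ ^ p) := by
    intro f hf
    refine lintegral_mono_ae ?_
    filter_upwards [hθ0] with x hx
    have h1 : ‖f x‖ₑ ≤ ‖q x‖ₑ := by
      rw [← ofReal_norm, ← ofReal_norm]
      exact ENNReal.ofReal_le_ofReal (hf x)
    have h2 : ‖q x‖ₑ ^ p = ENNReal.ofReal (g x) ^ p * (‖θ x‖ₑ ^ p)⁻¹ := by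
      rw [hq]; simp only
      rw [div_eq_mul_inv, enorm_mul, enorm_inv hx, ENNReal.mul_rpow_of_nonneg _ _ hp0.le,
        ENNReal.inv_rpow, ← ofReal_norm, Complex.norm_real, Real.norm_eq_abs,
        abs_of_nonneg (hg0 x)]
    calc ‖f x‖ₑ ^ p * u x ≤ ‖q x‖ₑ ^ p * u x := by gcongr
      _ = _ := by
          rw [h2, ENNReal.div_eq_inv_mul]
          ring
  have hb1 := hcomp f1 (fun x => Complex.abs_re_le_norm _)
  have hb2 := hcomp f2 (fun x => Complex.abs_im_le_norm _)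
  set J := ∫⁻ x, ENNReal.ofReal (g x) ^ p * (u x / ‖θ x‖ₑ ^ p) with hJ
  set G := ∫⁻ x, ENNReal.ofReal (g x) with hG
  -- the lower bound
  have hlow : ∀ x ∈ Ioo a' b', θ x ≠ 0 →
      (ENNReal.ofReal (1 / (2 * π * ℓ)) * G) ^ p * (u x / ‖θ x‖ₑ ^ p) ≤
        ‖F1 x + Complex.I * F2 x‖ₑ ^ p * u x := by
    intro x hx hθx
    obtain ⟨r, hr, hrs⟩ := sep hd hx
    have hi1 : Integrable fun y => f1 y / (x - y) :=
      int_off hf1i hr fun y hy => hf1s y (hrs y hy)
    have hi2 : Integrable fun y => f2 y / (x - y) :=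
      int_off hf2i hr fun y hy => hf2s y (hrs y hy)
    have hig : Integrable fun y => g y / (x - y) :=
      int_off hgi hr fun y hy => hgI y (hrs y hy)
    have hF : F1 x + Complex.I * F2 x = (1 / π) * ((θ x)⁻¹ * ((∫ y, g y / (x - y) : ℝ) : ℂ)) := by
      have e1 : F1 x + Complex.I * F2 x = (1 / π) * (((∫ y, f1 y / (x - y) : ℝ) : ℂ) +
          Complex.I * ((∫ y, f2 y / (x - y) : ℝ) : ℂ) -
          (((∫ y, f1 y : ℝ) : ℂ) + Complex.I * ((∫ y, f2 y : ℝ) : ℂ)) * κ x) := by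
        rw [hF1, hF2]
        simp only [TT]
        push_cast
        ring
      rw [e1]
      congr 1
      rw [← integral_complex_ofReal, ← integral_complex_ofReal, ← integral_complex_ofReal,
        ← integral_complex_ofReal, ← integral_complex_ofReal, ← integral_const_mul,
        ← integral_const_mul, ← integral_const_mul,
        ← integral_add hi1.ofReal (hi2.ofReal.const_mul _),
        ← integral_add hf1i.ofReal (hf2i.ofReal.const_mul _), ← integral_mul_const,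
        ← integral_sub (hi1.ofReal.add (hi2.ofReal.const_mul _))
          ((hf1i.ofReal.add (hf2i.ofReal.const_mul _)).mul_const _)]
      refine integral_congr_ae ?_
      filter_upwards [hθ0] with y hy
      by_cases hyI : y ∈ Ioo a b
      · have hxy' : x ≠ y := by
          rintro rfl
          exact hrs x (by simp [hr.le]) hyI
        have hxy0 : ((x - y : ℝ) : ℂ) ≠ 0 := by
          rw [Ne, Complex.ofReal_eq_zero]
          exact sub_ne_zero.2 hxy'
        have e2 : ((f1 y : ℝ) : ℂ) + Complex.I * ((f2 y : ℝ) : ℂ) = q y := by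
          rw [mul_comm]
          exact Complex.re_add_im _
        have e3 : (((f1 y / (x - y) : ℝ) : ℂ) + Complex.I * ((f2 y / (x - y) : ℝ) : ℂ)) =
            q y * ((x - y : ℝ) : ℂ)⁻¹ := by
          rw [← e2]
          push_cast
          ring
        rw [e3, e2, ← mul_sub, hθ x y hxy' hθx]
        rw [hq]
        simp only
        rw [Complex.ofReal_div]
        field_simp
      · rw [hf1s y hyI, hf2s y hyI, hgI y hyI]
        simp
    have hnorm : ENNReal.ofReal (1 / (2 * π * ℓ)) * G ≤ ‖θ x‖ₑ * ‖F1 x + Complex.I * F2 x‖ₑ := by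
      rw [hF, ← enorm_mul]
      have e4 : θ x * ((1 / π) * ((θ x)⁻¹ * ((∫ y, g y / (x - y) : ℝ) : ℂ))) =
          (((1 / π) * ∫ y, g y / (x - y) : ℝ) : ℂ) := by
        push_cast
        field_simp
      rw [e4, ← ofReal_norm, Complex.norm_real, Real.norm_eq_abs, abs_mul,
        abs_of_pos (by positivity : 0 < 1 / π)]
      have e5 : G = ENNReal.ofReal (∫ y, g y) :=
        (ofReal_integral_eq_lintegral_ofReal hgi (Eventually.of_forall hg0)).symm
      rw [e5, ← ENNReal.ofReal_mul (by positivity)]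
      apply ENNReal.ofReal_le_ofReal
      rw [show 1 / (2 * π * ℓ) * ∫ y, g y = 1 / π * (1 / (2 * ℓ) * ∫ y, g y) by
        field_simp]
      gcongr
      rw [← integral_const_mul]
      rcases hxy with hxy | hxy
      · refine le_trans ?_ (le_abs_self _)
        refine integral_mono (hgi.const_mul _) hig fun y => ?_
        by_cases hyI : y ∈ Ioo a b
        · obtain ⟨h1, h2⟩ := hxy x hx y hyI
          rw [one_div_mul_eq_div]
          exact div_le_div_of_nonneg_left (hg0 y) h1 h2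
        · simp only
          rw [hgI y hyI]; simp
      · refine le_trans ?_ (neg_le_abs _)
        rw [← integral_neg]
        refine integral_mono (hgi.const_mul _) hig.neg fun y => ?_
        by_cases hyI : y ∈ Ioo a b
        · obtain ⟨h1, h2⟩ := hxy x hx y hyI
          simp only [Pi.neg_apply]
          rw [one_div_mul_eq_div, ← div_neg, neg_sub]
          exact div_le_div_of_nonneg_left (hg0 y) h1 h2
        · simp only [Pi.neg_apply]
          rw [hgI y hyI]; simp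
    have hθe : ‖θ x‖ₑ ^ p ≠ 0 := by
      rw [Ne, ENNReal.rpow_eq_zero_iff]
      rintro (⟨h1, -⟩ | ⟨h1, -⟩)
      · exact hθx (enorm_eq_zero.1 h1)
      · exact enorm_ne_top h1
    have hθt : ‖θ x‖ₑ ^ p ≠ ∞ := ENNReal.rpow_ne_top_of_nonneg hp0.le enorm_ne_top
    calc (ENNReal.ofReal (1 / (2 * π * ℓ)) * G) ^ p * (u x / ‖θ x‖ₑ ^ p)
        ≤ (‖θ x‖ₑ * ‖F1 x + Complex.I * F2 x‖ₑ) ^ p * (u x / ‖θ x‖ₑ ^ p) := by gcongr
      _ = ‖F1 x + Complex.I * F2 x‖ₑ ^ p * (‖θ x‖ₑ ^ p * (u x / ‖θ x‖ₑ ^ p)) := by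
          rw [ENNReal.mul_rpow_of_nonneg _ _ hp0.le]
          ring
      _ = _ := by
          rw [ENNReal.mul_div_cancel hθe hθt]
  have hmain : (ENNReal.ofReal (1 / (2 * π * ℓ)) * G) ^ p *
      (∫⁻ x in Ioo a' b', u x / ‖θ x‖ₑ ^ p) ≤ 2 * 2 ^ p * C * J := by
    calc _ = ∫⁻ x in Ioo a' b', (ENNReal.ofReal (1 / (2 * π * ℓ)) * G) ^ p * (u x / ‖θ x‖ₑ ^ p) := by
          rw [lintegral_const_mul]
          exact hu.div (hθm.enorm.pow_const _)
      _ ≤ ∫⁻ x in Ioo a' b', ‖F1 x + Complex.I * F2 x‖ₑ ^ p * u x := by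
          refine lintegral_mono_ae ?_
          filter_upwards [ae_restrict_mem measurableSet_Ioo, ae_restrict_of_ae hθ0] with x hx hx0
          exact hlow x hx hx0
      _ ≤ ∫⁻ x in Ioo a' b', 2 ^ p * (‖F1 x‖ₑ ^ p * u x + ‖F2 x‖ₑ ^ p * u x) := by
          refine lintegral_mono fun x => ?_
          calc ‖F1 x + Complex.I * F2 x‖ₑ ^ p * u x ≤ (‖F1 x‖ₑ + ‖F2 x‖ₑ) ^ p * u x := by
                gcongr
                refine (enorm_add_le _ _).trans ?_
                rw [enorm_mul]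
                simp [← ofReal_norm]
            _ ≤ (2 ^ p * (‖F1 x‖ₑ ^ p + ‖F2 x‖ₑ ^ p)) * u x := by
                gcongr
                exact pow_sum hp _ _
            _ = _ := by ring
      _ = 2 ^ p * ((∫⁻ x in Ioo a' b', ‖F1 x‖ₑ ^ p * u x) +
            ∫⁻ x in Ioo a' b', ‖F2 x‖ₑ ^ p * u x) := by
          rw [lintegral_const_mul _ (by fun_prop), lintegral_add_left (by fun_prop)]
      _ ≤ 2 ^ p * (C * J + C * J) := by
          gcongr
          · exact hc1.trans (by gcongr)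
          · exact hc2.trans (by gcongr)
      _ = _ := by ring
  have hsc : ENNReal.ofReal (2 * π * ℓ) ^ p * (ENNReal.ofReal (1 / (2 * π * ℓ)) * G) ^ p = G ^ p := by
    rw [← ENNReal.mul_rpow_of_nonneg _ _ hp0.le, ← mul_assoc,
      ← ENNReal.ofReal_mul (by positivity), mul_one_div_cancel (by positivity), ENNReal.ofReal_one,
      one_mul]
  calc (∫⁻ x in Ioo a' b', u x / ‖θ x‖ₑ ^ p) * G ^ p
      = ENNReal.ofReal (2 * π * ℓ) ^ p * ((ENNReal.ofReal (1 / (2 * π * ℓ)) * G) ^ p *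
          (∫⁻ x in Ioo a' b', u x / ‖θ x‖ₑ ^ p)) := by
        rw [← hsc]; ring
    _ ≤ ENNReal.ofReal (2 * π * ℓ) ^ p * (2 * 2 ^ p * C * J) := by gcongr
    _ = _ := by
        rw [ENNReal.ofReal_mul (by positivity), ENNReal.mul_rpow_of_nonneg _ _ hp0.le]
        ring

end Pool.Agent.P8H66.WT
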